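import Mathlib

set_option autoImplicit false

open Polynomial

namespace H30.Share

lemma coprime_of_no_root {p q : ℂ[X]} (h : ∀ w, p.eval w = 0 → q.eval w ≠ 0) :
    IsCoprime p q := by
  rw [Polynomial.isCoprime_iff_aeval_ne_zero_of_isAlgClosed ℂ ℂ]
  intro w
  by_cases hw : p.eval w = 0
  · right
    simpa using h w hw
  · left
    simpa using hw

lemma dvd_deriv_mul {p r : ℂ[X]} (hp : p ≠ 0) (hr : ∀ w, p.eval w = 0 → r.eval w = 0) :
    p ∣ derivative p * r := by
  by_cases h0 : derivative p * r = 0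
  · rw [h0]; exact dvd_zero _
  refine (IsAlgClosed.splits p).dvd_of_roots_le_roots hp ?_
  rw [Multiset.le_iff_count]
  intro w
  rw [count_roots, count_roots, rootMultiplicity_mul h0]
  by_cases hw : p.eval w = 0
  · have h1 := derivative_rootMultiplicity_of_root (p := p) (t := w) hw
    have h2 : 0 < rootMultiplicity w r := by
      rw [rootMultiplicity_pos (right_ne_zero_of_mul h0)]
      exact hr w hw
    omega
  · rw [rootMultiplicity_eq_zero hw]
    exact Nat.zero_le _

lemma dvd_of_simple {p r : ℂ[X]} (hp : p ≠ 0)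
    (hs : ∀ w, p.eval w = 0 → (derivative p).eval w ≠ 0)
    (hr : ∀ w, p.eval w = 0 → r.eval w = 0) : p ∣ r :=
  (coprime_of_no_root hs).dvd_of_dvd_mul_left (dvd_deriv_mul hp hr)

lemma exists_rad (Q : ℂ[X]) (hQ : Q ≠ 0) : ∃ G Q0 L : ℂ[X], Q = G * Q0 ∧
    derivative Q = G * L ∧ IsCoprime Q0 L ∧ (∀ w, Q.eval w = 0 → Q0.eval w = 0) := by
  set G := EuclideanDomain.gcd Q (derivative Q) with hG
  obtain ⟨Q0, h0⟩ := EuclideanDomain.gcd_dvd_left Q (derivative Q)
  obtain ⟨L, hL⟩ := EuclideanDomain.gcd_dvd_right Q (derivative Q)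
  rw [← hG] at h0 hL
  have hG0 : G ≠ 0 := by
    intro h
    rw [h, zero_mul] at h0
    exact hQ h0
  refine ⟨G, Q0, L, h0, hL, ?_, ?_⟩
  · have h1 : (G : ℂ[X]) = Q * EuclideanDomain.gcdA Q (derivative Q) +
        derivative Q * EuclideanDomain.gcdB Q (derivative Q) :=
      EuclideanDomain.gcd_eq_gcd_ab Q (derivative Q)
    refine ⟨EuclideanDomain.gcdA Q (derivative Q), EuclideanDomain.gcdB Q (derivative Q), ?_⟩
    have h2 : G * 1 = G * (EuclideanDomain.gcdA Q (derivative Q) * Q0 +
        EuclideanDomain.gcdB Q (derivative Q) * L) := by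
      generalize EuclideanDomain.gcdA Q (derivative Q) = u at *
      generalize EuclideanDomain.gcdB Q (derivative Q) = v at *
      rw [hL] at h1
      linear_combination h1 + u * h0
    exact (mul_left_cancel₀ hG0 h2).symm
  · intro w hw
    by_contra hne
    have hd0 : derivative Q ≠ 0 := by
      intro h
      have := derivative_eq_zero.1 h
      rw [natDegree_eq_zero] at this
      obtain ⟨c, hc⟩ := this
      rw [← hc, eval_C] at hw
      rw [← hc, hw, C_0] at hQ
      exact hQ rfl
    have h1 := derivative_rootMultiplicity_of_root (p := Q) (t := w) hw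
    have h2 : 0 < rootMultiplicity w Q := by
      rw [rootMultiplicity_pos hQ]; exact hw
    have h3 : rootMultiplicity w Q = rootMultiplicity w G := by
      conv_lhs => rw [h0]
      rw [rootMultiplicity_mul (by rw [← h0]; exact hQ), rootMultiplicity_eq_zero (x := w) hne,
        add_zero]
    have h4 : rootMultiplicity w G ≤ rootMultiplicity w (derivative Q) := by
      conv_rhs => rw [hL]
      rw [rootMultiplicity_mul (by rw [← hL]; exact hd0)]
      exact Nat.le_add_right _ _
    omega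

lemma coeff_X_mul_deriv (p : ℂ[X]) (n : ℕ) :
    (X * derivative p).coeff n = n * p.coeff n := by
  cases n with
  | zero => simp
  | succ n => rw [coeff_X_mul, coeff_derivative]; push_cast; ring

lemma natDegree_X_mul_deriv_le (p : ℂ[X]) : (X * derivative p).natDegree ≤ p.natDegree := by
  rw [natDegree_le_iff_coeff_eq_zero]
  intro n hn
  rw [coeff_X_mul_deriv, coeff_eq_zero_of_natDegree_lt hn, mul_zero]

/-- sharing of the value `a` by `P / Q` and `lam * w * (P / Q)'` in `ℂ*`. -/
def ShareAt (lam : ℂ) (P Q : ℂ[X]) (a : ℂ) : Prop :=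
  ∀ w : ℂ, w ≠ 0 → Q.eval w ≠ 0 → (P.eval w = a * Q.eval w ↔
    lam * w * ((derivative P).eval w * Q.eval w - P.eval w * (derivative Q).eval w) =
      a * Q.eval w ^ 2)

lemma no_common {P Q : ℂ[X]} (h : IsCoprime P Q) {w : ℂ} (h1 : P.eval w = 0)
    (h2 : Q.eval w = 0) : False := by
  obtain ⟨u, v, huv⟩ := h
  have := congrArg (eval w) huv
  rw [eval_add, eval_mul, eval_mul, h1, h2, eval_one] at this
  simp at this

section

variable {lam a b : ℂ} {P Q G Q0 L : ℂ[X]}

/-- a nonzero point where `P = a Q` is a simple root of `P - a Q`. -/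
lemma simple_root (ha0 : a ≠ 0) (hcop : IsCoprime P Q) (ha : ShareAt lam P Q a)
    {w : ℂ} (hw : w ≠ 0) (h : (P - C a * Q).eval w = 0) :
    (derivative (P - C a * Q)).eval w ≠ 0 := by
  have h1 : P.eval w = a * Q.eval w := by
    rw [eval_sub, eval_mul, eval_C] at h
    exact sub_eq_zero.mp h
  have hQw : Q.eval w ≠ 0 := by
    intro hq
    rw [hq, mul_zero] at h1
    exact no_common hcop h1 hq
  have h2 := (ha w hw hQw).1 h1
  intro h3
  rw [derivative_sub, derivative_C_mul, eval_sub, eval_mul, eval_C] at h3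
  have h4 : (derivative P).eval w * Q.eval w - P.eval w * (derivative Q).eval w = 0 := by
    rw [h1]
    linear_combination Q.eval w * h3
  rw [h4, mul_zero] at h2
  have : a * Q.eval w ^ 2 ≠ 0 := mul_ne_zero ha0 (pow_ne_zero _ hQw)
  exact this h2.symm

lemma eval_diff (hcop : IsCoprime P Q) (ha : ShareAt lam P Q a)
    {w : ℂ} (hw : w ≠ 0) (h : (P - C a * Q).eval w = 0) :
    (P * Q - C lam * X * (derivative P * Q - P * derivative Q)).eval w = 0 := by
  have h1 : P.eval w = a * Q.eval w := by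
    rw [eval_sub, eval_mul, eval_C] at h
    exact sub_eq_zero.mp h
  have hQw : Q.eval w ≠ 0 := by
    intro hq
    rw [hq, mul_zero] at h1
    exact no_common hcop h1 hq
  have h2 := (ha w hw hQw).1 h1
  simp only [eval_sub, eval_mul, eval_C, eval_X]
  rw [h2, h1]; ring

lemma P_sub_ne_zero (hnc : ∀ c : ℂ, P ≠ C c * Q) (c : ℂ) :
    P - C c * Q ≠ 0 := fun h => hnc c (sub_eq_zero.mp h)

/-- The auxiliary function `(R - S) / ((R - a) (R - b))` vanishes identically if it has no
poles and vanishes at infinity. -/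
lemma phi_lemma (ha0 : a ≠ 0) (hb0 : b ≠ 0) (hab : a ≠ b) (hcop : IsCoprime P Q)
    (ha : ShareAt lam P Q a) (hb : ShareAt lam P Q b)
    (hdeg : Q.natDegree < P.natDegree)
    (h0a : P.eval 0 ≠ a * Q.eval 0) (h0b : P.eval 0 ≠ b * Q.eval 0) :
    P * Q - C lam * X * (derivative P * Q - P * derivative Q) = 0 := by
  by_contra hne
  have hnc : ∀ c : ℂ, P ≠ C c * Q := by
    intro c hc
    have h1 : P.natDegree ≤ (C c * Q).natDegree := by rw [← hc]
    have h2 := natDegree_C_mul_le c Q
    omega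
  have hw0 : ∀ c : ℂ, P.eval 0 ≠ c * Q.eval 0 → ∀ w, (P - C c * Q).eval w = 0 → w ≠ 0 := by
    intro c hc w hw h0
    subst h0
    rw [eval_sub, eval_mul, eval_C] at hw
    exact hc (sub_eq_zero.mp hw)
  have hA : P - C a * Q ∣ P * Q - C lam * X * (derivative P * Q - P * derivative Q) :=
    dvd_of_simple (P_sub_ne_zero hnc a)
      (fun w hw => simple_root ha0 hcop ha (hw0 a h0a w hw) hw)
      (fun w hw => eval_diff hcop ha (hw0 a h0a w hw) hw)
  have hB : P - C b * Q ∣ P * Q - C lam * X * (derivative P * Q - P * derivative Q) :=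
    dvd_of_simple (P_sub_ne_zero hnc b)
      (fun w hw => simple_root hb0 hcop hb (hw0 b h0b w hw) hw)
      (fun w hw => eval_diff hcop hb (hw0 b h0b w hw) hw)
  have hAB : IsCoprime (P - C a * Q) (P - C b * Q) := by
    refine coprime_of_no_root fun w h1 h2 => ?_
    rw [eval_sub, eval_mul, eval_C] at h1 h2
    have h3 : (a - b) * Q.eval w = 0 := by linear_combination h2 - h1
    have h4 : Q.eval w = 0 := by
      rcases mul_eq_zero.mp h3 with h | h
      · exact absurd (sub_eq_zero.mp h) hab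
      · exact h
    rw [h4, mul_zero, sub_zero] at h1
    exact no_common hcop h1 h4
  have hdvd := hAB.mul_dvd hA hB
  have h1 := natDegree_le_of_dvd hdvd hne
  have hdA : ∀ c : ℂ, (P - C c * Q).natDegree = P.natDegree := fun c =>
    natDegree_sub_eq_left_of_natDegree_lt (lt_of_le_of_lt (natDegree_C_mul_le c Q) hdeg)
  rw [natDegree_mul (P_sub_ne_zero hnc a) (P_sub_ne_zero hnc b), hdA a, hdA b] at h1
  have h2 : (P * Q - C lam * X * (derivative P * Q - P * derivative Q)).natDegree ≤
      P.natDegree + Q.natDegree := by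
    have e : P * Q - C lam * X * (derivative P * Q - P * derivative Q) =
      P * Q - C lam * ((X * derivative P) * Q - P * (X * derivative Q)) := by ring
    rw [e]
    have e1 : ((X * derivative P) * Q).natDegree ≤ P.natDegree + Q.natDegree :=
      natDegree_mul_le.trans (Nat.add_le_add_right (natDegree_X_mul_deriv_le P) _)
    have e2 : (P * (X * derivative Q)).natDegree ≤ P.natDegree + Q.natDegree :=
      natDegree_mul_le.trans (Nat.add_le_add_left (natDegree_X_mul_deriv_le Q) _)
    refine (natDegree_sub_le _ _).trans (max_le natDegree_mul_le ?_)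
    exact (natDegree_C_mul_le _ _).trans ((natDegree_sub_le _ _).trans (max_le e1 e2))
  omega

/-- The data of the proof: `Q = G Q0`, `Q0` the radical of `Q`, `Q(0) ≠ 0`. -/
structure Setup (lam a b : ℂ) (P Q G Q0 L : ℂ[X]) : Prop where
  lam0 : lam ≠ 0
  a0 : a ≠ 0
  b0 : b ≠ 0
  ab : a ≠ b
  cop : IsCoprime P Q
  nc : ∀ c : ℂ, P ≠ C c * Q
  hQ : Q = G * Q0
  hQ' : derivative Q = G * L
  copL : IsCoprime Q0 L
  rad : ∀ w, Q.eval w = 0 → Q0.eval w = 0
  Qz : Q.eval 0 ≠ 0
  sa : ShareAt lam P Q a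
  sb : ShareAt lam P Q b

namespace Setup

variable (s : Setup lam a b P Q G Q0 L)
include s

lemma Qne : Q ≠ 0 := by
  intro h; exact s.Qz (by rw [h, eval_zero])

lemma Gne : G ≠ 0 := by
  intro h; exact s.Qne (by rw [s.hQ, h, zero_mul])

lemma Q0ne : Q0 ≠ 0 := by
  intro h; exact s.Qne (by rw [s.hQ, h, mul_zero])

lemma Gz : G.eval 0 ≠ 0 := by
  intro h; exact s.Qz (by rw [s.hQ, eval_mul, h, zero_mul])

lemma Q0z : Q0.eval 0 ≠ 0 := by
  intro h; exact s.Qz (by rw [s.hQ, eval_mul, h, mul_zero])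

lemma degQ : Q.natDegree = G.natDegree + Q0.natDegree := by
  conv_lhs => rw [s.hQ]
  exact natDegree_mul s.Gne s.Q0ne

lemma XL_eq : G * (X * L) = X * derivative Q := by rw [s.hQ']; ring

lemma natDegree_XL : (X * L).natDegree ≤ Q0.natDegree := by
  by_cases h : X * L = 0
  · rw [h]; simp
  · have h1 : (G * (X * L)).natDegree ≤ Q.natDegree := by
      rw [s.XL_eq]; exact natDegree_X_mul_deriv_le Q
    rw [natDegree_mul s.Gne h, s.degQ] at h1
    omega

lemma coeff_XL : (X * L).coeff Q0.natDegree = Q.natDegree * Q0.leadingCoeff := by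
  have h1 : (G * (X * L)).coeff (G.natDegree + Q0.natDegree) =
      G.coeff G.natDegree * (X * L).coeff Q0.natDegree :=
    coeff_mul_add_eq_of_natDegree_le le_rfl s.natDegree_XL
  rw [s.XL_eq, ← s.degQ, coeff_X_mul_deriv] at h1
  have h2 : Q.coeff Q.natDegree = G.coeff G.natDegree * Q0.coeff Q0.natDegree := by
    conv_lhs => rw [s.degQ, s.hQ]
    exact coeff_mul_add_eq_of_natDegree_le le_rfl le_rfl
  rw [h2] at h1
  have h3 : G.coeff G.natDegree ≠ 0 := leadingCoeff_ne_zero.2 s.Gne
  have h4 : G.coeff G.natDegree * (X * L).coeff Q0.natDegree =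
      G.coeff G.natDegree * (Q.natDegree * Q0.leadingCoeff) := by
    rw [← h1, leadingCoeff]; ring
  exact mul_left_cancel₀ h3 h4

end Setup

/-- numerator of `S` over the denominator `Q Q0`. -/
noncomputable def V (lam : ℂ) (P Q0 L : ℂ[X]) : ℂ[X] :=
  C lam * (X * derivative P * Q0 - P * (X * L))

/-- numerator of `R - S` over the denominator `Q Q0`. -/
noncomputable def D (lam : ℂ) (P Q0 L : ℂ[X]) : ℂ[X] := P * Q0 - V lam P Q0 L

namespace Setup

variable (s : Setup lam a b P Q G Q0 L)
include s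

lemma V_natDegree_le : (V lam P Q0 L).natDegree ≤ P.natDegree + Q0.natDegree := by
  have e1 : (X * derivative P * Q0).natDegree ≤ P.natDegree + Q0.natDegree :=
    natDegree_mul_le.trans (Nat.add_le_add_right (natDegree_X_mul_deriv_le P) _)
  have e2 : (P * (X * L)).natDegree ≤ P.natDegree + Q0.natDegree :=
    natDegree_mul_le.trans (Nat.add_le_add_left s.natDegree_XL _)
  exact (natDegree_C_mul_le _ _).trans ((natDegree_sub_le _ _).trans (max_le e1 e2))

lemma V_coeff : (V lam P Q0 L).coeff (P.natDegree + Q0.natDegree) =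
    lam * ((P.natDegree : ℂ) - Q.natDegree) * (P.leadingCoeff * Q0.leadingCoeff) := by
  rw [V, coeff_C_mul, coeff_sub,
    coeff_mul_add_eq_of_natDegree_le (natDegree_X_mul_deriv_le P) le_rfl,
    coeff_mul_add_eq_of_natDegree_le le_rfl s.natDegree_XL, s.coeff_XL, coeff_X_mul_deriv,
    leadingCoeff, leadingCoeff]
  ring

omit s in
lemma V_zero : (V lam P Q0 L).eval 0 = 0 := by
  simp [V]

lemma V_coprime : IsCoprime (V lam P Q0 L) (Q * Q0) := by
  refine coprime_of_no_root fun w hV hH => ?_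
  have hQ : Q.eval w = 0 := by
    rw [eval_mul] at hH
    rcases mul_eq_zero.mp hH with h | h
    · exact h
    · rw [s.hQ, eval_mul, h, mul_zero]
  have hQ0 := s.rad w hQ
  have hw : w ≠ 0 := by
    rintro rfl
    exact s.Qz hQ
  have hL : L.eval w ≠ 0 := fun h => no_common s.copL hQ0 h
  have hP : P.eval w ≠ 0 := fun h => no_common s.cop h hQ
  rw [V] at hV
  simp only [eval_mul, eval_sub, eval_C, eval_X] at hV
  rw [hQ0, mul_zero, zero_sub] at hV
  exact mul_ne_zero s.lam0 (neg_ne_zero.2 (mul_ne_zero hP (mul_ne_zero hw hL))) hV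

/-- if `S(w) = c` is shared then at the roots of `V - c Q Q0` the difference vanishes. -/
lemma D_eval_of_V {c : ℂ} (hc0 : c ≠ 0) (hc : ShareAt lam P Q c) {w : ℂ}
    (h : (V lam P Q0 L - C c * (Q * Q0)).eval w = 0) : (D lam P Q0 L).eval w = 0 := by
  rw [eval_sub, eval_mul, eval_C, sub_eq_zero] at h
  have hw : w ≠ 0 := by
    rintro rfl
    rw [V_zero, eval_mul] at h
    exact mul_ne_zero hc0 (mul_ne_zero s.Qz s.Q0z) h.symm
  have hH : (Q * Q0).eval w ≠ 0 := by
    intro h1
    rw [h1, mul_zero] at h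
    exact no_common s.V_coprime h h1
  rw [eval_mul] at hH
  have hQw : Q.eval w ≠ 0 := left_ne_zero_of_mul hH
  have h1 : lam * w * ((derivative P).eval w * Q.eval w - P.eval w * (derivative Q).eval w) =
      c * Q.eval w ^ 2 := by
    rw [V] at h
    simp only [eval_mul, eval_sub, eval_C, eval_X] at h
    have e1 : Q.eval w = G.eval w * Q0.eval w := by
      conv_lhs => rw [s.hQ]
      rw [eval_mul]
    have e2 : (derivative Q).eval w = G.eval w * L.eval w := by
      rw [s.hQ', eval_mul]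
    rw [e2]
    have e3 : (c * Q.eval w ^ 2 : ℂ) = G.eval w * (c * (Q.eval w * Q0.eval w)) := by
      conv_lhs => rw [pow_two]
      nth_rewrite 2 [e1]
      ring
    rw [e3, ← h]
    nth_rewrite 1 [e1]
    ring
  have h2 := (hc w hw hQw).2 h1
  rw [D, eval_sub, h, eval_mul, eval_mul, h2]
  ring

lemma D_eval_of_P {c : ℂ} (hc : ShareAt lam P Q c) {w : ℂ} (hw : w ≠ 0)
    (h : (P - C c * Q).eval w = 0) : (D lam P Q0 L).eval w = 0 := by
  have h1 := eval_diff s.cop hc hw h
  have hQw : Q.eval w ≠ 0 := by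
    intro hq
    rw [eval_sub, eval_mul, eval_C, hq, mul_zero, sub_zero] at h
    exact no_common s.cop h hq
  have hG : G.eval w ≠ 0 := by
    intro hG
    rw [s.hQ, eval_mul, hG, zero_mul] at hQw
    exact hQw rfl
  have e : P * Q - C lam * X * (derivative P * Q - P * derivative Q) = G * D lam P Q0 L := by
    rw [D, V, s.hQ']
    linear_combination (P - C lam * X * derivative P) * s.hQ
  rw [e, eval_mul] at h1
  exact (mul_eq_zero.mp h1).resolve_left hG

lemma A_ne {c : ℂ} (hc0 : c ≠ 0) : V lam P Q0 L - C c * (Q * Q0) ≠ 0 := by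
  intro h
  have := congrArg (eval 0) h
  rw [eval_sub, V_zero, eval_mul, eval_C, eval_mul, eval_zero, zero_sub] at this
  exact neg_ne_zero.2 (mul_ne_zero hc0 (mul_ne_zero s.Qz s.Q0z)) this

omit s in
lemma A_zero (c : ℂ) : (V lam P Q0 L - C c * (Q * Q0)).eval 0 = - (c * (Q * Q0).eval 0) := by
  rw [eval_sub, V_zero, eval_mul, eval_C, zero_sub]

lemma A_dvd {c : ℂ} (hc0 : c ≠ 0) (hc : ShareAt lam P Q c) :
    V lam P Q0 L - C c * (Q * Q0) ∣
      X * (derivative (V lam P Q0 L) * (Q * Q0) - V lam P Q0 L * derivative (Q * Q0)) *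
        D lam P Q0 L := by
  have h1 := dvd_deriv_mul (s.A_ne hc0) (fun w hw => s.D_eval_of_V hc0 hc hw)
  have e : X * (derivative (V lam P Q0 L) * (Q * Q0) - V lam P Q0 L * derivative (Q * Q0)) *
        D lam P Q0 L =
      X * (Q * Q0) * (derivative (V lam P Q0 L - C c * (Q * Q0)) * D lam P Q0 L) -
      (V lam P Q0 L - C c * (Q * Q0)) * (X * derivative (Q * Q0) * D lam P Q0 L) := by
    rw [derivative_sub, derivative_C_mul]; ring
  rw [e]
  exact dvd_sub (Dvd.dvd.mul_left h1 _) (dvd_mul_right _ _)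

/-- The logarithmic derivative identity
`DS (R - S) = (S - a) (S - b) K / H`, with `H ∣ K - X H'`. -/
lemma exists_K : ∃ K : ℂ[X],
    X * (derivative (V lam P Q0 L) * (Q * Q0) - V lam P Q0 L * derivative (Q * Q0)) *
        D lam P Q0 L =
      K * ((V lam P Q0 L - C a * (Q * Q0)) * (V lam P Q0 L - C b * (Q * Q0))) ∧
    Q * Q0 ∣ K - X * derivative (Q * Q0) := by
  have hAB : IsCoprime (V lam P Q0 L - C a * (Q * Q0)) (V lam P Q0 L - C b * (Q * Q0)) := by
    refine coprime_of_no_root fun w h1 h2 => ?_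
    rw [eval_sub, eval_mul, eval_C] at h1 h2
    have h3 : (a - b) * (Q * Q0).eval w = 0 := by linear_combination h2 - h1
    have h4 : (Q * Q0).eval w = 0 := by
      rcases mul_eq_zero.mp h3 with h | h
      · exact absurd (sub_eq_zero.mp h) s.ab
      · exact h
    rw [h4, mul_zero, sub_zero] at h1
    exact no_common s.V_coprime h1 h4
  obtain ⟨K, hK⟩ := hAB.mul_dvd (s.A_dvd s.a0 s.sa) (s.A_dvd s.b0 s.sb)
  refine ⟨K, by rw [hK]; ring, ?_⟩
  have h1 : Q * Q0 ∣ V lam P Q0 L * (K - X * derivative (Q * Q0)) * V lam P Q0 L := by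
    have h2 : X * derivative (Q * Q0) * (P * Q0) = (Q * Q0) * (X * P * (L + derivative Q0)) := by
      rw [derivative_mul, s.hQ']
      linear_combination (- X * P * L * Q0) * s.hQ
    refine ⟨X * derivative (V lam P Q0 L) * D lam P Q0 L + (C a + C b) * K * V lam P Q0 L -
      C a * C b * K * (Q * Q0) - V lam P Q0 L * (X * P * (L + derivative Q0)), ?_⟩
    have h3 : D lam P Q0 L = P * Q0 - V lam P Q0 L := rfl
    generalize hV : V lam P Q0 L = v at *
    generalize hD : D lam P Q0 L = dd at *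
    generalize hH : Q * Q0 = h at *
    linear_combination -hK - v * h2 - v * X * derivative h * h3
  have h3 := s.V_coprime.symm
  have h4 := h3.dvd_of_dvd_mul_right h1
  exact h3.dvd_of_dvd_mul_left h4

end Setup

end

end H30.Share
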