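import Pool.Agent.H30.ShareCore

set_option autoImplicit false

open Polynomial

namespace H30.Share

lemma natDegree_X_mul_deriv {p : ℂ[X]} (h : 0 < p.natDegree) :
    (X * derivative p).natDegree = p.natDegree := by
  refine le_antisymm (natDegree_X_mul_deriv_le p) (le_natDegree_of_ne_zero ?_)
  rw [coeff_X_mul_deriv]
  have hp : p ≠ 0 := by
    rintro rfl; simp at h
  refine mul_ne_zero (by exact_mod_cast h.ne') (leadingCoeff_ne_zero.2 hp)

lemma K_eq {K H : ℂ[X]} (hH : H.eval 0 ≠ 0) (hd : H ∣ K - X * derivative H)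
    (hK : K.natDegree ≤ H.natDegree) (hK0 : K.eval 0 = 0) : K = X * derivative H := by
  obtain ⟨T, hT⟩ := hd
  have hHne : H ≠ 0 := by rintro rfl; simp at hH
  by_cases hT0 : T = 0
  · rw [hT0, mul_zero] at hT
    exact sub_eq_zero.mp hT
  exfalso
  have h1 : (K - X * derivative H).natDegree ≤ H.natDegree :=
    (natDegree_sub_le _ _).trans (max_le hK (natDegree_X_mul_deriv_le H))
  rw [hT, natDegree_mul hHne hT0] at h1
  have h2 : T.natDegree = 0 := by omega
  rw [natDegree_eq_zero] at h2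
  obtain ⟨c, rfl⟩ := h2
  have h3 := congrArg (eval 0) hT
  rw [eval_sub, hK0, eval_mul, eval_X, zero_mul, eval_mul, eval_C, sub_zero] at h3
  rcases mul_eq_zero.mp h3.symm with h | h
  · exact hH h
  · exact hT0 (by rw [h, C_0])

namespace Setup

variable {lam a b : ℂ} {P Q G Q0 L : ℂ[X]} (s : Setup lam a b P Q G Q0 L)
include s

lemma D_natDegree_le : (D lam P Q0 L).natDegree ≤ P.natDegree + Q0.natDegree :=
  (natDegree_sub_le _ _).trans (max_le natDegree_mul_le s.V_natDegree_le)

lemma St_natDegree_le :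
    (X * (derivative (V lam P Q0 L) * (Q * Q0) - V lam P Q0 L * derivative (Q * Q0))).natDegree ≤
      (V lam P Q0 L).natDegree + (Q * Q0).natDegree := by
  have e : X * (derivative (V lam P Q0 L) * (Q * Q0) - V lam P Q0 L * derivative (Q * Q0)) =
      (X * derivative (V lam P Q0 L)) * (Q * Q0) - V lam P Q0 L * (X * derivative (Q * Q0)) := by
    ring
  rw [e]
  refine (natDegree_sub_le _ _).trans (max_le ?_ ?_)
  · exact natDegree_mul_le.trans (Nat.add_le_add_right (natDegree_X_mul_deriv_le _) _)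
  · exact natDegree_mul_le.trans (Nat.add_le_add_left (natDegree_X_mul_deriv_le _) _)

lemma K_zero {K : ℂ[X]}
    (hK : X * (derivative (V lam P Q0 L) * (Q * Q0) - V lam P Q0 L * derivative (Q * Q0)) *
        D lam P Q0 L =
      K * ((V lam P Q0 L - C a * (Q * Q0)) * (V lam P Q0 L - C b * (Q * Q0)))) :
    K.eval 0 = 0 := by
  have h := congrArg (eval 0) hK
  rw [eval_mul, eval_mul, eval_X, zero_mul, zero_mul, eval_mul, eval_mul, A_zero, A_zero] at h
  have hH : (Q * Q0).eval 0 ≠ 0 := by rw [eval_mul]; exact mul_ne_zero s.Qz s.Q0z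
  refine (mul_eq_zero.mp h.symm).resolve_right ?_
  exact mul_ne_zero (neg_ne_zero.2 (mul_ne_zero s.a0 hH)) (neg_ne_zero.2 (mul_ne_zero s.b0 hH))

lemma degH : (Q * Q0).natDegree = Q.natDegree + Q0.natDegree := natDegree_mul s.Qne s.Q0ne

/-- If `R` is finite at infinity we get a contradiction. -/
lemma not_finite (hP : P.natDegree ≤ Q.natDegree) : False := by
  obtain ⟨K, hK, hd⟩ := s.exists_K
  have hH := s.degH
  have hHpos : 0 < (Q * Q0).natDegree := by
    rcases Nat.eq_zero_or_pos (Q * Q0).natDegree with h | h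
    · exfalso
      have h1 : Q.natDegree = 0 := by omega
      have h2 : P.natDegree = 0 := by omega
      rw [natDegree_eq_zero] at h1 h2
      obtain ⟨x, hx⟩ := h1
      obtain ⟨y, hy⟩ := h2
      have hx0 : x ≠ 0 := by
        rintro rfl
        apply s.Qne
        rw [← hx, C_0]
      apply s.nc (y / x)
      rw [← hx, ← hy, ← C_mul, div_mul_cancel₀ _ hx0]
    · exact h
  have hV : (V lam P Q0 L).natDegree < (Q * Q0).natDegree := by
    rcases lt_or_eq_of_le hP with h | h
    · have := s.V_natDegree_le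
      omega
    · have h1 := s.V_natDegree_le
      have h2 := s.V_coeff
      rw [h, sub_self, mul_zero, zero_mul] at h2
      rw [h, ← hH] at h1
      rw [← hH] at h2
      refine lt_of_le_of_ne h1 fun h3 => ?_
      rw [← h3, coeff_natDegree, leadingCoeff_eq_zero] at h2
      rw [h2, natDegree_zero] at h3
      omega
  have hA : ∀ c : ℂ, c ≠ 0 → (V lam P Q0 L - C c * (Q * Q0)).natDegree = (Q * Q0).natDegree := by
    intro c hc
    rw [natDegree_sub_eq_right_of_natDegree_lt, natDegree_C_mul hc]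
    rw [natDegree_C_mul hc]
    exact hV
  have hKlt : K.natDegree < (Q * Q0).natDegree := by
    by_cases hK0 : K = 0
    · rw [hK0, natDegree_zero]; exact hHpos
    have h1 := congrArg natDegree hK
    rw [natDegree_mul hK0 (mul_ne_zero (s.A_ne s.a0) (s.A_ne s.b0)),
      natDegree_mul (s.A_ne s.a0) (s.A_ne s.b0), hA a s.a0, hA b s.b0] at h1
    have h2 := natDegree_mul_le (p := X * (derivative (V lam P Q0 L) * (Q * Q0) -
      V lam P Q0 L * derivative (Q * Q0))) (q := D lam P Q0 L)
    have h3 := s.St_natDegree_le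
    have h4 := s.D_natDegree_le
    omega
  have hKe := K_eq (by rw [eval_mul]; exact mul_ne_zero s.Qz s.Q0z) hd hKlt.le (s.K_zero hK)
  have := natDegree_X_mul_deriv hHpos
  rw [← hKe] at this
  omega

variable (hdeg : Q.natDegree < P.natDegree)
include hdeg

lemma V_natDegree : (V lam P Q0 L).natDegree = P.natDegree + Q0.natDegree := by
  refine le_antisymm s.V_natDegree_le (le_natDegree_of_ne_zero ?_)
  rw [s.V_coeff]
  have hPne : P ≠ 0 := by
    rintro rfl; simp at hdeg
  refine mul_ne_zero (mul_ne_zero s.lam0 ?_)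
    (mul_ne_zero (leadingCoeff_ne_zero.2 hPne) (leadingCoeff_ne_zero.2 s.Q0ne))
  rw [sub_ne_zero]
  exact_mod_cast hdeg.ne'

/-- The main identity: `X (V' H - V H') D = X H' (V - a H) (V - b H)`, with `H = Q Q0`. -/
lemma main_id : X * (derivative (V lam P Q0 L) * (Q * Q0) - V lam P Q0 L * derivative (Q * Q0)) *
        D lam P Q0 L =
      X * derivative (Q * Q0) *
        ((V lam P Q0 L - C a * (Q * Q0)) * (V lam P Q0 L - C b * (Q * Q0))) := by
  obtain ⟨K, hK, hd⟩ := s.exists_K
  have hH := s.degH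
  have hV := s.V_natDegree hdeg
  have hA : ∀ c : ℂ, (V lam P Q0 L - C c * (Q * Q0)).natDegree = (V lam P Q0 L).natDegree := by
    intro c
    refine natDegree_sub_eq_left_of_natDegree_lt ?_
    have := natDegree_C_mul_le c (Q * Q0)
    omega
  have hKle : K.natDegree ≤ (Q * Q0).natDegree := by
    by_cases hK0 : K = 0
    · rw [hK0, natDegree_zero]; exact Nat.zero_le _
    have h1 := congrArg natDegree hK
    rw [natDegree_mul hK0 (mul_ne_zero (s.A_ne s.a0) (s.A_ne s.b0)),
      natDegree_mul (s.A_ne s.a0) (s.A_ne s.b0), hA a, hA b] at h1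
    have h2 := natDegree_mul_le (p := X * (derivative (V lam P Q0 L) * (Q * Q0) -
      V lam P Q0 L * derivative (Q * Q0))) (q := D lam P Q0 L)
    have h3 := s.St_natDegree_le
    have h4 := s.D_natDegree_le
    omega
  have hKe := K_eq (by rw [eval_mul]; exact mul_ne_zero s.Qz s.Q0z) hd hKle (s.K_zero hK)
  rw [hK, hKe]

lemma natDegree_P_sub (c : ℂ) : (P - C c * Q).natDegree = P.natDegree :=
  natDegree_sub_eq_left_of_natDegree_lt (lt_of_le_of_lt (natDegree_C_mul_le c Q) hdeg)

/-- `P - b Q` divides the numerator of `R - S` when `R(0) ≠ b`. -/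
lemma B_dvd (h0 : P.eval 0 ≠ b * Q.eval 0) : P - C b * Q ∣ D lam P Q0 L := by
  have hw0 : ∀ w, (P - C b * Q).eval w = 0 → w ≠ 0 := by
    rintro w hw rfl
    rw [eval_sub, eval_mul, eval_C] at hw
    exact h0 (sub_eq_zero.mp hw)
  exact dvd_of_simple (P_sub_ne_zero s.nc b)
    (fun w hw => simple_root s.b0 s.cop s.sb (hw0 w hw) hw)
    (fun w hw => s.D_eval_of_P s.sb (hw0 w hw) hw)

/-- first identity: `P - b Q` times `c Q0 + lam X L`. -/
lemma first_id (h0 : P.eval 0 = a * Q.eval 0) : ∃ c : ℂ, c * (a - b) = a ∧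
    lam * P.natDegree * (a - b) = - b ∧
    D lam P Q0 L = (P - C b * Q) * (C c * Q0 + C lam * (X * L)) := by
  have h0b : P.eval 0 ≠ b * Q.eval 0 := by
    rw [h0]
    intro h
    have : (a - b) * Q.eval 0 = 0 := by linear_combination h
    rcases mul_eq_zero.mp this with h | h
    · exact s.ab (sub_eq_zero.mp h)
    · exact s.Qz h
  obtain ⟨C2, hC2⟩ := s.B_dvd hdeg h0b
  have hBne := P_sub_ne_zero s.nc b
  have hBdeg := s.natDegree_P_sub hdeg b
  have hPne : P ≠ 0 := by
    rintro rfl; simp at hdeg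
  have hC2deg : C2.natDegree ≤ Q0.natDegree := by
    by_cases h : C2 = 0
    · rw [h, natDegree_zero]; exact Nat.zero_le _
    have h1 := congrArg natDegree hC2
    rw [natDegree_mul hBne h, hBdeg] at h1
    have := s.D_natDegree_le
    omega
  have hdvd : Q0 ∣ C2 - C lam * (X * L) := by
    have h1 : Q0 ∣ P * (C2 - C lam * (X * L)) := by
      refine ⟨C b * G * C2 + P - C lam * X * derivative P, ?_⟩
      have h3 : D lam P Q0 L = P * Q0 - C lam * (X * derivative P * Q0 - P * (X * L)) := rfl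
      linear_combination h3 - hC2 + (C b * C2) * s.hQ
    have h2 : IsCoprime Q0 P := by
      refine coprime_of_no_root fun w h1 h2 => ?_
      refine no_common s.cop h2 ?_
      rw [s.hQ, eval_mul, h1, mul_zero]
    exact h2.dvd_of_dvd_mul_left h1
  obtain ⟨T, hT⟩ := hdvd
  have hTc : ∃ c : ℂ, T = C c := by
    by_cases hT0 : T = 0
    · exact ⟨0, by rw [hT0, C_0]⟩
    have h1 : (C2 - C lam * (X * L)).natDegree ≤ Q0.natDegree :=
      (natDegree_sub_le _ _).trans (max_le hC2deg
        ((natDegree_C_mul_le _ _).trans s.natDegree_XL))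
    rw [hT, natDegree_mul s.Q0ne hT0] at h1
    have h2 : T.natDegree = 0 := by omega
    rw [natDegree_eq_zero] at h2
    obtain ⟨c, hc⟩ := h2
    exact ⟨c, hc.symm⟩
  obtain ⟨c, rfl⟩ := hTc
  have hC2' : C2 = C c * Q0 + C lam * (X * L) := by linear_combination hT
  rw [hC2'] at hC2
  have hc : c * (a - b) = a := by
    have h1 := congrArg (eval 0) hC2
    rw [D, eval_sub, V_zero, eval_mul, eval_mul, eval_sub, eval_add, eval_mul, eval_mul,
      eval_mul, eval_mul, eval_C, eval_C, eval_C, eval_X, h0] at h1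
    have h2 : (c * (a - b) - a) * (Q.eval 0 * Q0.eval 0) = 0 := by linear_combination -h1
    exact sub_eq_zero.mp ((mul_eq_zero.mp h2).resolve_right (mul_ne_zero s.Qz s.Q0z))
  refine ⟨c, hc, ?_, hC2⟩
  have h1 := congrArg (fun p : ℂ[X] => p.coeff (P.natDegree + Q0.natDegree)) hC2
  have hXL : (C c * Q0 + C lam * (X * L)).natDegree ≤ Q0.natDegree :=
    (natDegree_add_le _ _).trans (max_le (natDegree_C_mul_le _ _)
      ((natDegree_C_mul_le _ _).trans s.natDegree_XL))
  rw [D, coeff_sub, s.V_coeff, coeff_mul_add_eq_of_natDegree_le le_rfl le_rfl,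
    coeff_mul_add_eq_of_natDegree_le hBdeg.le hXL, coeff_add, coeff_C_mul, coeff_C_mul,
    s.coeff_XL, coeff_sub, coeff_C_mul, coeff_eq_zero_of_natDegree_lt hdeg, mul_zero, sub_zero,
    coeff_natDegree, coeff_natDegree] at h1
  have h2 : (P.leadingCoeff * Q0.leadingCoeff) *
      (1 - lam * P.natDegree - c) = 0 := by linear_combination h1
  have h3 : 1 - lam * P.natDegree - c = 0 :=
    (mul_eq_zero.mp h2).resolve_left
      (mul_ne_zero (leadingCoeff_ne_zero.2 hPne) (leadingCoeff_ne_zero.2 s.Q0ne))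
  linear_combination -hc - (a - b) * h3

/-- `d P - X P' = a d Q - b X Q'`. -/
lemma second_id (h0 : P.eval 0 = a * Q.eval 0) :
    C (P.natDegree : ℂ) * P - X * derivative P =
      C (a * P.natDegree) * Q - C b * (X * derivative Q) := by
  obtain ⟨c, hc, hd, hD⟩ := s.first_id hdeg h0
  have hab : a - b ≠ 0 := sub_ne_zero.2 s.ab
  set d : ℂ := (P.natDegree : ℂ) with hdd
  have h3 : D lam P Q0 L = P * Q0 - C lam * (X * derivative P * Q0 - P * (X * L)) := rfl
  have hCc : (C c : ℂ[X]) * (C a - C b) = C a := by rw [← C_sub, ← C_mul, hc]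
  have hCd : (C lam * C d : ℂ[X]) * (C a - C b) = - C b := by
    rw [← C_sub, ← C_mul, ← C_mul, hd, C_neg]
  have h4 : Q0 * (C lam * (C a - C b) * (C d * P - X * derivative P -
      (C (a * d) * Q - C b * (X * derivative Q)))) = 0 := by
    rw [C_mul, s.hQ']
    rw [h3] at hD
    linear_combination (C a - C b) * hD + (P * Q0 - C a * Q * Q0) * hCd +
      (P * Q0 - C b * Q * Q0) * hCc - C lam * (C a - C b) * C b * X * L * s.hQ
  have h5 := (mul_eq_zero.mp h4).resolve_left s.Q0ne
  have h6 := (mul_eq_zero.mp h5).resolve_left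
    (mul_ne_zero (C_ne_zero.2 s.lam0) (by rw [← C_sub]; exact C_ne_zero.2 hab))
  exact sub_eq_zero.mp h6

/-- The final contradiction. -/
lemma contra (hD0 : D lam P Q0 L ≠ 0) (h0 : P.eval 0 = a * Q.eval 0) : False := by
  have hab : a - b ≠ 0 := sub_ne_zero.2 s.ab
  have h2 := s.second_id hdeg h0
  obtain ⟨c, hc, hd, hD⟩ := s.first_id hdeg h0
  have hmain := s.main_id hdeg
  have hne := P_sub_ne_zero s.nc a
  -- the order of `P - a Q` at `0`
  obtain ⟨A1, hA1, hA1z⟩ := exists_eq_pow_rootMultiplicity_mul_and_not_dvd (P - C a * Q) hne 0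
  rw [C_0, sub_zero] at hA1 hA1z
  set E := rootMultiplicity 0 (P - C a * Q) with hE
  rw [X_dvd_iff, coeff_zero_eq_eval_zero] at hA1z
  have hEpos : 0 < E := by
    rw [hE, rootMultiplicity_pos hne]
    rw [IsRoot, eval_sub, eval_mul, eval_C, h0, sub_self]
  have hA1ne : A1 ≠ 0 := by
    rintro rfl; simp at hA1z
  have hP : P = C a * Q + X ^ E * A1 := by linear_combination hA1
  -- the polynomial `A1 * B` divides `D`, hence the degree of `G` is less than `E`
  have hw0 : ∀ w, A1.eval w = 0 → w ≠ 0 := by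
    rintro w hw rfl
    exact hA1z hw
  have hA1root : ∀ w, A1.eval w = 0 → (P - C a * Q).eval w = 0 := by
    intro w hw
    rw [hA1, eval_mul, hw, mul_zero]
  have hA1d : A1 ∣ D lam P Q0 L := by
    refine dvd_of_simple hA1ne ?_ ?_
    · intro w hw h
      refine simple_root s.a0 s.cop s.sa (hw0 w hw) (hA1root w hw) ?_
      rw [hA1, derivative_mul, eval_add, eval_mul, eval_mul, hw, h, mul_zero, mul_zero, add_zero]
    · intro w hw
      exact s.D_eval_of_P s.sa (hw0 w hw) (hA1root w hw)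
  have hBd : P - C b * Q ∣ D lam P Q0 L := ⟨_, hD⟩
  have hAB : IsCoprime A1 (P - C b * Q) := by
    refine coprime_of_no_root fun w h1 h3 => ?_
    have h4 := hA1root w h1
    rw [eval_sub, eval_mul, eval_C] at h3 h4
    have h5 : (a - b) * Q.eval w = 0 := by linear_combination h3 - h4
    have h6 : Q.eval w = 0 := (mul_eq_zero.mp h5).resolve_left hab
    rw [h6, mul_zero, sub_zero] at h3
    exact no_common s.cop h3 h6
  have hdegA1 : E + A1.natDegree = P.natDegree := by
    have h1 := s.natDegree_P_sub hdeg a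
    rw [hA1, natDegree_mul (pow_ne_zero _ X_ne_zero) hA1ne, natDegree_X_pow] at h1
    exact h1
  have hGdeg : G.natDegree < E := by
    have h1 := natDegree_le_of_dvd (hAB.mul_dvd hA1d hBd) hD0
    rw [natDegree_mul hA1ne (P_sub_ne_zero s.nc b), s.natDegree_P_sub hdeg b] at h1
    have h3 := s.D_natDegree_le
    have h4 := s.degQ
    omega
  have hX : ∀ p : ℂ[X], X * derivative (X ^ E * p : ℂ[X]) =
      X ^ E * (C (E : ℂ) * p + X * derivative p) := by
    intro p
    rw [derivative_mul, derivative_X_pow]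
    have : (X : ℂ[X]) ^ E = X * X ^ (E - 1) := by
      rw [← pow_succ']; congr 1; omega
    rw [this]; ring
  have hPd : derivative P = C a * derivative Q + derivative (X ^ E * A1) := by
    conv_lhs => rw [hP]
    rw [derivative_add, derivative_C_mul]
  generalize hdd : (P.natDegree : ℂ) = d at h2 hd
  -- `(a - b) X Q' = X^E ((d - E) A1 - X A1')`
  have hXQ : C (a - b) * (X * derivative Q) =
      X ^ E * ((C d - C (E : ℂ)) * A1 - X * derivative A1) := by
    rw [C_mul] at h2
    rw [C_sub]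
    linear_combination -h2 + C d * hP - X * hPd - hX A1
  obtain ⟨Y, hY⟩ : X ^ E ∣ X * derivative Q := by
    have h3 : X ^ E ∣ C (a - b) * (X * derivative Q) := ⟨_, hXQ⟩
    have h4 : X * derivative Q = C (a - b)⁻¹ * (C (a - b) * (X * derivative Q)) := by
      rw [← mul_assoc, ← C_mul, inv_mul_cancel₀ hab, C_1, one_mul]
    rw [h4]
    exact Dvd.dvd.mul_left h3 _
  have hXEne : (X : ℂ[X]) ^ E ≠ 0 := pow_ne_zero _ X_ne_zero
  have hYeq : C (a - b) * Y = (C d - C (E : ℂ)) * A1 - X * derivative A1 := by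
    refine mul_left_cancel₀ hXEne ?_
    rw [← hXQ, hY]; ring
  have hY0 : (a - b) * Y.eval 0 = (d - E) * A1.eval 0 := by
    have := congrArg (eval 0) hYeq
    simpa using this
  -- `V = X^E V1`
  set V1 : ℂ[X] := C lam * ((C (E : ℂ) * A1 + X * derivative A1) * Q0 - A1 * (X * L)) with hV1
  have hV : V lam P Q0 L = X ^ E * V1 := by
    rw [V, hV1]
    linear_combination C lam * X * Q0 * hPd + C lam * Q0 * hX A1 - C lam * X * L * hP +
      C lam * C a * (X * Q0) * s.hQ' - C lam * C a * X * L * s.hQ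
  have hV10 : V1.eval 0 = lam * (E * A1.eval 0 * Q0.eval 0) := by
    rw [hV1]; simp
  set S1 : ℂ[X] := (C (E : ℂ) * V1 + X * derivative V1) * (Q * Q0) -
    V1 * (X * derivative (Q * Q0)) with hS1
  have hS : X * (derivative (V lam P Q0 L) * (Q * Q0) - V lam P Q0 L * derivative (Q * Q0)) =
      X ^ E * S1 := by
    rw [hV, hS1]
    linear_combination (Q * Q0) * hX V1
  have hS10 : S1.eval 0 = E * V1.eval 0 * (Q.eval 0 * Q0.eval 0) := by
    rw [hS1]; simp
  set AA := V lam P Q0 L - C a * (Q * Q0) with hAA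
  set BB := V lam P Q0 L - C b * (Q * Q0) with hBB
  have hAA0 : AA.eval 0 = - (a * (Q.eval 0 * Q0.eval 0)) := by
    rw [hAA, A_zero, eval_mul]
  have hBB0 : BB.eval 0 = - (b * (Q.eval 0 * Q0.eval 0)) := by
    rw [hBB, A_zero, eval_mul]
  rw [hS] at hmain
  have hcopX : ∀ p : ℂ[X], p.eval 0 ≠ 0 → IsCoprime (X ^ E) p := by
    intro p hp
    refine coprime_of_no_root fun w h1 h3 => ?_
    rw [eval_pow, eval_X] at h1
    have h4 : w = 0 := by
      by_contra h
      exact pow_ne_zero _ h h1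
    subst h4
    exact hp h3
  have hd1 : X ^ E ∣ X * derivative (Q * Q0) := by
    have h3 : X ^ E ∣ X * derivative (Q * Q0) * (AA * BB) := by
      rw [← hmain, mul_assoc]
      exact dvd_mul_right _ _
    refine (hcopX (AA * BB) ?_).dvd_of_dvd_mul_right h3
    rw [eval_mul, hAA0, hBB0]
    exact mul_ne_zero (neg_ne_zero.2 (mul_ne_zero s.a0 (mul_ne_zero s.Qz s.Q0z)))
      (neg_ne_zero.2 (mul_ne_zero s.b0 (mul_ne_zero s.Qz s.Q0z)))
  have hdQ : X ^ E ∣ X * derivative Q := ⟨Y, hY⟩
  have hd2 : X ^ E ∣ X * derivative Q0 := by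
    have h3 : X ^ E ∣ (X * derivative Q0) * Q := by
      have e : (X * derivative Q0) * Q = X * derivative (Q * Q0) - (X * derivative Q) * Q0 := by
        rw [derivative_mul]; ring
      rw [e]
      exact dvd_sub hd1 (Dvd.dvd.mul_right hdQ _)
    exact (hcopX Q s.Qz).dvd_of_dvd_mul_right h3
  have hd3 : X ^ E ∣ X * derivative G := by
    have h3 : X ^ E ∣ (X * derivative G) * Q0 := by
      have e : (X * derivative G) * Q0 = X * derivative Q - G * (X * derivative Q0) := by
        conv_rhs => rw [s.hQ]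
        rw [derivative_mul]; ring
      rw [e]
      exact dvd_sub hdQ (Dvd.dvd.mul_left hd2 _)
    exact (hcopX Q0 s.Q0z).dvd_of_dvd_mul_right h3
  have hG0 : derivative G = 0 := by
    by_contra h
    have h3 := natDegree_le_of_dvd hd3 (mul_ne_zero X_ne_zero h)
    rw [natDegree_X_pow] at h3
    have h4 := natDegree_X_mul_deriv_le G
    omega
  obtain ⟨g, hg⟩ : ∃ g : ℂ, G = C g := by
    have := derivative_eq_zero.1 hG0
    rw [natDegree_eq_zero] at this
    obtain ⟨g, hg⟩ := this
    exact ⟨g, hg.symm⟩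
  have hQg : Q = C g * Q0 := by rw [← hg]; exact s.hQ
  have hQg' : derivative Q = C g * derivative Q0 := by
    conv_lhs => rw [hQg]
    rw [derivative_C_mul]
  have hH : X * derivative (Q * Q0) = X ^ E * (2 * Q0 * Y) := by
    rw [derivative_mul]
    linear_combination 2 * Q0 * hY + X * derivative Q0 * hQg - X * Q0 * hQg'
  rw [hH] at hmain
  have hmain2 : S1 * D lam P Q0 L = 2 * Q0 * Y * (AA * BB) := by
    refine mul_left_cancel₀ hXEne ?_
    linear_combination hmain
  have h3 := congrArg (eval 0) hmain2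
  rw [eval_mul, eval_mul, eval_mul, eval_mul, eval_mul, hS10, hAA0, hBB0, hV10, D, eval_sub,
    V_zero, eval_mul, h0, eval_ofNat] at h3
  have hq : Q.eval 0 ^ 2 * Q0.eval 0 ^ 3 * a ≠ 0 :=
    mul_ne_zero (mul_ne_zero (pow_ne_zero _ s.Qz) (pow_ne_zero _ s.Q0z)) s.a0
  have h4 : (Q.eval 0 ^ 2 * Q0.eval 0 ^ 3 * a) * (lam * E ^ 2 * A1.eval 0 - 2 * b * Y.eval 0) =
      0 := by linear_combination h3
  have h5 := (mul_eq_zero.mp h4).resolve_left hq
  have h6 : (lam * (a - b) * A1.eval 0) * ((E : ℂ) ^ 2 + 2 * d * (d - E)) = 0 := by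
    linear_combination (a - b) * h5 + 2 * b * hY0 + 2 * (d - E) * A1.eval 0 * hd
  have h7 := (mul_eq_zero.mp h6).resolve_left
    (mul_ne_zero (mul_ne_zero s.lam0 hab) hA1z)
  rw [← hdd] at h7
  have h8 : ((E : ℤ)) ^ 2 + 2 * (P.natDegree : ℤ) * ((P.natDegree : ℤ) - E) = 0 := by
    exact_mod_cast h7
  have h9 : (0 : ℤ) < E := by exact_mod_cast hEpos
  nlinarith [sq_nonneg ((P.natDegree : ℤ) - E), sq_nonneg (P.natDegree : ℤ)]

end Setup

end H30.Share
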