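import Pool.Agent.H30.ShareMain

set_option autoImplicit false

open Polynomial

namespace H30.Share

variable {lam a b : ℂ} {P Q : ℂ[X]}

/-- The theorem when `Q(0) ≠ 0`. -/
lemma main_of_ne_zero (hlam : lam ≠ 0) (ha0 : a ≠ 0) (hb0 : b ≠ 0) (hab : a ≠ b)
    (hcop : IsCoprime P Q) (hnc : ∀ c : ℂ, P ≠ C c * Q) (hQz : Q.eval 0 ≠ 0)
    (sa : ShareAt lam P Q a) (sb : ShareAt lam P Q b) :
    P * Q - C lam * X * (derivative P * Q - P * derivative Q) = 0 := by
  by_contra hne
  have hQ : Q ≠ 0 := by rintro rfl; simp at hQz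
  obtain ⟨G, Q0, L, h1, h2, h3, h4⟩ := exists_rad Q hQ
  have s : Setup lam a b P Q G Q0 L := ⟨hlam, ha0, hb0, hab, hcop, hnc, h1, h2, h3, h4, hQz, sa, sb⟩
  have s' : Setup lam b a P Q G Q0 L :=
    ⟨hlam, hb0, ha0, hab.symm, hcop, hnc, h1, h2, h3, h4, hQz, sb, sa⟩
  by_cases hdeg : P.natDegree ≤ Q.natDegree
  · exact s.not_finite hdeg
  rw [not_le] at hdeg
  have hD : D lam P Q0 L ≠ 0 := by
    intro h
    apply hne
    have e : P * Q - C lam * X * (derivative P * Q - P * derivative Q) = G * D lam P Q0 L := by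
      rw [D, V, h2]
      linear_combination (P - C lam * X * derivative P) * h1
    rw [e, h, mul_zero]
  by_cases h0a : P.eval 0 = a * Q.eval 0
  · exact s.contra hdeg hD h0a
  by_cases h0b : P.eval 0 = b * Q.eval 0
  · exact s'.contra hdeg hD h0b
  exact hne (phi_lemma ha0 hb0 hab hcop sa sb hdeg h0a h0b)

lemma eval_reflect {n : ℕ} {p : ℂ[X]} (hp : p.natDegree ≤ n) {w : ℂ} (hw : w ≠ 0) :
    (reflect n p).eval w = w ^ n * p.eval w⁻¹ := by
  let _ : Invertible (w⁻¹) := invertibleOfNonzero (inv_ne_zero hw)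
  have h := eval₂_reflect_mul_pow (RingHom.id ℂ) (w⁻¹) n p hp
  rw [invOf_eq_inv, inv_inv] at h
  change (reflect n p).eval w * w⁻¹ ^ n = p.eval w⁻¹ at h
  rw [← h, inv_pow]
  field_simp

lemma X_mul_deriv_reflect {n : ℕ} {p : ℂ[X]} (hp : p.natDegree ≤ n) :
    X * derivative (reflect n p) = C (n : ℂ) * reflect n p - reflect n (X * derivative p) := by
  ext k
  rw [coeff_X_mul_deriv, coeff_sub, coeff_C_mul, coeff_reflect, coeff_reflect, coeff_X_mul_deriv]
  by_cases hk : k ≤ n
  · rw [revAt_le hk, Nat.cast_sub hk]; ring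
  · rw [revAt_eq_self_of_lt (not_le.1 hk), coeff_eq_zero_of_natDegree_lt (by omega)]; ring

lemma eval_deriv_reflect {n : ℕ} {p : ℂ[X]} (hp : p.natDegree ≤ n) {w : ℂ} (hw : w ≠ 0) :
    w * (derivative (reflect n p)).eval w =
      w ^ n * (n * p.eval w⁻¹ - w⁻¹ * (derivative p).eval w⁻¹) := by
  have h := congrArg (eval w) (X_mul_deriv_reflect hp)
  rw [eval_mul, eval_X, eval_sub, eval_mul, eval_C, eval_reflect hp hw,
    eval_reflect ((natDegree_X_mul_deriv_le p).trans hp) hw, eval_mul, eval_X] at h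
  rw [h]; ring

lemma share_reflect {n : ℕ} (hP : P.natDegree ≤ n) (hQ : Q.natDegree ≤ n) {c : ℂ}
    (h : ShareAt lam P Q c) : ShareAt (-lam) (reflect n P) (reflect n Q) c := by
  intro w hw hQw
  rw [eval_reflect hQ hw] at hQw
  have hwn : w ^ n ≠ 0 := pow_ne_zero _ hw
  have h1 := h w⁻¹ (inv_ne_zero hw) (right_ne_zero_of_mul hQw)
  have e1 : (reflect n P).eval w = c * (reflect n Q).eval w ↔ P.eval w⁻¹ = c * Q.eval w⁻¹ := by
    rw [eval_reflect hP hw, eval_reflect hQ hw]
    constructor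
    · intro h2
      exact mul_left_cancel₀ hwn (by linear_combination h2)
    · intro h2
      rw [h2]; ring
  have e2 : -lam * w * ((derivative (reflect n P)).eval w * (reflect n Q).eval w -
      (reflect n P).eval w * (derivative (reflect n Q)).eval w) =
      w ^ n * w ^ n * (lam * w⁻¹ * ((derivative P).eval w⁻¹ * Q.eval w⁻¹ -
        P.eval w⁻¹ * (derivative Q).eval w⁻¹)) := by
    have h3 := eval_deriv_reflect hP hw
    have h4 := eval_deriv_reflect hQ hw
    rw [eval_reflect hP hw, eval_reflect hQ hw]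
    linear_combination (-lam * w ^ n * Q.eval w⁻¹) * h3 + (lam * w ^ n * P.eval w⁻¹) * h4
  rw [e1, e2, h1, eval_reflect hQ hw]
  constructor
  · intro h2
    rw [h2]; ring
  · intro h2
    exact mul_left_cancel₀ (mul_ne_zero hwn hwn) (by linear_combination h2)

/-- The polynomial form of the theorem. -/
theorem poly_main (hlam : lam ≠ 0) (ha0 : a ≠ 0) (hb0 : b ≠ 0) (hab : a ≠ b)
    (hcop : IsCoprime P Q) (hQ : Q ≠ 0) (hnc : ∀ c : ℂ, P ≠ C c * Q)
    (sa : ShareAt lam P Q a) (sb : ShareAt lam P Q b) :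
    P * Q - C lam * X * (derivative P * Q - P * derivative Q) = 0 := by
  by_cases hQz : Q.eval 0 = 0
  swap
  · exact main_of_ne_zero hlam ha0 hb0 hab hcop hnc hQz sa sb
  have hPz : P.eval 0 ≠ 0 := fun h => no_common hcop h hQz
  by_cases hdeg : Q.natDegree < P.natDegree
  · refine phi_lemma ha0 hb0 hab hcop sa sb hdeg ?_ ?_
    · rw [hQz, mul_zero]; exact hPz
    · rw [hQz, mul_zero]; exact hPz
  rw [not_lt] at hdeg
  set n := Q.natDegree with hn
  have hQn : Q.natDegree ≤ n := le_rfl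
  have key := main_of_ne_zero (P := reflect n P) (Q := reflect n Q) (lam := -lam) (a := a) (b := b)
    (neg_ne_zero.2 hlam) ha0 hb0 hab ?_ ?_ ?_ (share_reflect hdeg hQn sa)
    (share_reflect hdeg hQn sb)
  · refine eq_zero_of_infinite_isRoot _ ?_
    refine Set.Infinite.mono (s := {w : ℂ | w ≠ 0}) ?_ ?_
    · intro w hw
      have hw' : (w⁻¹ : ℂ) ≠ 0 := inv_ne_zero hw
      have h1 := congrArg (eval w⁻¹) key
      rw [eval_zero] at h1
      have h3 := eval_deriv_reflect hdeg hw'
      have h4 := eval_deriv_reflect hQn hw'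
      simp only [eval_sub, eval_mul, eval_C, eval_X, eval_reflect hdeg hw',
        eval_reflect hQn hw', inv_inv] at h1 h3 h4
      have h5 : (w⁻¹ ^ n * w⁻¹ ^ n) * (P.eval w * Q.eval w - lam * w * ((derivative P).eval w *
          Q.eval w - P.eval w * (derivative Q).eval w)) = 0 := by
        linear_combination h1 - (lam * (w⁻¹ ^ n * Q.eval w)) * h3 +
          (lam * (w⁻¹ ^ n * P.eval w)) * h4
      have h6 := (mul_eq_zero.mp h5).resolve_left
        (mul_ne_zero (pow_ne_zero _ hw') (pow_ne_zero _ hw'))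
      change eval w _ = 0
      simp only [eval_sub, eval_mul, eval_C, eval_X]
      exact h6
    · exact Set.Finite.infinite_compl (Set.finite_singleton (0 : ℂ))
  · refine coprime_of_no_root fun w h1 h2 => ?_
    by_cases hw : w = 0
    · subst hw
      rw [← coeff_zero_eq_eval_zero, coeff_reflect, revAt_le (Nat.zero_le _), Nat.sub_zero] at h2
      exact hQ (leadingCoeff_eq_zero.1 h2)
    · rw [eval_reflect hdeg hw] at h1
      rw [eval_reflect hQn hw] at h2
      exact no_common hcop ((mul_eq_zero.mp h1).resolve_left (pow_ne_zero _ hw))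
        ((mul_eq_zero.mp h2).resolve_left (pow_ne_zero _ hw))
  · intro c hc
    apply hnc c
    have h1 : reflect n (P - C c * Q) = 0 := by
      rw [reflect_sub, reflect_C_mul, hc, sub_self]
    exact sub_eq_zero.mp (reflect_eq_zero_iff.1 h1)
  · rw [← coeff_zero_eq_eval_zero, coeff_reflect, revAt_le (Nat.zero_le _), Nat.sub_zero]
    exact leadingCoeff_ne_zero.2 hQ

end H30.Share
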