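import Mathlib
import Pool.Agent.Lib.Tsirelson

/-!
# The norming set `W` of Tsirelson space and its basic properties
-/

set_option autoImplicit false

namespace Pool.Agent.H30.Tsirelson

open Pool.Agent.Lib.Tsirelson

/-- `supp f < supp g` -/
def Succ (f g : ℕ+ →₀ ℝ) : Prop := ∀ a ∈ f.support, ∀ b ∈ g.support, a < b

/-- the norming set of Tsirelson space -/
inductive W : (ℕ+ →₀ ℝ) → Prop
  | single (k : ℕ+) (c : ℝ) (hc : |c| ≤ 1) : W (Finsupp.single k c)
  | node (L : List (ℕ+ →₀ ℝ)) (hW : ∀ f ∈ L, W f)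
      (hlen : ∀ f ∈ L, ∀ k ∈ f.support, L.length ≤ (k : ℕ))
      (hs : L.Pairwise Succ) : W ((1 / 2 : ℝ) • L.sum)

/-- the pairing of a functional with a sequence -/
noncomputable def pair (f : ℕ+ →₀ ℝ) (x : ℕ+ → ℝ) : ℝ := Finsupp.linearCombination ℝ x f

theorem pair_def (f : ℕ+ →₀ ℝ) (x : ℕ+ → ℝ) : pair f x = f.sum fun k c => c * x k := by
  simp [pair, Finsupp.linearCombination_apply]

theorem pair_eq_sum (f : ℕ+ →₀ ℝ) (x : ℕ+ → ℝ) : pair f x = ∑ k ∈ f.support, f k * x k := by
  rw [pair_def, Finsupp.sum]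

theorem pair_eq_sum_of_subset (f : ℕ+ →₀ ℝ) (x : ℕ+ → ℝ) (F : Finset ℕ+) (h : f.support ⊆ F) :
    pair f x = ∑ k ∈ F, f k * x k := by
  rw [pair_eq_sum]
  refine Finset.sum_subset h fun k _ hk => ?_
  rw [Finsupp.notMem_support_iff.1 hk, zero_mul]

@[simp] theorem pair_zero (x : ℕ+ → ℝ) : pair 0 x = 0 := by simp [pair]

@[simp] theorem pair_zero_right (f : ℕ+ →₀ ℝ) : pair f 0 = 0 := by simp [pair_eq_sum]

@[simp] theorem pair_single (k : ℕ+) (c : ℝ) (x : ℕ+ → ℝ) :
    pair (Finsupp.single k c) x = c * x k := by simp [pair]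

theorem pair_add (f g : ℕ+ →₀ ℝ) (x : ℕ+ → ℝ) : pair (f + g) x = pair f x + pair g x := by
  simp [pair]

theorem pair_smul (c : ℝ) (f : ℕ+ →₀ ℝ) (x : ℕ+ → ℝ) : pair (c • f) x = c * pair f x := by
  simp [pair]

theorem pair_neg (f : ℕ+ →₀ ℝ) (x : ℕ+ → ℝ) : pair (-f) x = - pair f x := by
  simp [pair]

theorem pair_sum (L : List (ℕ+ →₀ ℝ)) (x : ℕ+ → ℝ) :
    pair L.sum x = (L.map fun f => pair f x).sum := by
  simp only [pair]
  rw [map_list_sum]

theorem pair_add_right (f : ℕ+ →₀ ℝ) (x y : ℕ+ → ℝ) :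
    pair f (fun k => x k + y k) = pair f x + pair f y := by
  simp [pair_eq_sum, mul_add, Finset.sum_add_distrib]

theorem pair_smul_right (f : ℕ+ →₀ ℝ) (c : ℝ) (x : ℕ+ → ℝ) :
    pair f (fun k => c * x k) = c * pair f x := by
  simp only [pair_eq_sum, Finset.mul_sum]
  exact Finset.sum_congr rfl fun k _ => by ring

theorem pair_lc (G : ℕ+ → ℕ+ →₀ ℝ) (f : ℕ+ →₀ ℝ) (x : ℕ+ → ℝ) :
    pair (Finsupp.linearCombination ℝ G f) x = pair f fun k => pair (G k) x :=
  Finsupp.linearCombination_linearCombination ℝ x G f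

theorem pair_congr (f : ℕ+ →₀ ℝ) {x y : ℕ+ → ℝ} (h : ∀ k ∈ f.support, x k = y k) :
    pair f x = pair f y := by
  rw [pair_eq_sum, pair_eq_sum]
  exact Finset.sum_congr rfl fun k hk => by rw [h k hk]

/-! ### lists of successive functionals -/

theorem sum_apply_eq_zero {L : List (ℕ+ →₀ ℝ)} {k : ℕ+} (h : ∀ g ∈ L, k ∉ g.support) :
    L.sum k = 0 := by
  induction L with
  | nil => simp
  | cons g L ih =>
    rw [List.sum_cons, Finsupp.add_apply, ih fun g hg => h g (List.mem_cons_of_mem _ hg),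
      Finsupp.notMem_support_iff.1 (h g List.mem_cons_self), add_zero]

theorem exists_mem_of_mem_support_sum {L : List (ℕ+ →₀ ℝ)} {k : ℕ+} (h : k ∈ L.sum.support) :
    ∃ g ∈ L, k ∈ g.support := by
  by_contra hcon
  push Not at hcon
  exact Finsupp.mem_support_iff.1 h (sum_apply_eq_zero hcon)

theorem sum_apply_of_mem {L : List (ℕ+ →₀ ℝ)} (hs : L.Pairwise Succ) {f : ℕ+ →₀ ℝ} (hf : f ∈ L)
    {k : ℕ+} (hk : k ∈ f.support) : L.sum k = f k := by
  induction L with
  | nil => simp at hf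
  | cons g L ih =>
    rw [List.pairwise_cons] at hs
    rw [List.sum_cons, Finsupp.add_apply]
    rcases List.mem_cons.1 hf with rfl | hf
    · rw [sum_apply_eq_zero, add_zero]
      intro g hg hkg
      exact lt_irrefl _ (hs.1 g hg k hk k hkg)
    · rw [ih hs.2 hf]
      have : g k = 0 := by
        by_contra hne
        exact lt_irrefl _ (hs.1 f hf k (Finsupp.mem_support_iff.2 hne) k hk)
      rw [this, zero_add]

theorem support_subset_sum {L : List (ℕ+ →₀ ℝ)} (hs : L.Pairwise Succ) {f : ℕ+ →₀ ℝ} (hf : f ∈ L) :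
    f.support ⊆ L.sum.support := by
  intro k hk
  rw [Finsupp.mem_support_iff, sum_apply_of_mem hs hf hk]
  exact Finsupp.mem_support_iff.1 hk

theorem support_half (f : ℕ+ →₀ ℝ) : ((1 / 2 : ℝ) • f).support = f.support := by
  ext k
  simp

theorem support_lc {G : ℕ+ → ℕ+ →₀ ℝ} {f : ℕ+ →₀ ℝ} {i : ℕ+}
    (h : i ∈ (Finsupp.linearCombination ℝ G f).support) : ∃ k ∈ f.support, i ∈ (G k).support := by
  by_contra hcon
  push Not at hcon
  apply Finsupp.mem_support_iff.1 h
  rw [Finsupp.linearCombination_apply, Finsupp.sum, Finsupp.finsetSum_apply]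
  refine Finset.sum_eq_zero fun k hk => ?_
  rw [Finsupp.smul_apply, Finsupp.notMem_support_iff.1 (hcon k hk), smul_zero]

theorem W_abs_le {f : ℕ+ →₀ ℝ} (hf : W f) : ∀ k, |f k| ≤ 1 := by
  induction hf with
  | single k c hc =>
    intro j
    rw [Finsupp.single_apply]
    split_ifs
    · exact hc
    · simp
  | node L hW hlen hs ih =>
    intro k
    rw [Finsupp.smul_apply, smul_eq_mul, abs_mul]
    have : |L.sum k| ≤ 1 := by
      by_cases h : ∃ g ∈ L, k ∈ g.support
      · obtain ⟨g, hg, hk⟩ := h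
        rw [sum_apply_of_mem hs hg hk]
        exact ih g hg k
      · push Not at h
        rw [sum_apply_eq_zero h]
        simp
    rw [abs_of_pos (by norm_num : (0:ℝ) < 1 / 2)]
    linarith

/-- the substitution lemma -/
theorem W.subst {G : ℕ+ → ℕ+ →₀ ℝ} (hG : ∀ (k : ℕ+) (c : ℝ), |c| ≤ 1 → W (c • G k))
    (hle : ∀ k, ∀ i ∈ (G k).support, k ≤ i) (hsucc : ∀ k l, k < l → Succ (G k) (G l))
    {f : ℕ+ →₀ ℝ} (hf : W f) : W (Finsupp.linearCombination ℝ G f) := by
  induction hf with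
  | single k c hc =>
    rw [Finsupp.linearCombination_single]
    exact hG k c hc
  | node L hW hlen hs ih =>
    rw [map_smul, map_list_sum]
    refine W.node _ ?_ ?_ ?_
    · intro g hg
      obtain ⟨f, hf, rfl⟩ := List.mem_map.1 hg
      exact ih f hf
    · intro g hg k hk
      obtain ⟨f, hf, rfl⟩ := List.mem_map.1 hg
      obtain ⟨j, hj, hkj⟩ := support_lc hk
      rw [List.length_map]
      exact (hlen f hf j hj).trans (hle j k hkj)
    · rw [List.pairwise_map]
      refine hs.imp ?_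
      intro f g hfg a ha b hb
      obtain ⟨j, hj, haj⟩ := support_lc ha
      obtain ⟨l, hl, hbl⟩ := support_lc hb
      exact hsucc j l (hfg j hj l hl) a haj b hbl

theorem succ_single_single {k l : ℕ+} (h : k < l) (c d : ℝ) :
    Succ (Finsupp.single k c) (Finsupp.single l d) := by
  intro a ha b hb
  have h1 := Finset.mem_singleton.1 (Finsupp.support_single_subset ha)
  have h2 := Finset.mem_singleton.1 (Finsupp.support_single_subset hb)
  rw [h1, h2]
  exact h

/-- pointwise multiplication by `c` -/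
theorem lc_single_apply (c : ℕ+ → ℝ) (f : ℕ+ →₀ ℝ) (k : ℕ+) :
    Finsupp.linearCombination ℝ (fun k => Finsupp.single k (c k)) f k = f k * c k := by
  rw [Finsupp.linearCombination_apply, Finsupp.sum, Finsupp.finsetSum_apply]
  by_cases hk : k ∈ f.support
  · rw [Finset.sum_eq_single k]
    · simp
    · intro j _ hj
      simp [hj]
    · intro h
      exact absurd hk h
  · rw [Finsupp.notMem_support_iff.1 hk, zero_mul]
    refine Finset.sum_eq_zero fun j hj => ?_
    have : j ≠ k := fun h => hk (h ▸ hj)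
    simp [this]

theorem W.mul {f : ℕ+ →₀ ℝ} (hf : W f) {c : ℕ+ → ℝ} (hc : ∀ k, |c k| ≤ 1) :
    W (Finsupp.linearCombination ℝ (fun k => Finsupp.single k (c k)) f) := by
  refine W.subst ?_ ?_ ?_ hf
  · intro k d hd
    rw [Finsupp.smul_single, smul_eq_mul]
    refine W.single _ _ ?_
    rw [abs_mul]
    exact mul_le_one₀ hd (abs_nonneg _) (hc k)
  · intro k i hi
    exact (Finset.mem_singleton.1 (Finsupp.support_single_subset hi)).ge
  · intro k l hkl
    exact succ_single_single hkl _ _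

theorem W.smul {f : ℕ+ →₀ ℝ} (hf : W f) {c : ℝ} (hc : |c| ≤ 1) : W (c • f) := by
  have := hf.mul (c := fun _ => c) fun _ => hc
  convert this using 1
  ext k
  rw [lc_single_apply, Finsupp.smul_apply, smul_eq_mul, mul_comm]

theorem W.neg {f : ℕ+ →₀ ℝ} (hf : W f) : W (-f) := by
  have := hf.smul (c := -1) (by simp)
  simpa using this

theorem W_zero : W 0 := by
  have := W.single 1 0 (by simp)
  simpa using this

theorem res_apply (E : Finset ℕ+) (x : ℕ+ →₀ ℝ) (k : ℕ+) :
    res E x k = if k ∈ E then x k else 0 := by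
  simp [res, Finsupp.filter_apply]

theorem res_support (E : Finset ℕ+) (x : ℕ+ →₀ ℝ) :
    (res E x).support = x.support.filter (· ∈ E) := by
  ext k
  simp [res_apply, and_comm]

theorem W.res {f : ℕ+ →₀ ℝ} (hf : W f) (E : Finset ℕ+) : W (res E f) := by
  have := hf.mul (c := fun k => if k ∈ E then 1 else 0) fun k => by split_ifs <;> simp
  convert this using 1
  ext k
  rw [lc_single_apply, res_apply]
  split_ifs <;> simp

/-- subst lemma, most general used form: the `G k` are themselves in `W` -/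
theorem W.subst' {G : ℕ+ → ℕ+ →₀ ℝ} (hG : ∀ k, W (G k))
    (hle : ∀ k, ∀ i ∈ (G k).support, k ≤ i) (hsucc : ∀ k l, k < l → Succ (G k) (G l))
    {f : ℕ+ →₀ ℝ} (hf : W f) : W (Finsupp.linearCombination ℝ G f) :=
  W.subst (fun k _ hc => (hG k).smul hc) hle hsucc hf

/-! ### The norm `N` -/

/-- Tsirelson's norm on `c₀₀` -/
noncomputable def N (x : ℕ+ →₀ ℝ) : ℝ := sSup {r | ∃ f, W f ∧ r = pair f x}

theorem pair_le_sum_abs {f : ℕ+ →₀ ℝ} (hf : W f) (x : ℕ+ →₀ ℝ) :
    pair f x ≤ ∑ k ∈ x.support, |x k| := by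
  classical
  rw [pair_eq_sum_of_subset f x (f.support ∪ x.support) Finset.subset_union_left]
  have h1 : ∑ k ∈ x.support, |x k| = ∑ k ∈ f.support ∪ x.support, |x k| := by
    refine Finset.sum_subset Finset.subset_union_right fun k _ hk => ?_
    rw [Finsupp.notMem_support_iff.1 hk, abs_zero]
  rw [h1]
  refine Finset.sum_le_sum fun k _ => ?_
  calc f k * x k ≤ |f k * x k| := le_abs_self _
    _ = |f k| * |x k| := abs_mul _ _
    _ ≤ 1 * |x k| := mul_le_mul_of_nonneg_right (W_abs_le hf k) (abs_nonneg _)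
    _ = |x k| := one_mul _

theorem bddAbove_N (x : ℕ+ →₀ ℝ) : BddAbove {r | ∃ f, W f ∧ r = pair f x} := by
  refine ⟨∑ k ∈ x.support, |x k|, ?_⟩
  rintro r ⟨f, hf, rfl⟩
  exact pair_le_sum_abs hf x

theorem pair_le_N {f : ℕ+ →₀ ℝ} (hf : W f) (x : ℕ+ →₀ ℝ) : pair f x ≤ N x :=
  le_csSup (bddAbove_N x) ⟨f, hf, rfl⟩

theorem N_le {x : ℕ+ →₀ ℝ} {c : ℝ} (h : ∀ f, W f → pair f x ≤ c) : N x ≤ c := by
  refine csSup_le ⟨_, 0, W_zero, rfl⟩ ?_
  rintro r ⟨f, hf, rfl⟩
  exact h f hf

theorem N_nonneg (x : ℕ+ →₀ ℝ) : 0 ≤ N x := by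
  have := pair_le_N W_zero x
  simpa using this

theorem abs_pair_le_N {f : ℕ+ →₀ ℝ} (hf : W f) (x : ℕ+ →₀ ℝ) : |pair f x| ≤ N x := by
  rw [abs_le]
  refine ⟨?_, pair_le_N hf x⟩
  have := pair_le_N hf.neg x
  rw [pair_neg] at this
  linarith

theorem N_le_sum_abs (x : ℕ+ →₀ ℝ) : N x ≤ ∑ k ∈ x.support, |x k| :=
  N_le fun _ hf => pair_le_sum_abs hf x

theorem abs_le_N (x : ℕ+ →₀ ℝ) (k : ℕ+) : |x k| ≤ N x := by
  have := abs_pair_le_N (W.single k 1 (by simp)) x
  simpa using this

@[simp] theorem N_zero : N 0 = 0 :=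
  le_antisymm (N_le fun f _ => by simp) (N_nonneg 0)

theorem N_add (x y : ℕ+ →₀ ℝ) : N (x + y) ≤ N x + N y := by
  refine N_le fun f hf => ?_
  have : pair f (x + y : ℕ+ →₀ ℝ) = pair f x + pair f y := by
    rw [← pair_add_right]
    rfl
  rw [this]
  exact add_le_add (pair_le_N hf x) (pair_le_N hf y)

theorem N_smul_le (c : ℝ) (x : ℕ+ →₀ ℝ) : N (c • x) ≤ |c| * N x := by
  refine N_le fun f hf => ?_
  have : pair f (c • x : ℕ+ →₀ ℝ) = c * pair f x := by
    rw [← pair_smul_right]
    rfl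
  rw [this]
  calc c * pair f x ≤ |c * pair f x| := le_abs_self _
    _ = |c| * |pair f x| := abs_mul _ _
    _ ≤ |c| * N x := mul_le_mul_of_nonneg_left (abs_pair_le_N hf x) (abs_nonneg _)

theorem N_smul (c : ℝ) (x : ℕ+ →₀ ℝ) : N (c • x) = |c| * N x := by
  refine le_antisymm (N_smul_le c x) ?_
  by_cases hc : c = 0
  · simp [hc]
  have h := N_smul_le c⁻¹ (c • x)
  rw [inv_smul_smul₀ hc, abs_inv] at h
  have hpos : 0 < |c| := abs_pos.2 hc
  calc |c| * N x ≤ |c| * (|c|⁻¹ * N (c • x)) := mul_le_mul_of_nonneg_left h hpos.le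
    _ = N (c • x) := by field_simp

/-- comparison of norms through a multiplier (1-unconditionality and more) -/
theorem N_mono {x y : ℕ+ →₀ ℝ} (h : ∀ k, |x k| ≤ |y k|) : N x ≤ N y := by
  refine N_le fun f hf => ?_
  have hc : ∀ k, |x k / y k| ≤ 1 := fun k => by
    rw [abs_div]
    exact div_le_one_of_le₀ (h k) (abs_nonneg _)
  have h1 := pair_le_N (hf.mul hc) y
  rw [pair_lc] at h1
  refine le_trans (le_of_eq ?_) h1
  refine pair_congr f fun k _ => ?_
  rw [pair_single]
  by_cases hy : y k = 0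
  · have : x k = 0 := by
      have := h k
      rw [hy, abs_zero] at this
      exact abs_nonpos_iff.1 this
    rw [this, hy]
    simp
  · field_simp

theorem N_congr_abs {x y : ℕ+ →₀ ℝ} (h : ∀ k, |x k| = |y k|) : N x = N y :=
  le_antisymm (N_mono fun k => (h k).le) (N_mono fun k => (h k).ge)

theorem N_res_le (E : Finset ℕ+) (x : ℕ+ →₀ ℝ) : N (res E x) ≤ N x := by
  refine N_mono fun k => ?_
  rw [res_apply]
  split_ifs
  · exact le_rfl
  · simp

theorem pair_res (E : Finset ℕ+) (f x : ℕ+ →₀ ℝ) : pair (res E f) x = pair f (res E x) := by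
  rw [pair_eq_sum_of_subset (res E f) x f.support, pair_eq_sum]
  · refine Finset.sum_congr rfl fun k _ => ?_
    rw [res_apply, res_apply]
    split_ifs <;> simp
  · rw [res_support]
    exact Finset.filter_subset _ _

theorem exists_functional (E : Finset ℕ+) (x : ℕ+ →₀ ℝ) {ε : ℝ} (hε : 0 < ε) :
    ∃ f, W f ∧ f.support ⊆ E ∧ N (res E x) ≤ pair f x + ε := by
  have hlt : N (res E x) - ε < N (res E x) := by linarith
  have hne : {r | ∃ f, W f ∧ r = pair f (res E x)}.Nonempty := ⟨_, 0, W_zero, rfl⟩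
  obtain ⟨r, ⟨f, hf, rfl⟩, hr⟩ := exists_lt_of_lt_csSup hne hlt
  refine ⟨res E f, hf.res E, ?_, ?_⟩
  · rw [res_support]
    intro k hk
    exact (Finset.mem_filter.1 hk).2
  · rw [pair_res]
    linarith

theorem sum_map_le_sum_map {α : Type*} (L : List α) (f g : α → ℝ) (h : ∀ a ∈ L, f a ≤ g a) :
    (L.map f).sum ≤ (L.map g).sum :=
  List.sum_le_sum h

/-- the node inequality -/
theorem node_le (L : List (Finset ℕ+)) (hlen : ∀ E ∈ L, ∀ k ∈ E, L.length ≤ (k : ℕ))
    (hs : L.Pairwise (fun E F => ∀ a ∈ E, ∀ b ∈ F, a < b)) (x : ℕ+ →₀ ℝ) :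
    (L.map fun E => N (res E x)).sum ≤ 2 * N x := by
  refine le_of_forall_pos_le_add fun ε hε => ?_
  have hε' : 0 < ε / (L.length + 1) := by positivity
  choose F hFW hFs hF using fun E => exists_functional E x hε'
  have hnode : W ((1 / 2 : ℝ) • (L.map F).sum) := by
    refine W.node _ ?_ ?_ ?_
    · intro g hg
      obtain ⟨E, _, rfl⟩ := List.mem_map.1 hg
      exact hFW E
    · intro g hg k hk
      obtain ⟨E, hE, rfl⟩ := List.mem_map.1 hg
      rw [List.length_map]
      exact hlen E hE k (hFs E hk)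
    · rw [List.pairwise_map]
      refine hs.imp ?_
      intro E E' h a ha b hb
      exact h a (hFs E ha) b (hFs E' hb)
  have h1 := pair_le_N hnode x
  rw [pair_smul, pair_sum, List.map_map] at h1
  have h2 : (L.map fun E => N (res E x)).sum ≤
      (L.map fun E => pair (F E) x + ε / (L.length + 1)).sum :=
    sum_map_le_sum_map L _ _ fun E _ => hF E
  have h3 : (L.map fun E => pair (F E) x + ε / (L.length + 1)).sum =
      (L.map ((fun f => pair f x) ∘ F)).sum + L.length * (ε / (L.length + 1)) := by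
    rw [List.sum_map_add]
    simp [Function.comp_def]
  have h4 : (L.length : ℝ) * (ε / (L.length + 1)) ≤ ε := by
    rw [mul_div_assoc', div_le_iff₀ (by positivity)]
    nlinarith
  rw [h3] at h2
  linarith

theorem res_res (E F : Finset ℕ+) (h : E ⊆ F) (x : ℕ+ →₀ ℝ) : res E (res F x) = res E x := by
  ext k
  rw [res_apply, res_apply, res_apply]
  by_cases hk : k ∈ E
  · simp [hk, h hk]
  · simp [hk]

/-- `Finset` version of the node inequality -/
theorem node_finset {ι : Type*} [LinearOrder ι] (I : Finset ι) (E : ι → Finset ℕ+)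
    (hmin : ∀ j ∈ I, ∀ k ∈ E j, I.card ≤ (k : ℕ))
    (hs : ∀ i ∈ I, ∀ j ∈ I, i < j → ∀ a ∈ E i, ∀ b ∈ E j, a < b) (x : ℕ+ →₀ ℝ) :
    ∑ j ∈ I, N (res (E j) x) ≤ 2 * N x := by
  classical
  have h1 := node_le ((I.sort (· ≤ ·)).map E) ?_ ?_ x
  · rw [List.map_map] at h1
    refine le_trans (le_of_eq ?_) h1
    rw [← List.sum_toFinset _ (Finset.sort_nodup _ _), Finset.sort_toFinset]
    rfl
  · intro F hF k hk
    obtain ⟨j, hj, rfl⟩ := List.mem_map.1 hF
    rw [List.length_map, Finset.length_sort]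
    exact hmin j ((Finset.mem_sort _).1 hj) k hk
  · rw [List.pairwise_map]
    have hp : (I.sort (· ≤ ·)).Pairwise (· < ·) := (Finset.sortedLT_sort I).pairwise
    refine hp.imp_of_mem ?_
    intro i j hi hj hij
    exact hs i ((Finset.mem_sort _).1 hi) j ((Finset.mem_sort _).1 hj) hij

/-! ### `N` satisfies Tsirelson's equation, and is the only such function -/

theorem isLUB_N (x : ℕ+ →₀ ℝ) : IsLUB (rhsSet N x) (N x) := by
  classical
  constructor
  · rintro s (⟨k, rfl⟩ | ⟨L, hL, rfl⟩)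
    · exact abs_le_N x k
    · have := node_le L hL.2.1 hL.2.2 x
      linarith
  · intro c hc
    refine N_le fun f hf => ?_
    cases hf with
    | single k d hd =>
      rw [pair_single]
      calc d * x k ≤ |d * x k| := le_abs_self _
        _ = |d| * |x k| := abs_mul _ _
        _ ≤ 1 * |x k| := mul_le_mul_of_nonneg_right hd (abs_nonneg _)
        _ = |x k| := one_mul _
        _ ≤ c := hc (Or.inl ⟨k, rfl⟩)
    | node L hW hlen hs =>
      rw [pair_smul, pair_sum]
      -- filter the zero functionals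
      set L' := (L.filter (fun f => f ≠ 0)) with hL'
      have hsum : (L.map fun f => pair f x).sum = (L'.map fun f => pair f x).sum := by
        rw [hL']
        clear hW hlen hs hL' L'
        induction L with
        | nil => simp
        | cons g L ih =>
          by_cases hg : g = 0
          · simp [hg, ih]
          · simp [hg, ih]
      have hadm : Admissible (L'.map fun f => f.support) := by
        refine ⟨?_, ?_, ?_⟩
        · intro E hE
          obtain ⟨f, hf, rfl⟩ := List.mem_map.1 hE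
          have := (List.mem_filter.1 hf).2
          simpa using this
        · intro E hE k hk
          obtain ⟨f, hf, rfl⟩ := List.mem_map.1 hE
          rw [List.length_map]
          exact (List.length_filter_le _ _).trans (hlen f (List.mem_filter.1 hf).1 k hk)
        · rw [List.pairwise_map]
          exact List.Pairwise.filter _ hs
      have h1 := hc (Or.inr ⟨_, hadm, rfl⟩)
      rw [hsum]
      refine le_trans ?_ h1
      rw [List.map_map]
      refine mul_le_mul_of_nonneg_left ?_ (by norm_num)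
      refine sum_map_le_sum_map _ _ _ fun f hf => ?_
      have hfW : W f := hW f (List.mem_filter.1 hf).1
      have : pair f x = pair f (res f.support x) := by
        refine pair_congr f fun k hk => ?_
        rw [res_apply, if_pos hk]
      rw [this]
      exact pair_le_N hfW _

theorem res_eq_self {E : Finset ℕ+} {x : ℕ+ →₀ ℝ} (h : x.support ⊆ E) : res E x = x := by
  ext k
  rw [res_apply]
  split_ifs with hk
  · rfl
  · rw [Finsupp.notMem_support_iff.1 fun hk' => hk (h hk')]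

theorem res_eq_zero {E : Finset ℕ+} {x : ℕ+ →₀ ℝ} (h : ∀ k ∈ E, k ∉ x.support) :
    res E x = 0 := by
  ext k
  rw [res_apply]
  split_ifs with hk
  · rw [Finsupp.notMem_support_iff.1 (h k hk), Finsupp.zero_apply]
  · rfl

/-- one half of the uniqueness argument -/
theorem unique_aux {ν μ : (ℕ+ →₀ ℝ) → ℝ} (hν0 : ν 0 = 0)
    (hν : ∀ x, IsLUB (rhsSet ν x) (ν x)) (hμ : ∀ x, IsLUB (rhsSet μ x) (μ x))
    (x : ℕ+ →₀ ℝ) (hind : ∀ y : ℕ+ →₀ ℝ, y.support.card < x.support.card → ν y = μ y) :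
    ν x ≤ μ x := by
  classical
  have hμ0 : 0 ≤ μ x := (abs_nonneg _).trans ((hμ x).1 (Or.inl ⟨1, rfl⟩))
  have hν0' : 0 ≤ ν x := (abs_nonneg _).trans ((hν x).1 (Or.inl ⟨1, rfl⟩))
  suffices h : ν x ≤ max (μ x) (1 / 2 * ν x) by
    rcases le_max_iff.1 h with h | h
    · exact h
    · linarith
  refine (hν x).2 ?_
  rintro s (⟨k, rfl⟩ | ⟨L, hL, rfl⟩)
  · exact le_max_of_le_left ((hμ x).1 (Or.inl ⟨k, rfl⟩))
  by_cases hbig : ∃ E ∈ L, x.support ⊆ E
  · obtain ⟨E, hE, hxE⟩ := hbig
    refine le_max_of_le_right (le_of_eq ?_)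
    congr 1
    by_cases hx : x = 0
    · subst hx
      have : ∀ E, res E (0 : ℕ+ →₀ ℝ) = 0 := fun E => res_eq_zero (by simp)
      simp [this, hν0]
    obtain ⟨i, hi⟩ := Finsupp.support_nonempty_iff.2 hx
    obtain ⟨L1, L2, rfl⟩ := List.append_of_mem hE
    have hp := hL.2.2
    rw [List.pairwise_append] at hp
    obtain ⟨-, hp2, hp3⟩ := hp
    rw [List.pairwise_cons] at hp2
    have hz1 : (L1.map fun E => ν (res E x)).sum = 0 := by
      refine List.sum_eq_zero ?_
      intro r hr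
      obtain ⟨F, hF, rfl⟩ := List.mem_map.1 hr
      rw [res_eq_zero, hν0]
      intro k hk hkx
      exact lt_irrefl _ (hp3 F hF E List.mem_cons_self k hk k (hxE hkx))
    have hz2 : (L2.map fun E => ν (res E x)).sum = 0 := by
      refine List.sum_eq_zero ?_
      intro r hr
      obtain ⟨F, hF, rfl⟩ := List.mem_map.1 hr
      rw [res_eq_zero, hν0]
      intro k hk hkx
      exact lt_irrefl _ (hp2.1 F hF k (hxE hkx) k hk)
    rw [List.map_append, List.sum_append, List.map_cons, List.sum_cons, hz1, hz2,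
      res_eq_self hxE]
    ring
  · push Not at hbig
    refine le_max_of_le_left ?_
    have : (L.map fun E => ν (res E x)) = (L.map fun E => μ (res E x)) := by
      refine List.map_congr_left fun E hE => hind _ ?_
      refine Finset.card_lt_card ?_
      rw [res_support]
      refine Finset.filter_ssubset.2 ?_
      obtain ⟨k, hk, hkE⟩ := Finset.not_subset.1 (hbig E hE)
      exact ⟨k, hk, hkE⟩
    rw [this]
    exact (hμ x).1 (Or.inr ⟨L, hL, rfl⟩)

theorem unique {ν μ : (ℕ+ →₀ ℝ) → ℝ} (hν0 : ν 0 = 0) (hμ0 : μ 0 = 0)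
    (hν : ∀ x, IsLUB (rhsSet ν x) (ν x)) (hμ : ∀ x, IsLUB (rhsSet μ x) (μ x))
    (x : ℕ+ →₀ ℝ) : ν x = μ x := by
  induction h : x.support.card using Nat.strong_induction_on generalizing x with
  | _ n ih =>
    have hind : ∀ y : ℕ+ →₀ ℝ, y.support.card < x.support.card → ν y = μ y :=
      fun y hy => ih _ (h ▸ hy) y rfl
    exact le_antisymm (unique_aux hν0 hν hμ x hind)
      (unique_aux hμ0 hμ hν x fun y hy => (hind y hy).symm)

theorem norm_vec_eq_N {X : Type*} [NormedAddCommGroup X] [NormedSpace ℝ X] {e : ℕ+ → X}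
    (he : IsTsirelsonBasis e) (x : ℕ+ →₀ ℝ) : ‖vec e x‖ = N x :=
  unique (ν := fun y => ‖vec e y‖) (μ := N) (by simp [vec]) N_zero he.2 isLUB_N x

end Pool.Agent.H30.Tsirelson
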