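import Mathlib
import Pool.Agent.H30.TsirelsonNorm

/-!
# Estimates in Tsirelson space: blocks, dyadic intervals, shifts, spreading
-/

set_option autoImplicit false

namespace Pool.Agent.H30.Tsirelson

open Pool.Agent.Lib.Tsirelson

/-- lower bounds by blocks -/
theorem pair_le_of_blocks {E : ℕ+ → Finset ℕ+} (hE : ∀ k, ∀ i ∈ E k, k ≤ i)
    (hsucc : ∀ k l, k < l → ∀ a ∈ E k, ∀ b ∈ E l, a < b) {C : ℝ} (hC : 0 ≤ C)
    {f : ℕ+ →₀ ℝ} (hf : W f) :
    ∀ (x : ℕ+ →₀ ℝ) (z : ℕ+ → ℝ), (∀ k, |z k| ≤ C * N (res (E k) x)) → pair f z ≤ C * N x := by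
  classical
  induction hf with
  | single k c hc =>
    intro x z hz
    rw [pair_single]
    calc c * z k ≤ |c * z k| := le_abs_self _
      _ = |c| * |z k| := abs_mul _ _
      _ ≤ 1 * |z k| := mul_le_mul_of_nonneg_right hc (abs_nonneg _)
      _ = |z k| := one_mul _
      _ ≤ C * N (res (E k) x) := hz k
      _ ≤ C * N x := mul_le_mul_of_nonneg_left (N_res_le _ _) hC
  | node L hW hlen hs ih =>
    intro x z hz
    rw [pair_smul, pair_sum]
    have h1 : (L.map fun f => pair f z).sum ≤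
        (L.map fun f => C * N (res (f.support.biUnion E) x)).sum := by
      refine sum_map_le_sum_map _ _ _ fun f hf => ?_
      have h2 : pair f z = pair f (fun k => if k ∈ f.support then z k else 0) := by
        refine pair_congr f fun k hk => ?_
        rw [if_pos hk]
      rw [h2]
      refine ih f hf _ _ fun k => ?_
      split_ifs with hk
      · rw [res_res _ _ (Finset.subset_biUnion_of_mem E hk)]
        exact hz k
      · rw [abs_zero]
        exact mul_nonneg hC (N_nonneg _)
    have h3 := node_le (L.map fun f => f.support.biUnion E) ?_ ?_ x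
    · rw [List.sum_map_mul_left] at h1
      rw [List.map_map] at h3
      have h4 : C * (L.map fun f => N (res (f.support.biUnion E) x)).sum ≤ C * (2 * N x) :=
        mul_le_mul_of_nonneg_left h3 hC
      linarith
    · intro F hF i hi
      obtain ⟨f, hf, rfl⟩ := List.mem_map.1 hF
      obtain ⟨k, hk, hki⟩ := Finset.mem_biUnion.1 hi
      rw [List.length_map]
      exact (hlen f hf k hk).trans (hE k i hki)
    · rw [List.pairwise_map]
      refine hs.imp ?_
      intro f g hfg a ha b hb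
      obtain ⟨k, hk, hka⟩ := Finset.mem_biUnion.1 ha
      obtain ⟨l, hl, hlb⟩ := Finset.mem_biUnion.1 hb
      exact hsucc k l (hfg k hk l hl) a hka b hlb

theorem N_le_of_blocks {E : ℕ+ → Finset ℕ+} (hE : ∀ k, ∀ i ∈ E k, k ≤ i)
    (hsucc : ∀ k l, k < l → ∀ a ∈ E k, ∀ b ∈ E l, a < b) {C : ℝ} (hC : 0 ≤ C)
    {x z : ℕ+ →₀ ℝ} (hz : ∀ k, |z k| ≤ C * N (res (E k) x)) : N z ≤ C * N x :=
  N_le fun _ hf => pair_le_of_blocks hE hsucc hC hf x z hz

/-- the `ℓ₁` functional on a set `A` with `|A| ≤ min A` -/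
theorem W_half_sum {A : Finset ℕ+} (hA : ∀ k ∈ A, A.card ≤ (k : ℕ)) (c : ℕ+ → ℝ)
    (hc : ∀ k, |c k| ≤ 1) : W ((1 / 2 : ℝ) • ∑ k ∈ A, Finsupp.single k (c k)) := by
  classical
  have h := W.node ((A.sort (· ≤ ·)).map fun k => Finsupp.single k (c k)) ?_ ?_ ?_
  · convert h using 2
    rw [← List.sum_toFinset _ (Finset.sort_nodup _ _), Finset.sort_toFinset]
  · intro f hf
    obtain ⟨k, _, rfl⟩ := List.mem_map.1 hf
    exact W.single _ _ (hc k)
  · intro f hf k hk
    obtain ⟨j, hj, rfl⟩ := List.mem_map.1 hf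
    rw [List.length_map, Finset.length_sort,
      Finset.mem_singleton.1 (Finsupp.support_single_subset hk)]
    exact hA j ((Finset.mem_sort _).1 hj)
  · rw [List.pairwise_map]
    have hp : (A.sort (· ≤ ·)).Pairwise (· < ·) := (Finset.sortedLT_sort A).pairwise
    exact hp.imp fun h => succ_single_single h _ _

theorem pair_half_sum (A : Finset ℕ+) (c : ℕ+ → ℝ) (x : ℕ+ → ℝ) :
    pair ((1 / 2 : ℝ) • ∑ k ∈ A, Finsupp.single k (c k)) x = 1 / 2 * ∑ k ∈ A, c k * x k := by
  rw [pair_smul]
  congr 1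
  simp only [pair]
  rw [map_sum]
  refine Finset.sum_congr rfl fun k _ => ?_
  rw [Finsupp.linearCombination_single, smul_eq_mul]

theorem sum_abs_le {A : Finset ℕ+} (hA : ∀ k ∈ A, A.card ≤ (k : ℕ)) (x : ℕ+ →₀ ℝ) :
    ∑ k ∈ A, |x k| ≤ 2 * N (res A x) := by
  have h := pair_le_N (W_half_sum hA (fun k => SignType.sign (x k)) fun k => ?_) (res A x)
  · rw [pair_half_sum] at h
    have h2 : ∑ k ∈ A, (SignType.sign (x k) : ℝ) * (res A x) k = ∑ k ∈ A, |x k| := by
      refine Finset.sum_congr rfl fun k hk => ?_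
      rw [res_apply, if_pos hk, sign_mul_self]
    rw [h2] at h
    linarith
  · rcases lt_trichotomy (x k) 0 with h | h | h <;> simp [h]

/-- the interval `[t, t 2^t)` : the `ℓ₁` norm is at most 4 times the norm -/
theorem sum_abs_le_long (t : ℕ) (A : Finset ℕ+)
    (hA : ∀ k ∈ A, t ≤ (k : ℕ) ∧ (k : ℕ) < t * 2 ^ t) (x : ℕ+ →₀ ℝ) :
    ∑ k ∈ A, |x k| ≤ 4 * N (res A x) := by
  classical
  rcases Nat.eq_zero_or_pos t with rfl | ht
  · have : A = ∅ := by
      refine Finset.eq_empty_of_forall_notMem fun k hk => ?_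
      have := (hA k hk).2
      simp at this
    subst this
    simp [N_nonneg]
  -- dyadic pieces
  set D : ℕ → Finset ℕ+ := fun j => A.filter fun k => t * 2 ^ j ≤ (k : ℕ) ∧ (k : ℕ) < t * 2 ^ (j + 1)
    with hD
  have hcard : ∀ j, ∀ k ∈ D j, (D j).card ≤ (k : ℕ) := by
    intro j k hk
    have h1 : (D j).card ≤ t * 2 ^ j := by
      have h2 : (D j).map ⟨fun k : ℕ+ => (k : ℕ), PNat.coe_injective⟩ ⊆
          Finset.Ico (t * 2 ^ j) (t * 2 ^ (j + 1)) := by
        intro i hi
        obtain ⟨k', hk', rfl⟩ := Finset.mem_map.1 hi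
        exact Finset.mem_Ico.2 (Finset.mem_filter.1 hk').2
      have h3 := Finset.card_le_card h2
      rw [Finset.card_map, Nat.card_Ico] at h3
      refine h3.trans (le_of_eq ?_)
      rw [pow_succ]
      have : t * (2 ^ j * 2) = t * 2 ^ j + t * 2 ^ j := by ring
      omega
    exact h1.trans (Finset.mem_filter.1 hk).2.1
  have hAD : A = (Finset.range t).biUnion D := by
    ext k
    simp only [Finset.mem_biUnion, Finset.mem_range, hD, Finset.mem_filter]
    constructor
    · intro hk
      obtain ⟨h1, h2⟩ := hA k hk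
      -- the largest j with t 2^j ≤ k
      have hex : ∃ j, (k : ℕ) < t * 2 ^ (j + 1) := ⟨t, by
        calc (k : ℕ) < t * 2 ^ t := h2
          _ ≤ t * 2 ^ (t + 1) := Nat.mul_le_mul_left _ (Nat.pow_le_pow_right (by norm_num) (by omega))⟩
      refine ⟨Nat.find hex, ?_, hk, ?_, Nat.find_spec hex⟩
      · have : Nat.find hex ≤ t - 1 := by
          refine Nat.find_min' hex ?_
          rw [Nat.sub_add_cancel ht]
          exact h2
        omega
      · rcases Nat.eq_zero_or_pos (Nat.find hex) with h0 | h0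
        · rw [h0]
          simpa using h1
        · have := Nat.find_min hex (m := Nat.find hex - 1) (by omega)
          rw [Nat.sub_add_cancel h0] at this
          omega
    · rintro ⟨j, _, hk, _⟩
      exact hk
  have hlt : ∀ i j, i < j → ∀ a ∈ D i, ∀ b ∈ D j, a < b := by
    intro i j hij a ha b hb
    have h1 := (Finset.mem_filter.1 ha).2.2
    have h2 := (Finset.mem_filter.1 hb).2.1
    have h3 : t * 2 ^ (i + 1) ≤ t * 2 ^ j :=
      Nat.mul_le_mul_left _ (Nat.pow_le_pow_right (by norm_num) hij)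
    rw [← PNat.coe_lt_coe]
    omega
  have h1 : ∑ k ∈ A, |x k| = ∑ j ∈ Finset.range t, ∑ k ∈ D j, |x k| := by
    conv_lhs => rw [hAD]
    refine Finset.sum_biUnion ?_
    intro i _ j _ hij
    refine Finset.disjoint_left.2 fun k hki hkj => ?_
    rcases lt_or_gt_of_ne hij with h | h
    · exact lt_irrefl _ (hlt i j h k hki k hkj)
    · exact lt_irrefl _ (hlt j i h k hkj k hki)
  have h2 := node_finset (Finset.range t) D ?_ (fun i _ j _ hij => hlt i j hij) (res A x)
  · rw [h1]
    calc ∑ j ∈ Finset.range t, ∑ k ∈ D j, |x k|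
        ≤ ∑ j ∈ Finset.range t, 2 * N (res (D j) x) :=
          Finset.sum_le_sum fun j _ => sum_abs_le (hcard j) x
      _ = 2 * ∑ j ∈ Finset.range t, N (res (D j) (res A x)) := by
          rw [Finset.mul_sum]
          refine Finset.sum_congr rfl fun j _ => ?_
          rw [res_res _ _ (Finset.filter_subset _ _)]
      _ ≤ 2 * (2 * N (res A x)) := by linarith
      _ = 4 * N (res A x) := by ring
  · intro j _ k hk
    rw [Finset.card_range]
    have h := (Finset.mem_filter.1 hk).2.1
    calc t = t * 1 := by ring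
      _ ≤ t * 2 ^ j := Nat.mul_le_mul_left _ (Nat.one_le_two_pow)
      _ ≤ k := h

/-- spreading selection: `∑_{l ∈ Λ} |f (i_l)| u_l ≤ N (∑_{l ∈ Λ} u_l e_{q_l})` for `i_l ≤ q_l` -/
theorem sum_select_le {f : ℕ+ →₀ ℝ} (hf : W f) (Λ : Finset ℕ) (i q : ℕ → ℕ+)
    (hi : ∀ l ∈ Λ, ∀ m ∈ Λ, l < m → i l < i m) (hq : StrictMono q)
    (hiq : ∀ l ∈ Λ, i l ≤ q l) (u : ℕ → ℝ) :
    ∑ l ∈ Λ, |f (i l)| * u l ≤ N (∑ l ∈ Λ, Finsupp.single (q l) (u l)) := by
  classical
  have hinj : ∀ l ∈ Λ, ∀ m ∈ Λ, i l = i m → l = m := by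
    intro l hl m hm h
    rcases lt_trichotomy l m with h' | h' | h'
    · exact absurd h (hi l hl m hm h').ne
    · exact h'
    · exact absurd h (hi m hm l hl h').ne'
  set G : ℕ+ → ℕ+ →₀ ℝ := fun k => ∑ l ∈ Λ, if i l = k then
    Finsupp.single (q l) ((SignType.sign (f k) : ℤ) : ℝ) else 0 with hG
  have hGi : ∀ l ∈ Λ, G (i l) = Finsupp.single (q l) ((SignType.sign (f (i l)) : ℤ) : ℝ) := by
    intro l hl
    rw [hG]
    simp only
    rw [Finset.sum_eq_single l]
    · rw [if_pos rfl]
    · intro m hm hml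
      rw [if_neg]
      intro h
      exact hml (hinj m hm l hl h)
    · intro h
      exact absurd hl h
  have hG0 : ∀ k, (∀ l ∈ Λ, i l ≠ k) → G k = 0 := by
    intro k hk
    rw [hG]
    simp only
    refine Finset.sum_eq_zero fun l hl => ?_
    rw [if_neg (hk l hl)]
  have hsign : ∀ r : ℝ, |((SignType.sign r : ℤ) : ℝ)| ≤ 1 := by
    intro r
    rcases lt_trichotomy r 0 with h | h | h <;> simp [h]
  have hW : W (Finsupp.linearCombination ℝ G f) := by
    refine W.subst' ?_ ?_ ?_ hf
    · intro k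
      by_cases hk : ∃ l ∈ Λ, i l = k
      · obtain ⟨l, hl, rfl⟩ := hk
        rw [hGi l hl]
        exact W.single _ _ (hsign _)
      · push Not at hk
        rw [hG0 k hk]
        exact W_zero
    · intro k j hj
      by_cases hk : ∃ l ∈ Λ, i l = k
      · obtain ⟨l, hl, rfl⟩ := hk
        rw [hGi l hl] at hj
        rw [Finset.mem_singleton.1 (Finsupp.support_single_subset hj)]
        exact hiq l hl
      · push Not at hk
        rw [hG0 k hk] at hj
        simp at hj
    · intro k k' hkk'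
      by_cases hk : ∃ l ∈ Λ, i l = k
      · by_cases hk' : ∃ l ∈ Λ, i l = k'
        · obtain ⟨l, hl, rfl⟩ := hk
          obtain ⟨m, hm, rfl⟩ := hk'
          rw [hGi l hl, hGi m hm]
          refine succ_single_single (hq ?_) _ _
          rcases lt_trichotomy l m with h' | h' | h'
          · exact h'
          · subst h'
            exact absurd hkk' (lt_irrefl _)
          · exact absurd hkk' (hi m hm l hl h').asymm
        · push Not at hk'
          rw [hG0 k' hk']
          intro a _ b hb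
          simp at hb
      · push Not at hk
        rw [hG0 k hk]
        intro a ha
        simp at ha
  have h1 := pair_le_N hW (∑ l ∈ Λ, Finsupp.single (q l) (u l))
  refine le_trans (le_of_eq ?_) h1
  rw [pair_lc, pair_eq_sum_of_subset f _ (f.support ∪ Λ.image i) Finset.subset_union_left]
  have hz : ∀ m ∈ Λ, (∑ l ∈ Λ, Finsupp.single (q l) (u l)) (q m) = u m := by
    intro m hm
    rw [Finsupp.finsetSum_apply, Finset.sum_eq_single m]
    · simp
    · intro l _ hlm
      have : q l ≠ q m := fun h => hlm (hq.injective h)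
      simp [this]
    · intro h
      exact absurd hm h
  have h2 : ∑ k ∈ f.support ∪ Λ.image i,
      f k * pair (G k) (∑ l ∈ Λ, Finsupp.single (q l) (u l) : ℕ+ →₀ ℝ) =
      ∑ k ∈ Λ.image i, f k * pair (G k) (∑ l ∈ Λ, Finsupp.single (q l) (u l) : ℕ+ →₀ ℝ) := by
    symm
    refine Finset.sum_subset Finset.subset_union_right fun k _ hk => ?_
    rw [hG0 k, pair_zero, mul_zero]
    intro l hl h
    exact hk (Finset.mem_image.2 ⟨l, hl, h⟩)
  rw [h2, Finset.sum_image (fun l hl m hm h => hinj l hl m hm h)]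
  refine Finset.sum_congr rfl fun l hl => ?_
  rw [hGi l hl, pair_single, hz l hl]
  have : f (i l) * ((SignType.sign (f (i l)) : ℤ) : ℝ) = |f (i l)| := by
    rcases lt_trichotomy (f (i l)) 0 with h | h | h
    · simp [h, abs_of_neg]
    · simp [h]
    · simp [h, abs_of_pos]
  rw [← this]
  ring

end Pool.Agent.H30.Tsirelson
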