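import Mathlib
import Pool.Agent.H30.TsirelsonEst

/-!
# The shift estimate in Tsirelson space
-/

set_option autoImplicit false

namespace Pool.Agent.H30.Tsirelson

open Pool.Agent.Lib.Tsirelson

theorem succ_sum {A B : List (ℕ+ →₀ ℝ)} (h : ∀ a ∈ A, ∀ b ∈ B, Succ a b) :
    Succ A.sum B.sum := by
  intro i hi j hj
  obtain ⟨a, ha, hia⟩ := exists_mem_of_mem_support_sum hi
  obtain ⟨b, hb, hjb⟩ := exists_mem_of_mem_support_sum hj
  exact h a ha b hb i hia j hjb

/-- elements after dropping `m` nonzero successive elements are far out -/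
theorem drop_support : ∀ (m : ℕ) (L : List (ℕ+ →₀ ℝ)) (n : ℕ), L.Pairwise Succ →
    (∀ f ∈ L, f ≠ 0) → (∀ f ∈ L, ∀ k ∈ f.support, n ≤ (k : ℕ)) →
    ∀ f ∈ L.drop m, ∀ k ∈ f.support, n + m ≤ (k : ℕ) := by
  intro m
  induction m with
  | zero =>
    intro L n _ _ h f hf k hk
    exact h f (by simpa using hf) k hk
  | succ m ih =>
    intro L n hs hne h f hf k hk
    cases L with
    | nil => simp at hf
    | cons g L =>
      rw [List.drop_succ_cons] at hf
      rw [List.pairwise_cons] at hs
      obtain ⟨i, hi⟩ := Finsupp.support_nonempty_iff.2 (hne g List.mem_cons_self)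
      have := ih L (n + 1) hs.2 (fun f hf => hne f (List.mem_cons_of_mem _ hf)) ?_ f hf k hk
      · omega
      · intro f' hf' k' hk'
        have h1 := hs.1 f' hf' i hi k' hk'
        have h2 := h g List.mem_cons_self i hi
        have h3 : (i : ℕ) < k' := h1
        omega

/-- `M` is (as a functional) a sum of at most three successive members of `W`, with control of
the supports. -/
def Three (P : ℕ+ → Prop) (g : ℕ+ →₀ ℝ) : Prop :=
  ∃ L : List (ℕ+ →₀ ℝ), L.length ≤ 3 ∧ (∀ h ∈ L, W h ∧ h ≠ 0 ∧ ∀ i ∈ h.support, P i) ∧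
    L.Pairwise Succ ∧ L.sum = g

theorem sum_filter_ne_zero (L : List (ℕ+ →₀ ℝ)) : (L.filter (fun f => f ≠ 0)).sum = L.sum := by
  classical
  induction L with
  | nil => simp
  | cons g L ih =>
    by_cases hg : g = 0
    · simpa [hg] using ih
    · simpa [hg] using ih

/-- regrouping -/
theorem regroup {P : ℕ+ → Prop} {M : List (ℕ+ →₀ ℝ)} {n : ℕ} (hlen : M.length ≤ 3 * n)
    (hM : ∀ h ∈ M, W h ∧ h ≠ 0 ∧ ∀ i ∈ h.support, P i) (hs : M.Pairwise Succ)
    (htail : ∀ h ∈ M.tail, ∀ i ∈ h.support, n ≤ (i : ℕ)) : Three P ((1 / 2 : ℝ) • M.sum) := by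
  classical
  cases M with
  | nil => exact ⟨[], by simp, by simp, by simp, by simp⟩
  | cons m M =>
    rw [List.tail_cons] at htail
    rw [List.pairwise_cons] at hs
    have hM' : ∀ h ∈ M, W h ∧ h ≠ 0 ∧ ∀ i ∈ h.support, P i :=
      fun h hh => hM h (List.mem_cons_of_mem _ hh)
    set g1 : ℕ+ →₀ ℝ := (1 / 2 : ℝ) • m with hg1
    set g2 : ℕ+ →₀ ℝ := (1 / 2 : ℝ) • (M.take n).sum with hg2
    set g3 : ℕ+ →₀ ℝ := (1 / 2 : ℝ) • (M.drop n).sum with hg3
    have hsum : (1 / 2 : ℝ) • (m :: M).sum = g1 + g2 + g3 := by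
      rw [List.sum_cons, ← List.sum_take_add_sum_drop M n, hg1, hg2, hg3]
      simp only [smul_add]
      rw [add_assoc]
    have hdrop := drop_support n M n hs.2 (fun f hf => (hM' f hf).2.1) htail
    have hW1 : W g1 := (hM m List.mem_cons_self).1.smul (by norm_num [abs_of_pos])
    have hW2 : W g2 := by
      refine W.node _ (fun h hh => (hM' h (List.mem_of_mem_take hh)).1) ?_ ?_
      · intro h hh k hk
        rw [List.length_take]
        exact (min_le_left _ _).trans (htail h (List.mem_of_mem_take hh) k hk)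
      · exact hs.2.sublist (List.take_sublist _ _)
    have hW3 : W g3 := by
      refine W.node _ (fun h hh => (hM' h (List.mem_of_mem_drop hh)).1) ?_ ?_
      · intro h hh k hk
        have := hdrop h hh k hk
        rw [List.length_drop]
        rw [List.length_cons] at hlen
        omega
      · exact hs.2.sublist (List.drop_sublist _ _)
    have hs23 : Succ g2 g3 := by
      intro a ha b hb
      rw [hg2, support_half] at ha
      rw [hg3, support_half] at hb
      refine succ_sum ?_ a ha b hb
      have := hs.2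
      rw [← List.take_append_drop n M, List.pairwise_append] at this
      exact this.2.2
    have hs12 : Succ g1 g2 := by
      intro a ha b hb
      rw [hg1, support_half] at ha
      rw [hg2, support_half] at hb
      obtain ⟨h, hh, hbh⟩ := exists_mem_of_mem_support_sum hb
      exact hs.1 h (List.mem_of_mem_take hh) a ha b hbh
    have hs13 : Succ g1 g3 := by
      intro a ha b hb
      rw [hg1, support_half] at ha
      rw [hg3, support_half] at hb
      obtain ⟨h, hh, hbh⟩ := exists_mem_of_mem_support_sum hb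
      exact hs.1 h (List.mem_of_mem_drop hh) a ha b hbh
    refine ⟨[g1, g2, g3].filter (fun f => f ≠ 0), ?_, ?_, ?_, ?_⟩
    · exact (List.length_filter_le _ _).trans (by simp)
    · intro h hh
      obtain ⟨hh1, hh2⟩ := List.mem_filter.1 hh
      have hne : h ≠ 0 := by simpa using hh2
      have h3 : h = g1 ∨ h = g2 ∨ h = g3 := by simpa using hh1
      rcases h3 with rfl | rfl | rfl
      · refine ⟨hW1, hne, fun i hi => ?_⟩
        rw [hg1, support_half] at hi
        exact (hM m List.mem_cons_self).2.2 i hi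
      · refine ⟨hW2, hne, fun i hi => ?_⟩
        rw [hg2, support_half] at hi
        obtain ⟨h, hh, hih⟩ := exists_mem_of_mem_support_sum hi
        exact (hM' h (List.mem_of_mem_take hh)).2.2 i hih
      · refine ⟨hW3, hne, fun i hi => ?_⟩
        rw [hg3, support_half] at hi
        obtain ⟨h, hh, hih⟩ := exists_mem_of_mem_support_sum hi
        exact (hM' h (List.mem_of_mem_drop hh)).2.2 i hih
    · refine List.Pairwise.filter _ ?_
      simp only [List.pairwise_cons, List.mem_cons, List.not_mem_nil, or_false, forall_eq_or_imp,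
        forall_eq, IsEmpty.forall_iff, implies_true, List.Pairwise.nil, and_true]
      exact ⟨⟨hs12, hs13⟩, hs23⟩
    · rw [sum_filter_ne_zero, hsum]
      simp [add_assoc]

theorem length_flatMap_le {α β : Type*} (L : List α) (F : α → List β) (c : ℕ)
    (h : ∀ a ∈ L, (F a).length ≤ c) : (L.flatMap F).length ≤ c * L.length := by
  induction L with
  | nil => simp
  | cons a L ih =>
    rw [List.flatMap_cons, List.length_append, List.length_cons]
    have h1 := h a List.mem_cons_self
    have h2 := ih fun b hb => h b (List.mem_cons_of_mem _ hb)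
    calc (F a).length + (L.flatMap F).length ≤ c + c * L.length := by omega
      _ = c * (L.length + 1) := by ring

theorem sum_flatMap (L : List (ℕ+ →₀ ℝ)) (F : (ℕ+ →₀ ℝ) → List (ℕ+ →₀ ℝ)) :
    (L.flatMap F).sum = (L.map fun f => (F f).sum).sum := by
  induction L with
  | nil => simp
  | cons a L ih => rw [List.flatMap_cons, List.sum_append, ih, List.map_cons, List.sum_cons]

/-- the left shift of a functional is a sum of at most three successive members of `W` -/
theorem three_of_W {G : ℕ+ → ℕ+ →₀ ℝ} (hG : ∀ k, G k = 0 ∨ ∃ r : ℕ+, G k = Finsupp.single r 1)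
    (hsucc : ∀ k l, k < l → Succ (G k) (G l))
    (hle : ∀ k l, k < l → G k ≠ 0 → ∀ i ∈ (G l).support, k ≤ i)
    {f : ℕ+ →₀ ℝ} (hf : W f) :
    Three (fun i => ∃ k ∈ f.support, i ∈ (G k).support) (Finsupp.linearCombination ℝ G f) := by
  classical
  induction hf with
  | single k c hc =>
    rw [Finsupp.linearCombination_single]
    by_cases hz : c • G k = 0
    · exact ⟨[], by simp, by simp, by simp, by simp [hz]⟩
    · refine ⟨[c • G k], by simp, ?_, by simp, by simp⟩
      intro h hh
      rw [List.mem_singleton.1 hh]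
      have hc0 : c ≠ 0 := fun h => hz (by rw [h, zero_smul])
      refine ⟨?_, hz, ?_⟩
      · rcases hG k with h | ⟨r, h⟩
        · rw [h, smul_zero]
          exact W_zero
        · rw [h, Finsupp.smul_single, smul_eq_mul, mul_one]
          exact W.single _ _ hc
      · intro i hi
        refine ⟨k, ?_, Finsupp.support_smul hi⟩
        rw [Finsupp.support_single _ hc0]
        exact Finset.mem_singleton_self _
  | node L hW hlen hs ih =>
    have hsupp : ((1 / 2 : ℝ) • L.sum).support = L.sum.support := support_half _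
    have ih' : ∀ f ∈ L, ∃ M : List (ℕ+ →₀ ℝ), M.length ≤ 3 ∧
        (∀ h ∈ M, W h ∧ h ≠ 0 ∧ ∀ i ∈ h.support, ∃ k ∈ f.support, i ∈ (G k).support) ∧
        M.Pairwise Succ ∧ M.sum = Finsupp.linearCombination ℝ G f := ih
    choose! F hF1 hF2 hF3 hF4 using ih'
    rw [map_smul, map_list_sum]
    have hsum : (L.map (Finsupp.linearCombination ℝ G)).sum = (L.flatMap F).sum := by
      rw [sum_flatMap]
      congr 1
      exact List.map_congr_left fun f hf => (hF4 f hf).symm
    rw [hsum]
    have hmem : ∀ h ∈ L.flatMap F, ∃ f ∈ L, h ∈ F f := fun h hh => List.mem_flatMap.1 hh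
    have hM : ∀ h ∈ L.flatMap F, W h ∧ h ≠ 0 ∧
        ∀ i ∈ h.support, ∃ k ∈ ((1 / 2 : ℝ) • L.sum).support, i ∈ (G k).support := by
      intro h hh
      obtain ⟨f, hf, hhf⟩ := hmem h hh
      obtain ⟨h1, h2, h3⟩ := hF2 f hf h hhf
      refine ⟨h1, h2, fun i hi => ?_⟩
      obtain ⟨k, hk, hik⟩ := h3 i hi
      refine ⟨k, ?_, hik⟩
      rw [hsupp]
      exact support_subset_sum hs hf hk
    have hpw : (L.flatMap F).Pairwise Succ := by
      rw [List.pairwise_flatMap]
      refine ⟨hF3, ?_⟩
      refine hs.imp_of_mem ?_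
      intro f g hf hg hfg a ha b hb i hi j hj
      obtain ⟨k, hk, hik⟩ := (hF2 f hf a ha).2.2 i hi
      obtain ⟨l, hl, hjl⟩ := (hF2 g hg b hb).2.2 j hj
      exact hsucc k l (hfg k hk l hl) i hik j hjl
    refine regroup (n := L.length) (length_flatMap_le L F 3 hF1) hM hpw ?_
    intro h hh i hi
    -- the first element
    cases hMl : L.flatMap F with
    | nil => rw [hMl] at hh; simp at hh
    | cons m M =>
      rw [hMl, List.tail_cons] at hh
      rw [hMl] at hM hpw
      rw [List.pairwise_cons] at hpw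
      obtain ⟨i1, hi1⟩ := Finsupp.support_nonempty_iff.2 (hM m List.mem_cons_self).2.1
      obtain ⟨k1, hk1, hik1⟩ := (hM m List.mem_cons_self).2.2 i1 hi1
      obtain ⟨k, hk, hik⟩ := (hM h (List.mem_cons_of_mem _ hh)).2.2 i hi
      have hlt : i1 < i := hpw.1 h hh i1 hi1 i hi
      have hkk : k1 < k := by
        rcases lt_trichotomy k1 k with h' | h' | h'
        · exact h'
        · exfalso
          subst h'
          rcases hG k1 with h0 | ⟨r, hr⟩
          · rw [h0] at hik
            simp at hik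
          · rw [hr] at hik hik1
            rw [Finset.mem_singleton.1 (Finsupp.support_single_subset hik),
              Finset.mem_singleton.1 (Finsupp.support_single_subset hik1)] at hlt
            exact lt_irrefl _ hlt
        · exact absurd hlt (hsucc k k1 h' i hik i1 hik1).asymm
      have hne : G k1 ≠ 0 := by
        intro h0
        rw [h0] at hik1
        simp at hik1
      have h1 : k1 ≤ i := hle k1 k hkk hne i hik
      rw [hsupp] at hk1
      obtain ⟨f, hf, hkf⟩ := exists_mem_of_mem_support_sum hk1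
      exact (hlen f hf k1 hkf).trans h1

theorem pair_le_three {P : ℕ+ → Prop} {g : ℕ+ →₀ ℝ} (h : Three P g) (x : ℕ+ →₀ ℝ) :
    pair g x ≤ 3 * N x := by
  obtain ⟨L, hlen, hL, -, rfl⟩ := h
  rw [pair_sum]
  calc (L.map fun f => pair f x).sum ≤ (L.map fun _ => N x).sum :=
        sum_map_le_sum_map _ _ _ fun f hf => pair_le_N (hL f hf).1 x
    _ = L.length * N x := by simp
    _ ≤ 3 * N x := by
        refine mul_le_mul_of_nonneg_right ?_ (N_nonneg x)
        exact_mod_cast hlen

/-- the shift lemma -/
theorem N_shift {p : ℕ → ℕ+} (hp : StrictMono p) (Λ : Finset ℕ) (u : ℕ → ℝ) :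
    N (∑ l ∈ Λ, Finsupp.single (p (l + 1)) (u l)) ≤
      3 * N (∑ l ∈ Λ, Finsupp.single (p l) (u l)) := by
  classical
  set G : ℕ+ → ℕ+ →₀ ℝ := fun k => if h : ∃ l, p (l + 1) = k then
    Finsupp.single (p h.choose) 1 else 0 with hG
  have hGp : ∀ l, G (p (l + 1)) = Finsupp.single (p l) 1 := by
    intro l
    have h : ∃ m, p (m + 1) = p (l + 1) := ⟨l, rfl⟩
    rw [hG]
    simp only
    rw [dif_pos h]
    have : h.choose = l := by
      have := hp.injective h.choose_spec
      omega
    rw [this]
  have hG0 : ∀ k, (¬ ∃ l, p (l + 1) = k) → G k = 0 := by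
    intro k hk
    rw [hG]
    simp only
    rw [dif_neg hk]
  have hG' : ∀ k, G k = 0 ∨ ∃ r : ℕ+, G k = Finsupp.single r 1 := by
    intro k
    by_cases hk : ∃ l, p (l + 1) = k
    · obtain ⟨l, rfl⟩ := hk
      exact Or.inr ⟨p l, hGp l⟩
    · exact Or.inl (hG0 k hk)
  have hsucc : ∀ k l, k < l → Succ (G k) (G l) := by
    intro k k' hkk'
    by_cases hk : ∃ l, p (l + 1) = k
    · by_cases hk' : ∃ l, p (l + 1) = k'
      · obtain ⟨l, rfl⟩ := hk
        obtain ⟨m, rfl⟩ := hk'
        rw [hGp l, hGp m]
        have := hp.lt_iff_lt.1 hkk'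
        exact succ_single_single (hp (by omega)) _ _
      · rw [hG0 k' hk']
        intro a _ b hb
        simp at hb
    · rw [hG0 k hk]
      intro a ha
      simp at ha
  have hle : ∀ k l, k < l → G k ≠ 0 → ∀ i ∈ (G l).support, k ≤ i := by
    intro k k' hkk' hne i hi
    by_cases hk : ∃ l, p (l + 1) = k
    · by_cases hk' : ∃ l, p (l + 1) = k'
      · obtain ⟨l, rfl⟩ := hk
        obtain ⟨m, rfl⟩ := hk'
        rw [hGp m] at hi
        rw [Finset.mem_singleton.1 (Finsupp.support_single_subset hi)]
        have := hp.lt_iff_lt.1 hkk'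
        exact hp.monotone (by omega)
      · rw [hG0 k' hk'] at hi
        simp at hi
    · exact absurd (hG0 k hk) hne
  refine N_le fun f hf => ?_
  have h1 := pair_le_three (three_of_W hG' hsucc hle hf) (∑ l ∈ Λ, Finsupp.single (p l) (u l))
  refine le_trans (le_of_eq ?_) h1
  rw [pair_lc]
  refine pair_congr f fun k _ => ?_
  by_cases hk : ∃ l, p (l + 1) = k
  · obtain ⟨l, rfl⟩ := hk
    rw [hGp l, pair_single, one_mul, Finsupp.finsetSum_apply, Finsupp.finsetSum_apply]
    refine Finset.sum_congr rfl fun m _ => ?_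
    by_cases hml : m = l
    · subst hml
      simp
    · have h2 : p (m + 1) ≠ p (l + 1) := fun h => hml (by have := hp.injective h; omega)
      have h3 : p m ≠ p l := fun h => hml (hp.injective h)
      simp [h2, h3]
  · rw [hG0 k hk, pair_zero, Finsupp.finsetSum_apply]
    refine Finset.sum_eq_zero fun m _ => ?_
    have : p (m + 1) ≠ k := fun h => hk ⟨m, h⟩
    simp [this]

theorem N_shift_iter {p : ℕ → ℕ+} (hp : StrictMono p) (Λ : Finset ℕ) (u : ℕ → ℝ) (r : ℕ) :
    N (∑ l ∈ Λ, Finsupp.single (p (l + r)) (u l)) ≤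
      3 ^ r * N (∑ l ∈ Λ, Finsupp.single (p l) (u l)) := by
  induction r with
  | zero => simp
  | succ r ih =>
    have hp' : StrictMono fun l => p (l + r) := fun a b hab => hp (by omega)
    have h1 := N_shift hp' Λ u
    have h2 : (fun l => p (l + (r + 1))) = fun l => p (l + 1 + r) := by
      funext l
      congr 1
      omega
    have h3 : (∑ l ∈ Λ, Finsupp.single (p (l + (r + 1))) (u l)) =
        ∑ l ∈ Λ, Finsupp.single (p (l + 1 + r)) (u l) :=
      Finset.sum_congr rfl fun l _ => by rw [congrFun h2 l]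
    rw [h3]
    calc N (∑ l ∈ Λ, Finsupp.single (p (l + 1 + r)) (u l))
        ≤ 3 * N (∑ l ∈ Λ, Finsupp.single (p (l + r)) (u l)) := h1
      _ ≤ 3 * (3 ^ r * N (∑ l ∈ Λ, Finsupp.single (p l) (u l))) := by linarith
      _ = 3 ^ (r + 1) * N (∑ l ∈ Λ, Finsupp.single (p l) (u l)) := by ring

end Pool.Agent.H30.Tsirelson
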