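import Mathlib
import Pool.Agent.H30.TsirelsonShift

/-!
# The upper estimate for averages over dyadic-type intervals
-/

set_option autoImplicit false

namespace Pool.Agent.H30.Tsirelson

open Pool.Agent.Lib.Tsirelson

/-! ### the tower `t_{l+1} = t_l 2^{t_l}` -/

def tw : ℕ → ℕ
  | 0 => 1
  | l + 1 => tw l * 2 ^ tw l

theorem tw_pos : ∀ l, 0 < tw l
  | 0 => Nat.one_pos
  | l + 1 => Nat.mul_pos (tw_pos l) (Nat.two_pow_pos _)

theorem two_mul_tw_le (l : ℕ) : 2 * tw l ≤ tw (l + 1) := by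
  have h := tw_pos l
  have h2 : 2 ^ 1 ≤ 2 ^ tw l := Nat.pow_le_pow_right (by norm_num) h
  calc 2 * tw l = tw l * 2 ^ 1 := by ring
    _ ≤ tw l * 2 ^ tw l := Nat.mul_le_mul_left _ h2
    _ = tw (l + 1) := rfl

theorem tw_lt_succ (l : ℕ) : tw l < tw (l + 1) := by
  have := two_mul_tw_le l
  have := tw_pos l
  omega

theorem tw_strictMono : StrictMono tw := strictMono_nat_of_lt_succ tw_lt_succ

theorem tw_add_le (l j : ℕ) : tw l + j ≤ tw (l + j) := by
  induction j with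
  | zero => simp
  | succ j ih =>
    have := tw_lt_succ (l + j)
    have h : l + (j + 1) = l + j + 1 := rfl
    rw [h]
    omega

theorem two_pow_tw_le (l : ℕ) : 2 ^ tw l ≤ tw (l + 1) := by
  have h := tw_pos l
  calc 2 ^ tw l = 1 * 2 ^ tw l := by ring
    _ ≤ tw l * 2 ^ tw l := Nat.mul_le_mul_right _ h

theorem tw_big (l c : ℕ) : 2 ^ (8 * tw (l + 1) + c) ≤ tw (l + (c + 5)) := by
  have h1 := two_mul_tw_le (l + 1)
  have h2 := two_mul_tw_le (l + 1 + 1)
  have h3 := two_mul_tw_le (l + 1 + 1 + 1)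
  have h4 := tw_add_le (l + 1 + 1 + 1 + 1) c
  have h5 : 8 * tw (l + 1) + c ≤ tw (l + 1 + 1 + 1 + 1 + c) := by omega
  calc 2 ^ (8 * tw (l + 1) + c) ≤ 2 ^ tw (l + 1 + 1 + 1 + 1 + c) :=
        Nat.pow_le_pow_right (by norm_num) h5
    _ ≤ tw (l + 1 + 1 + 1 + 1 + c + 1) := two_pow_tw_le _
    _ = tw (l + (c + 5)) := by congr 1; omega

/-- the tower in `ℕ+` -/
def twP (l : ℕ) : ℕ+ := ⟨tw l, tw_pos l⟩

@[simp] theorem twP_coe (l : ℕ) : (twP l : ℕ) = tw l := rfl

theorem twP_strictMono : StrictMono twP := fun _ _ h => tw_strictMono h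

theorem exists_lev (k : ℕ+) : ∃ l, (k : ℕ) < tw (l + 1) :=
  ⟨k, by
    have := tw_add_le 0 ((k : ℕ) + 1)
    rw [Nat.zero_add] at this
    omega⟩

/-- the level of `k`: `t_l ≤ k < t_{l+1}` -/
def lev (k : ℕ+) : ℕ := Nat.find (exists_lev k)

theorem lt_tw_lev (k : ℕ+) : (k : ℕ) < tw (lev k + 1) := Nat.find_spec (exists_lev k)

theorem tw_lev_le (k : ℕ+) : tw (lev k) ≤ (k : ℕ) := by
  rcases Nat.eq_zero_or_pos (lev k) with h | h
  · rw [h]
    exact k.pos
  · have := Nat.find_min (exists_lev k) (m := lev k - 1) (by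
      change lev k - 1 < lev k
      omega)
    rw [Nat.sub_add_cancel h] at this
    omega

/-! ### the intervals `D_k = [2^{8k+c}, 2^{8k+c+1})` -/

def D (c : ℕ) (k : ℕ) : Finset ℕ+ := Finset.Ico ((2 : ℕ+) ^ (8 * k + c)) ((2 : ℕ+) ^ (8 * k + c + 1))

theorem mem_D {c k : ℕ} {i : ℕ+} :
    i ∈ D c k ↔ 2 ^ (8 * k + c) ≤ (i : ℕ) ∧ (i : ℕ) < 2 ^ (8 * k + c + 1) := by
  rw [D, Finset.mem_Ico, ← PNat.coe_le_coe, ← PNat.coe_lt_coe, PNat.pow_coe, PNat.pow_coe]
  rfl

theorem card_D (c k : ℕ) : (D c k).card = 2 ^ (8 * k + c) := by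
  rw [D, PNat.card_Ico, PNat.pow_coe, PNat.pow_coe]
  change 2 ^ (8 * k + c + 1) - 2 ^ (8 * k + c) = 2 ^ (8 * k + c)
  rw [pow_succ]
  omega

theorem card_D_le (c k : ℕ) : ∀ i ∈ D c k, (D c k).card ≤ (i : ℕ) := by
  intro i hi
  rw [card_D]
  exact (mem_D.1 hi).1

theorem D_ge (c k : ℕ) : ∀ i ∈ D c k, k ≤ (i : ℕ) := by
  intro i hi
  have h1 := (mem_D.1 hi).1
  have h2 : 8 * k + c < 2 ^ (8 * k + c) := Nat.lt_two_pow_self
  omega

theorem D_succ (c k l : ℕ) (hkl : k < l) : ∀ a ∈ D c k, ∀ b ∈ D c l, a < b := by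
  intro a ha b hb
  have h1 := (mem_D.1 ha).2
  have h2 := (mem_D.1 hb).1
  have h3 : 2 ^ (8 * k + c + 1) ≤ 2 ^ (8 * l + c) := Nat.pow_le_pow_right (by norm_num) (by omega)
  rw [← PNat.coe_lt_coe]
  omega

theorem D_nonempty (c k : ℕ) : (D c k).Nonempty := by
  rw [← Finset.card_pos, card_D]
  positivity

/-! ### the upper estimate -/

theorem pair_lc_right (f : ℕ+ →₀ ℝ) (ξ : ℕ+ → ℕ+ →₀ ℝ) (y : ℕ+ →₀ ℝ) :
    pair f (Finsupp.linearCombination ℝ ξ y : ℕ+ →₀ ℝ) = ∑ k ∈ y.support, y k * pair f (ξ k) := by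
  have h : (fun i => (Finsupp.linearCombination ℝ ξ y) i) =
      fun i => ∑ k ∈ y.support, y k * ξ k i := by
    funext i
    rw [Finsupp.linearCombination_apply, Finsupp.sum, Finsupp.finsetSum_apply]
    rfl
  have h2 : pair f (Finsupp.linearCombination ℝ ξ y : ℕ+ →₀ ℝ) =
      pair f (fun i => ∑ k ∈ y.support, y k * ξ k i) := by
    rw [← h]
  rw [h2]
  simp only [pair_eq_sum, Finset.mul_sum]
  rw [Finset.sum_comm]
  exact Finset.sum_congr rfl fun k _ => Finset.sum_congr rfl fun i _ => by ring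

theorem abs_pair_le_of_max {f ξ : ℕ+ →₀ ℝ} {m : ℝ} (h1 : ∑ i ∈ ξ.support, |ξ i| ≤ 1)
    (h2 : ∀ i ∈ ξ.support, |f i| ≤ m) (hm : 0 ≤ m) : |pair f ξ| ≤ m := by
  classical
  have h : pair f ξ = ∑ i ∈ ξ.support, f i * ξ i := by
    rw [pair_eq_sum_of_subset f ξ (f.support ∪ ξ.support) Finset.subset_union_left]
    symm
    refine Finset.sum_subset Finset.subset_union_right fun k _ hk => ?_
    rw [Finsupp.notMem_support_iff.1 hk, mul_zero]
  rw [h]
  calc |∑ i ∈ ξ.support, f i * ξ i| ≤ ∑ i ∈ ξ.support, |f i * ξ i| :=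
        Finset.abs_sum_le_sum_abs _ _
    _ ≤ ∑ i ∈ ξ.support, m * |ξ i| := by
        refine Finset.sum_le_sum fun i hi => ?_
        rw [abs_mul]
        exact mul_le_mul_of_nonneg_right (h2 i hi) (abs_nonneg _)
    _ = m * ∑ i ∈ ξ.support, |ξ i| := by rw [Finset.mul_sum]
    _ ≤ m * 1 := mul_le_mul_of_nonneg_left h1 hm
    _ = m := mul_one m

theorem N_lc_le (c : ℕ) (ξ : ℕ+ → ℕ+ →₀ ℝ) (hξ : ∀ k, (ξ k).support ⊆ D c (k : ℕ))
    (hξ1 : ∀ k, ∑ i ∈ (ξ k).support, |ξ k i| ≤ 1) (y : ℕ+ →₀ ℝ) :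
    N (Finsupp.linearCombination ℝ ξ y) ≤ 4 * 3 ^ (c + 5) * N y := by
  classical
  refine N_le fun f hf => ?_
  rw [pair_lc_right]
  set Λ : Finset ℕ := y.support.image lev with hΛ
  set B : ℕ → Finset ℕ+ := fun l => (y.support.filter fun k => lev k = l).biUnion
    fun k => D c (k : ℕ) with hB
  have hBne : ∀ l ∈ Λ, (B l).Nonempty := by
    intro l hl
    obtain ⟨k, hk, rfl⟩ := Finset.mem_image.1 hl
    obtain ⟨i, hi⟩ := D_nonempty c (k : ℕ)
    exact ⟨i, Finset.mem_biUnion.2 ⟨k, Finset.mem_filter.2 ⟨hk, rfl⟩, hi⟩⟩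
  have hmax : ∀ l, ∃ i : ℕ+, l ∈ Λ → i ∈ B l ∧ ∀ j ∈ B l, |f j| ≤ |f i| := by
    intro l
    by_cases hl : l ∈ Λ
    · obtain ⟨i, hi, hi'⟩ := Finset.exists_max_image (B l) (fun j => |f j|) (hBne l hl)
      exact ⟨i, fun _ => ⟨hi, hi'⟩⟩
    · exact ⟨1, fun h => absurd h hl⟩
  choose i hi using hmax
  set u : ℕ → ℝ := fun l => ∑ k ∈ y.support.filter (fun k => lev k = l), |y k| with hu
  have h1 : ∑ k ∈ y.support, y k * pair f (ξ k) ≤ ∑ k ∈ y.support, |f (i (lev k))| * |y k| := by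
    refine Finset.sum_le_sum fun k hk => ?_
    have hl : lev k ∈ Λ := Finset.mem_image_of_mem _ hk
    have h2 : |pair f (ξ k)| ≤ |f (i (lev k))| := by
      refine abs_pair_le_of_max (hξ1 k) (fun j hj => ?_) (abs_nonneg _)
      refine (hi _ hl).2 j ?_
      exact Finset.mem_biUnion.2 ⟨k, Finset.mem_filter.2 ⟨hk, rfl⟩, hξ k hj⟩
    calc y k * pair f (ξ k) ≤ |y k * pair f (ξ k)| := le_abs_self _
      _ = |pair f (ξ k)| * |y k| := by rw [abs_mul, mul_comm]
      _ ≤ |f (i (lev k))| * |y k| := mul_le_mul_of_nonneg_right h2 (abs_nonneg _)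
  have h2 : ∑ k ∈ y.support, |f (i (lev k))| * |y k| = ∑ l ∈ Λ, |f (i l)| * u l := by
    rw [← Finset.sum_fiberwise_of_maps_to (s := y.support) (t := Λ) (g := lev)
      (fun k hk => Finset.mem_image_of_mem _ hk)]
    refine Finset.sum_congr rfl fun l _ => ?_
    rw [hu, Finset.mul_sum]
    refine Finset.sum_congr rfl fun k hk => ?_
    rw [(Finset.mem_filter.1 hk).2]
  have himono : ∀ l ∈ Λ, ∀ m ∈ Λ, l < m → i l < i m := by
    intro l hl m hm hlm
    obtain ⟨k, hk, hik⟩ := Finset.mem_biUnion.1 (hi l hl).1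
    obtain ⟨k', hk', hik'⟩ := Finset.mem_biUnion.1 (hi m hm).1
    have e1 := (Finset.mem_filter.1 hk).2
    have e2 := (Finset.mem_filter.1 hk').2
    refine D_succ c k k' ?_ _ hik _ hik'
    have h3 := lt_tw_lev k
    have h4 := tw_lev_le k'
    rw [e1] at h3
    rw [e2] at h4
    have h5 : tw (l + 1) ≤ tw m := tw_strictMono.monotone hlm
    omega
  have hq : StrictMono fun l => twP (l + (c + 5)) := fun a b hab => twP_strictMono (by omega)
  have hiq : ∀ l ∈ Λ, i l ≤ twP (l + (c + 5)) := by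
    intro l hl
    obtain ⟨k, hk, hik⟩ := Finset.mem_biUnion.1 (hi l hl).1
    have e1 := (Finset.mem_filter.1 hk).2
    have h3 := lt_tw_lev k
    rw [e1] at h3
    have h4 := (mem_D.1 hik).2
    have h5 : 2 ^ (8 * (k : ℕ) + c + 1) ≤ 2 ^ (8 * tw (l + 1) + c) :=
      Nat.pow_le_pow_right (by norm_num) (by omega)
    have h6 := tw_big l c
    rw [← PNat.coe_le_coe, twP_coe]
    omega
  have h3 := sum_select_le hf Λ i (fun l => twP (l + (c + 5))) himono hq hiq u
  have h4 := N_shift_iter twP_strictMono Λ u (c + 5)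
  -- blocks
  set J : ℕ → Finset ℕ+ := fun l => Finset.Ico (twP l) (twP (l + 1)) with hJ
  set E : ℕ+ → Finset ℕ+ := fun k => if h : ∃ l, twP l = k then J h.choose else ∅ with hE
  have hEt : ∀ l, E (twP l) = J l := by
    intro l
    have h : ∃ m, twP m = twP l := ⟨l, rfl⟩
    rw [hE]
    simp only
    rw [dif_pos h, twP_strictMono.injective h.choose_spec]
  have hE0 : ∀ k, (¬ ∃ l, twP l = k) → E k = ∅ := by
    intro k hk
    rw [hE]
    simp only
    rw [dif_neg hk]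
  have h5 : N (∑ l ∈ Λ, Finsupp.single (twP l) (u l)) ≤ 4 * N y := by
    refine N_le_of_blocks (E := E) ?_ ?_ (by norm_num) ?_
    · intro k j hj
      by_cases hk : ∃ l, twP l = k
      · obtain ⟨l, rfl⟩ := hk
        rw [hEt] at hj
        exact (Finset.mem_Ico.1 hj).1
      · rw [hE0 k hk] at hj
        simp at hj
    · intro k k' hkk' a ha b hb
      by_cases hk : ∃ l, twP l = k
      · by_cases hk' : ∃ l, twP l = k'
        · obtain ⟨l, rfl⟩ := hk
          obtain ⟨m, rfl⟩ := hk'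
          rw [hEt] at ha hb
          have hlm := twP_strictMono.lt_iff_lt.1 hkk'
          have h6 : twP (l + 1) ≤ twP m := twP_strictMono.monotone hlm
          exact lt_of_lt_of_le (Finset.mem_Ico.1 ha).2 (h6.trans (Finset.mem_Ico.1 hb).1)
        · rw [hE0 k' hk'] at hb
          simp at hb
      · rw [hE0 k hk] at ha
        simp at ha
    · intro k
      rw [Finsupp.finsetSum_apply]
      by_cases hk : ∃ l ∈ Λ, twP l = k
      · obtain ⟨l, hl, rfl⟩ := hk
        rw [Finset.sum_eq_single l, hEt]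
        · rw [Finsupp.single_eq_same]
          have hu0 : 0 ≤ u l := Finset.sum_nonneg fun _ _ => abs_nonneg _
          rw [abs_of_nonneg hu0]
          have h6 := sum_abs_le_long (tw l) (J l) (fun k hk => by
            have := Finset.mem_Ico.1 hk
            exact ⟨this.1, this.2⟩) y
          refine le_trans ?_ h6
          rw [hu]
          have h7 : y.support.filter (fun k => lev k = l) ⊆ J l := by
            intro k hk
            have e1 := (Finset.mem_filter.1 hk).2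
            rw [hJ, Finset.mem_Ico]
            subst e1
            exact ⟨tw_lev_le k, lt_tw_lev k⟩
          exact Finset.sum_le_sum_of_subset_of_nonneg h7 fun _ _ _ => abs_nonneg _
        · intro m _ hml
          have : twP m ≠ twP l := fun h => hml (twP_strictMono.injective h)
          simp [this]
        · intro h
          exact absurd hl h
      · push Not at hk
        rw [Finset.sum_eq_zero, abs_zero]
        · exact mul_nonneg (by norm_num) (N_nonneg _)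
        · intro m hm
          simp [hk m hm]
  calc ∑ k ∈ y.support, y k * pair f (ξ k) ≤ ∑ k ∈ y.support, |f (i (lev k))| * |y k| := h1
    _ = ∑ l ∈ Λ, |f (i l)| * u l := h2
    _ ≤ N (∑ l ∈ Λ, Finsupp.single (twP (l + (c + 5))) (u l)) := h3
    _ ≤ 3 ^ (c + 5) * N (∑ l ∈ Λ, Finsupp.single (twP l) (u l)) := h4
    _ ≤ 3 ^ (c + 5) * (4 * N y) := mul_le_mul_of_nonneg_left h5 (by positivity)
    _ = 4 * 3 ^ (c + 5) * N y := by ring

end Pool.Agent.H30.Tsirelson
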