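import Mathlib
import Pool.Agent.H30.TsirelsonUpper

/-!
# Selection of the blocks
-/

set_option autoImplicit false

namespace Pool.Agent.H30.Tsirelson

open Pool.Agent.Lib.Tsirelson

/-! ### combinatorial lemmas -/

/-- Markov's inequality for finite sums -/
theorem exists_subset_small {ι : Type*} (s : Finset ι) (w : ι → ℝ) (hw : ∀ i ∈ s, 0 ≤ w i)
    (M : ℕ) (hM : 2 * M ≤ s.card) (S : ℝ) (hS : ∑ i ∈ s, w i ≤ S) :
    ∃ E ⊆ s, E.card = M ∧ ∀ i ∈ E, w i * s.card ≤ 2 * S := by
  classical
  set G := s.filter (fun i => w i * s.card ≤ 2 * S) with hG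
  have hS0 : 0 ≤ S := (Finset.sum_nonneg hw).trans hS
  have hcard : M ≤ G.card := by
    by_contra hlt
    push Not at hlt
    set B := s.filter (fun i => ¬ w i * s.card ≤ 2 * S) with hB
    have hsum : G.card + B.card = s.card := Finset.card_filter_add_card_filter_not _
    have hBc : s.card < 2 * B.card := by omega
    have hBne : B.Nonempty := by
      rw [← Finset.card_pos]
      omega
    have h1 : ∑ i ∈ B, 2 * S < ∑ i ∈ B, w i * s.card := by
      refine Finset.sum_lt_sum_of_nonempty hBne fun i hi => ?_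
      exact not_le.1 (Finset.mem_filter.1 hi).2
    rw [Finset.sum_const, nsmul_eq_mul, ← Finset.sum_mul] at h1
    have h2 : ∑ i ∈ B, w i ≤ S := by
      refine le_trans ?_ hS
      exact Finset.sum_le_sum_of_subset_of_nonneg (Finset.filter_subset _ _) fun i hi _ => hw i hi
    have h3 : (∑ i ∈ B, w i) * s.card ≤ S * s.card :=
      mul_le_mul_of_nonneg_right h2 (Nat.cast_nonneg _)
    have h4 : (s.card : ℝ) ≤ 2 * B.card := by exact_mod_cast hBc.le
    have h5 : S * s.card ≤ S * (2 * B.card) := mul_le_mul_of_nonneg_left h4 hS0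
    linarith
  obtain ⟨E, hE, hEc⟩ := Finset.exists_subset_card_eq hcard
  exact ⟨E, hE.trans (Finset.filter_subset _ _), hEc, fun i hi => (Finset.mem_filter.1 (hE hi)).2⟩

/-- the trace lemma: some choice of signs makes a quadratic form at least its trace -/
theorem exists_signs {ι : Type*} [DecidableEq ι] (q : ι → ι → ℝ) (E : Finset ι) :
    ∃ ε : ι → ℝ, (∀ i, ε i = 1 ∨ ε i = -1) ∧
      ∑ i ∈ E, q i i ≤ ∑ i ∈ E, ∑ j ∈ E, ε i * ε j * q i j := by
  induction E using Finset.induction_on with
  | empty => exact ⟨fun _ => 1, fun _ => Or.inl rfl, by simp⟩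
  | insert a E ha ih =>
    obtain ⟨ε, hε, h⟩ := ih
    set l : ℝ := ∑ i ∈ E, ε i * (q i a + q a i) with hl
    set σ : ℝ := if 0 ≤ l then 1 else -1 with hσ
    have hσ' : σ = 1 ∨ σ = -1 := by
      rw [hσ]
      split_ifs
      · exact Or.inl rfl
      · exact Or.inr rfl
    have hσl : 0 ≤ σ * l := by
      rw [hσ]
      split_ifs with h0
      · simpa using h0
      · push Not at h0
        linarith
    have hσ2 : σ * σ = 1 := by rcases hσ' with h | h <;> rw [h] <;> norm_num
    refine ⟨Function.update ε a σ, ?_, ?_⟩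
    · intro i
      by_cases hi : i = a
      · rw [hi, Function.update_self]
        exact hσ'
      · rw [Function.update_of_ne hi]
        exact hε i
    · rw [Finset.sum_insert ha, Finset.sum_insert ha]
      have hup : ∀ i ∈ E, Function.update ε a σ i = ε i := by
        intro i hi
        have hne : i ≠ a := by
          rintro rfl
          exact ha hi
        exact Function.update_of_ne hne _ _
      have h1 : ∑ j ∈ insert a E, Function.update ε a σ a * Function.update ε a σ j * q a j =
          q a a + σ * ∑ i ∈ E, ε i * q a i := by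
        rw [Finset.sum_insert ha, Function.update_self, hσ2, one_mul, Finset.mul_sum]
        congr 1
        refine Finset.sum_congr rfl fun i hi => ?_
        rw [hup i hi]
        ring
      have h2 : ∑ i ∈ E, ∑ j ∈ insert a E,
          Function.update ε a σ i * Function.update ε a σ j * q i j =
          σ * (∑ i ∈ E, ε i * q i a) + ∑ i ∈ E, ∑ j ∈ E, ε i * ε j * q i j := by
        rw [Finset.mul_sum, ← Finset.sum_add_distrib]
        refine Finset.sum_congr rfl fun i hi => ?_
        rw [Finset.sum_insert ha, Function.update_self, hup i hi]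
        congr 1
        · ring
        · refine Finset.sum_congr rfl fun j hj => ?_
          rw [hup j hj]
      rw [h1, h2]
      have h3 : σ * l = σ * ∑ i ∈ E, ε i * q a i + σ * (∑ i ∈ E, ε i * q i a) := by
        rw [hl, ← mul_add, ← Finset.sum_add_distrib]
        congr 1
        exact Finset.sum_congr rfl fun i _ => by ring
      linarith

/-- dependent choice with access to all previous terms -/
theorem exists_seq_of_forall {α : Type*} [Nonempty α] (P : ℕ → α → Prop)
    (r : ℕ → α → α → Prop)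
    (h : ∀ (k : ℕ) (g : ℕ → α), (∀ j < k, P j (g j)) → ∃ y, P k y ∧ ∀ j < k, r k (g j) y) :
    ∃ f : ℕ → α, (∀ k, P k (f k)) ∧ ∀ k, ∀ j < k, r k (f j) (f k) := by
  classical
  have h' : ∀ (k : ℕ) (g : ℕ → α), ∃ y, (∀ j < k, P j (g j)) → P k y ∧ ∀ j < k, r k (g j) y := by
    intro k g
    by_cases hg : ∀ j < k, P j (g j)
    · obtain ⟨y, hy⟩ := h k g hg
      exact ⟨y, fun _ => hy⟩
    · exact ⟨Classical.arbitrary α, fun hg' => absurd hg' hg⟩
  choose F hF using h'
  set Fn : (k : ℕ) → ((j : ℕ) → j < k → α) → α := fun k ih =>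
    F k (fun j => if hj : j < k then ih j hj else Classical.arbitrary α) with hFn
  set f : ℕ → α := WellFounded.fix (Nat.lt_wfRel.wf) Fn with hf
  have hfk : ∀ k, f k = F k (fun j => if j < k then f j else Classical.arbitrary α) := by
    intro k
    rw [hf, WellFounded.fix_eq, hFn]
    simp only [dite_eq_ite]
  have hP : ∀ k, P k (f k) := by
    intro k
    induction k using Nat.strong_induction_on with
    | _ k ih =>
      rw [hfk k]
      refine (hF k _ ?_).1
      intro j hj
      rw [if_pos hj]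
      exact ih j hj
  refine ⟨f, hP, fun k j hj => ?_⟩
  have h1 := (hF k (fun j => if j < k then f j else Classical.arbitrary α) (by
    intro j hj
    rw [if_pos hj]
    exact hP j)).2 j hj
  rw [if_pos hj, ← hfk k] at h1
  exact h1

theorem sum_half_pow_le (F : Finset ℕ+) : ∑ k ∈ F, (1 / 2 : ℝ) ^ (k : ℕ) ≤ 1 := by
  classical
  set F' : Finset ℕ := F.map ⟨fun k : ℕ+ => (k : ℕ), PNat.coe_injective⟩ with hF'
  have h0 : 0 ∉ F' := by
    intro h
    obtain ⟨k, _, hk⟩ := Finset.mem_map.1 h
    exact k.pos.ne' hk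
  have h1 : ∑ n ∈ insert 0 F', (1 / 2 : ℝ) ^ n ≤ ∑' n : ℕ, (1 / 2 : ℝ) ^ n :=
    Summable.sum_le_tsum _ (fun n _ => by positivity) summable_geometric_two
  rw [tsum_geometric_two, Finset.sum_insert h0, hF', Finset.sum_map] at h1
  have h2 : ∑ k ∈ F, (1 / 2 : ℝ) ^ (k : ℕ) ≤ 1 := by
    simp only [Function.Embedding.coeFn_mk, pow_zero] at h1
    linarith
  exact h2

/-! ### the coordinate functionals -/

section

variable {X : Type*} [NormedAddCommGroup X] [NormedSpace ℝ X] {e : ℕ+ → X}

/-- the coordinate functional `e_k^*` -/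
noncomputable def coord (e : ℕ+ → X) (k : ℕ+) : StrongDual ℝ X :=
  (Finsupp.lapply k : (ℕ+ →₀ ℝ) →ₗ[ℝ] ℝ).extendOfNorm (Finsupp.linearCombination ℝ e)

theorem denseRange_vec (he : IsTsirelsonBasis e) :
    DenseRange (Finsupp.linearCombination ℝ e : (ℕ+ →₀ ℝ) → X) := by
  have h := he.1
  rw [← Finsupp.range_linearCombination] at h
  exact h

theorem coord_vec (he : IsTsirelsonBasis e) (k : ℕ+) (x : ℕ+ →₀ ℝ) :
    coord e k (vec e x) = x k := by
  have := LinearMap.extendOfNorm_eq (f := (Finsupp.lapply k : (ℕ+ →₀ ℝ) →ₗ[ℝ] ℝ))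
    (e := Finsupp.linearCombination ℝ e) (denseRange_vec he) ⟨1, fun x => ?_⟩ x
  · exact this
  · rw [one_mul, Finsupp.lapply_apply, Real.norm_eq_abs]
    have h := norm_vec_eq_N he x
    rw [vec] at h
    rw [h]
    exact abs_le_N x k

theorem vec_single (k : ℕ+) : vec e (Finsupp.single k 1) = e k := by
  rw [vec, Finsupp.linearCombination_single, one_smul]

theorem norm_e (he : IsTsirelsonBasis e) (k : ℕ+) : ‖e k‖ ≤ 1 := by
  rw [← vec_single (e := e) k, norm_vec_eq_N he]
  refine (N_le_sum_abs _).trans ?_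
  calc ∑ j ∈ (Finsupp.single k (1:ℝ)).support, |Finsupp.single k (1:ℝ) j|
      ≤ ∑ j ∈ {k}, |Finsupp.single k (1:ℝ) j| :=
        Finset.sum_le_sum_of_subset_of_nonneg Finsupp.support_single_subset
          fun _ _ _ => abs_nonneg _
    _ = 1 := by simp

/-- the functional on `X` given by finitely many coefficients -/
noncomputable def psi (e : ℕ+ → X) (v : ℕ+ →₀ ℝ) : StrongDual ℝ X :=
  ∑ k ∈ v.support, v k • coord e k

theorem psi_apply (v : ℕ+ →₀ ℝ) (z : X) : psi e v z = pair v (fun k => coord e k z) := by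
  rw [psi, pair_eq_sum]
  simp

theorem psi_vec (he : IsTsirelsonBasis e) (v x : ℕ+ →₀ ℝ) : psi e v (vec e x) = pair v x := by
  rw [psi_apply]
  exact pair_congr v fun k _ => coord_vec he k x

theorem psi_le (he : IsTsirelsonBasis e) {f : ℕ+ →₀ ℝ} (hf : W f) (z : X) :
    psi e f z ≤ ‖z‖ := by
  refine (denseRange_vec he).induction_on (p := fun z => psi e f z ≤ ‖z‖) z ?_ ?_
  · exact isClosed_le (psi e f).continuous continuous_norm
  · intro x
    have h1 := psi_vec he f x
    have h2 := norm_vec_eq_N he x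
    rw [vec] at h1 h2
    rw [h1, h2]
    exact pair_le_N hf x

theorem norm_le_of_psi (he : IsTsirelsonBasis e) {z : X} {c : ℝ}
    (h : ∀ f, W f → psi e f z ≤ c) : ‖z‖ ≤ c := by
  refine le_of_forall_pos_le_add fun ε hε => ?_
  obtain ⟨y, hy⟩ := (Metric.denseRange_iff.1 (denseRange_vec he)) z (ε / 2) (by positivity)
  rw [dist_eq_norm] at hy
  change ‖z - vec e y‖ < ε / 2 at hy
  have h1 : N y ≤ c + ε / 2 := by
    refine N_le fun f hf => ?_
    rw [← psi_vec he]
    have h2 : psi e f (vec e y) = psi e f z + psi e f (vec e y - z) := by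
      rw [← map_add]
      congr 1
      abel
    rw [h2]
    have h3 := psi_le he hf (vec e y - z)
    rw [norm_sub_rev] at h3
    linarith [h f hf]
  have h2 : ‖z‖ ≤ ‖vec e y‖ + ‖z - vec e y‖ := by
    have := norm_add_le (vec e y) (z - vec e y)
    rwa [add_sub_cancel] at this
  rw [norm_vec_eq_N he] at h2
  linarith

theorem sum_abs_coord_le (he : IsTsirelsonBasis e) {A : Finset ℕ+}
    (hA : ∀ k ∈ A, A.card ≤ (k : ℕ)) (z : X) : ∑ k ∈ A, |coord e k z| ≤ 2 * ‖z‖ := by
  have h := psi_le he (W_half_sum hA (fun k => SignType.sign (coord e k z)) fun k => ?_) z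
  · rw [psi_apply, pair_half_sum] at h
    have h2 : ∑ k ∈ A, (SignType.sign (coord e k z) : ℝ) * coord e k z =
        ∑ k ∈ A, |coord e k z| := by
      refine Finset.sum_congr rfl fun k _ => ?_
      rw [sign_mul_self]
    rw [h2] at h
    linarith
  · rcases lt_trichotomy (coord e k z) 0 with h | h | h <;> simp [h]

/-- `|ψ_v z| ≤ 2 ‖z‖` for `v` supported in `A`, `|A| ≤ min A`, with `|v| ≤ 1` -/
theorem abs_psi_le_sum {A : Finset ℕ+} {v : ℕ+ →₀ ℝ}
    (hv : v.support ⊆ A) (hv1 : ∀ i, |v i| ≤ 1) (z : X) :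
    |psi e v z| ≤ ∑ k ∈ A, |coord e k z| := by
  rw [psi_apply, pair_eq_sum_of_subset v _ A hv]
  refine (Finset.abs_sum_le_sum_abs _ _).trans (Finset.sum_le_sum fun k _ => ?_)
  rw [abs_mul]
  calc |v k| * |coord e k z| ≤ 1 * |coord e k z| :=
        mul_le_mul_of_nonneg_right (hv1 k) (abs_nonneg _)
    _ = |coord e k z| := one_mul _

end

end Pool.Agent.H30.Tsirelson
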