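import Mathlib
import Pool.Agent.H30.TsirelsonSelect

/-!
# Factorization through operators with large diagonal on Tsirelson space
-/

set_option autoImplicit false

namespace Pool.Agent.H30.Tsirelson

open Pool.Agent.Lib.Tsirelson

variable {X : Type*} [NormedAddCommGroup X] [NormedSpace ℝ X] {e : ℕ+ → X}

/-- the conditions on the `k`-th pair (block vector, block functional) -/
structure Good (e : ℕ+ → X) (A : X →L[ℝ] X) (c k : ℕ) (d : (ℕ+ →₀ ℝ) × (ℕ+ →₀ ℝ)) : Prop where
  usupp : d.1.support ⊆ D c k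
  usum : ∑ i ∈ d.1.support, |d.1 i| ≤ 1
  vsupp : d.2.support ⊆ D c k
  vle : ∀ i, |d.2 i| ≤ 1
  diag : 1 / 2 ≤ psi e d.2 (A (vec e d.1))

/-- the conditions between the `j`-th and the `k`-th pair, `j < k` -/
def Rel (e : ℕ+ → X) (A : X →L[ℝ] X) (k : ℕ) (d d' : (ℕ+ →₀ ℝ) × (ℕ+ →₀ ℝ)) : Prop :=
  |psi e d.2 (A (vec e d'.1))| ≤ (1 / 4) ^ k / 4 ∧ |psi e d'.2 (A (vec e d.1))| ≤ (1 / 4) ^ k / 4

theorem norm_vec_le_sum (he : IsTsirelsonBasis e) (u : ℕ+ →₀ ℝ) :
    ‖vec e u‖ ≤ ∑ i ∈ u.support, |u i| := by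
  rw [norm_vec_eq_N he]
  exact N_le_sum_abs u

theorem selection (he : IsTsirelsonBasis e) (A : X →L[ℝ] X) (p : ℕ) (hA : ‖A‖ ≤ 2 ^ p)
    (hdiag : ∀ k, 1 ≤ |coord e k (A (e k))|) (k : ℕ)
    (g : ℕ → (ℕ+ →₀ ℝ) × (ℕ+ →₀ ℝ)) (hg : ∀ j < k, Good e A (4 * p + 12) j (g j)) :
    ∃ d, Good e A (4 * p + 12) k d ∧ ∀ j < k, Rel e A k (g j) d := by
  classical
  set c := 4 * p + 12 with hc
  set a : ℝ := 2 ^ k with ha
  set b : ℝ := 2 ^ p with hb
  have ha1 : 1 ≤ a := one_le_pow₀ (by norm_num)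
  have hb1 : 1 ≤ b := one_le_pow₀ (by norm_num)
  have hka : (k : ℝ) ≤ a := by
    have : k < 2 ^ k := Nat.lt_two_pow_self
    rw [ha]
    exact_mod_cast this.le
  have ha0 : 0 < a := by linarith
  have hb0 : 0 < b := by linarith
  have hA0 : 0 ≤ ‖A‖ := norm_nonneg _
  have hquarter : ((1 / 4 : ℝ)) ^ k / 4 = 1 / (4 * a ^ 2) := by
    rw [ha, div_pow, one_pow, ← pow_mul, mul_comm k 2, pow_mul]
    norm_num
    field_simp
  set M : ℕ := 2 ^ (5 * k + 3 * p + 8) with hM
  have hMr : (M : ℝ) = 256 * a ^ 5 * b ^ 3 := by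
    rw [hM, ha, hb]
    push_cast
    rw [pow_add, pow_add, pow_mul', pow_mul']
    norm_num
    ring
  have hM0 : (0 : ℝ) < M := by rw [hMr]; positivity
  have hcard : ((D c k).card : ℝ) = 4096 * a ^ 8 * b ^ 4 := by
    rw [card_D, hc, ha, hb]
    push_cast
    rw [pow_add, pow_add, pow_mul', pow_mul']
    norm_num
    ring
  -- norm bounds
  have hu : ∀ j < k, ‖A (vec e (g j).1)‖ ≤ b := by
    intro j hj
    calc ‖A (vec e (g j).1)‖ ≤ ‖A‖ * ‖vec e (g j).1‖ := A.le_opNorm _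
      _ ≤ ‖A‖ * 1 := mul_le_mul_of_nonneg_left
          ((norm_vec_le_sum he _).trans (hg j hj).usum) hA0
      _ ≤ b := by rw [mul_one]; exact hA
  have hAe : ∀ i, ‖A (e i)‖ ≤ b := by
    intro i
    calc ‖A (e i)‖ ≤ ‖A‖ * ‖e i‖ := A.le_opNorm _
      _ ≤ ‖A‖ * 1 := mul_le_mul_of_nonneg_left (norm_e he i) hA0
      _ ≤ b := by rw [mul_one]; exact hA
  -- the weights
  set w : ℕ+ → ℝ := fun i => ∑ j ∈ Finset.range k, |coord e i (A (vec e (g j).1))| with hw
  have hwS : ∑ i ∈ D c k, w i ≤ k * (2 * b) := by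
    rw [hw, Finset.sum_comm]
    calc ∑ j ∈ Finset.range k, ∑ i ∈ D c k, |coord e i (A (vec e (g j).1))|
        ≤ ∑ j ∈ Finset.range k, 2 * b := by
          refine Finset.sum_le_sum fun j hj => ?_
          refine (sum_abs_coord_le he (card_D_le c k) _).trans ?_
          have := hu j (Finset.mem_range.1 hj)
          linarith
      _ = k * (2 * b) := by rw [Finset.sum_const, Finset.card_range, nsmul_eq_mul]
  obtain ⟨E, hED, hEc, hEw⟩ := exists_subset_small (D c k) w
    (fun i _ => Finset.sum_nonneg fun j _ => abs_nonneg _) M (by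
      rw [card_D, hM, hc]
      calc 2 * 2 ^ (5 * k + 3 * p + 8) = 2 ^ (5 * k + 3 * p + 9) := by ring
        _ ≤ 2 ^ (8 * k + (4 * p + 12)) := Nat.pow_le_pow_right (by norm_num) (by omega))
      (k * (2 * b)) hwS
  have hEcr : (E.card : ℝ) = M := by rw [hEc]
  have hsumw : ∑ i ∈ E, w i ≤ 1 / (4 * a ^ 2) := by
    have h1 : ∀ i ∈ E, w i ≤ 2 * (k * (2 * b)) / (4096 * a ^ 8 * b ^ 4) := by
      intro i hi
      rw [le_div_iff₀ (by positivity), ← hcard]
      exact hEw i hi
    calc ∑ i ∈ E, w i ≤ ∑ i ∈ E, 2 * (k * (2 * b)) / (4096 * a ^ 8 * b ^ 4) :=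
          Finset.sum_le_sum h1
      _ = (256 * a ^ 5 * b ^ 3) * (2 * (k * (2 * b)) / (4096 * a ^ 8 * b ^ 4)) := by
          rw [Finset.sum_const, nsmul_eq_mul, hEcr, hMr]
      _ = k / a * (1 / (4 * a ^ 2)) := by
          field_simp
          ring
      _ ≤ 1 * (1 / (4 * a ^ 2)) := by
          refine mul_le_mul_of_nonneg_right ?_ (by positivity)
          rw [div_le_one ha0]
          exact hka
      _ = 1 / (4 * a ^ 2) := one_mul _
  -- signs of the diagonal
  set s : ℕ+ → ℝ := fun i => if 0 ≤ coord e i (A (e i)) then 1 else -1 with hs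
  have hs1 : ∀ i, s i = 1 ∨ s i = -1 := by
    intro i
    rw [hs]
    simp only
    split_ifs
    · exact Or.inl rfl
    · exact Or.inr rfl
  have hsd : ∀ i, 1 ≤ s i * coord e i (A (e i)) := by
    intro i
    have h1 := hdiag i
    rw [hs]
    simp only
    split_ifs with h
    · rwa [one_mul, ← abs_of_nonneg h]
    · push Not at h
      rw [abs_of_neg h] at h1
      linarith
  set Y : ℕ → ℕ+ → ℝ := fun j i => psi e (g j).2 (A (e i)) with hY
  have hYb : ∀ j < k, ∀ i, |Y j i| ≤ 2 * b := by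
    intro j hj i
    refine (abs_psi_le_sum (hg j hj).vsupp (hg j hj).vle _).trans ?_
    refine (sum_abs_coord_le he (card_D_le c j) _).trans ?_
    linarith [hAe i]
  set lam : ℝ := 32 * a ^ 4 * b with hlam
  have hlam0 : 0 < lam := by rw [hlam]; positivity
  set q : ℕ+ → ℕ+ → ℝ := fun i i' => 1 / M * (s i * coord e i (A (e i'))) -
    lam * ∑ j ∈ Finset.range k, (1 / M) ^ 2 * (Y j i * Y j i') with hq
  obtain ⟨ε, hε, hεq⟩ := exists_signs q E
  have htrace : 1 / 2 ≤ ∑ i ∈ E, q i i := by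
    have h1 : ∀ i ∈ E, 1 / M * (1:ℝ) - lam * (k * ((1 / M) ^ 2 * (2 * b) ^ 2)) ≤ q i i := by
      intro i _
      rw [hq]
      simp only
      have h2 : (1:ℝ) / M * 1 ≤ 1 / M * (s i * coord e i (A (e i))) :=
        mul_le_mul_of_nonneg_left (hsd i) (by positivity)
      have h3 : ∑ j ∈ Finset.range k, (1 / (M:ℝ)) ^ 2 * (Y j i * Y j i) ≤
          k * ((1 / M) ^ 2 * (2 * b) ^ 2) := by
        calc ∑ j ∈ Finset.range k, (1 / (M:ℝ)) ^ 2 * (Y j i * Y j i)
            ≤ ∑ j ∈ Finset.range k, (1 / (M:ℝ)) ^ 2 * (2 * b) ^ 2 := by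
              refine Finset.sum_le_sum fun j hj => ?_
              refine mul_le_mul_of_nonneg_left ?_ (by positivity)
              rw [← sq, ← sq_abs]
              exact pow_le_pow_left₀ (abs_nonneg _) (hYb j (Finset.mem_range.1 hj) i) 2
          _ = k * ((1 / M) ^ 2 * (2 * b) ^ 2) := by
              rw [Finset.sum_const, Finset.card_range, nsmul_eq_mul]
      have h4 := mul_le_mul_of_nonneg_left h3 hlam0.le
      linarith
    calc (1:ℝ) / 2 ≤ 1 - 1 / 2 * (k / a) := by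
          have : (k:ℝ) / a ≤ 1 := by rw [div_le_one ha0]; exact hka
          linarith
      _ = M * (1 / M * (1:ℝ) - lam * (k * ((1 / M) ^ 2 * (2 * b) ^ 2))) := by
          rw [hMr, hlam]
          field_simp
          ring
      _ = ∑ i ∈ E, (1 / M * (1:ℝ) - lam * (k * ((1 / M) ^ 2 * (2 * b) ^ 2))) := by
          rw [Finset.sum_const, nsmul_eq_mul, hEcr]
      _ ≤ ∑ i ∈ E, q i i := Finset.sum_le_sum h1
  have hε1 : ∀ i, |ε i| = 1 := by
    intro i
    rcases hε i with h | h <;> rw [h] <;> norm_num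
  have hs1' : ∀ i, |s i| = 1 := by
    intro i
    rcases hs1 i with h | h <;> rw [h] <;> norm_num
  -- the vectors
  set u : ℕ+ →₀ ℝ := ∑ i ∈ E, Finsupp.single i (1 / M * ε i) with hudef
  set v : ℕ+ →₀ ℝ := ∑ i ∈ E, Finsupp.single i (ε i * s i) with hvdef
  have happ : ∀ (t : ℕ+ → ℝ) (i : ℕ+), (∑ i ∈ E, Finsupp.single i (t i) : ℕ+ →₀ ℝ) i =
      if i ∈ E then t i else 0 := by
    intro t i
    rw [Finsupp.finsetSum_apply]
    split_ifs with hi
    · rw [Finset.sum_eq_single i]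
      · simp
      · intro j _ hj
        simp [hj]
      · intro h
        exact absurd hi h
    · refine Finset.sum_eq_zero fun j hj => ?_
      have : j ≠ i := fun h => hi (h ▸ hj)
      simp [this]
  have husupp : u.support ⊆ E := by
    intro i hi
    by_contra hne
    rw [Finsupp.mem_support_iff, hudef, happ, if_neg hne] at hi
    exact hi rfl
  have hvsupp : v.support ⊆ E := by
    intro i hi
    by_contra hne
    rw [Finsupp.mem_support_iff, hvdef, happ, if_neg hne] at hi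
    exact hi rfl
  have hvle : ∀ i, |v i| ≤ 1 := by
    intro i
    rw [hvdef, happ]
    split_ifs
    · rw [abs_mul, hε1, hs1']
      norm_num
    · simp
  have husum : ∑ i ∈ u.support, |u i| ≤ 1 := by
    calc ∑ i ∈ u.support, |u i| ≤ ∑ i ∈ E, |u i| :=
          Finset.sum_le_sum_of_subset_of_nonneg husupp fun _ _ _ => abs_nonneg _
      _ = ∑ i ∈ E, 1 / (M:ℝ) := by
          refine Finset.sum_congr rfl fun i hi => ?_
          rw [hudef, happ, if_pos hi, abs_mul, hε1, mul_one, abs_of_pos (by positivity)]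
      _ = 1 := by
          rw [Finset.sum_const, nsmul_eq_mul, hEcr]
          field_simp
  have hvecu : A (vec e u) = ∑ i ∈ E, (1 / M * ε i) • A (e i) := by
    rw [hudef, vec, map_sum, map_sum]
    refine Finset.sum_congr rfl fun i _ => ?_
    rw [Finsupp.linearCombination_single, map_smul]
  have hpsiv : ∀ z : X, psi e v z = ∑ i ∈ E, ε i * s i * coord e i z := by
    intro z
    rw [psi_apply, pair_eq_sum_of_subset v _ E hvsupp]
    refine Finset.sum_congr rfl fun i hi => ?_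
    rw [hvdef, happ, if_pos hi]
  have hform1 : psi e v (A (vec e u)) =
      ∑ i ∈ E, ∑ i' ∈ E, ε i * ε i' * (1 / M * (s i * coord e i (A (e i')))) := by
    rw [hpsiv]
    refine Finset.sum_congr rfl fun i _ => ?_
    rw [hvecu, map_sum, Finset.mul_sum]
    refine Finset.sum_congr rfl fun i' _ => ?_
    rw [map_smul, smul_eq_mul]
    ring
  have hform2 : ∀ j, psi e (g j).2 (A (vec e u)) ^ 2 =
      ∑ i ∈ E, ∑ i' ∈ E, ε i * ε i' * ((1 / M) ^ 2 * (Y j i * Y j i')) := by
    intro j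
    rw [hvecu, map_sum, sq, Finset.sum_mul_sum]
    refine Finset.sum_congr rfl fun i _ => Finset.sum_congr rfl fun i' _ => ?_
    rw [map_smul, map_smul, smul_eq_mul, smul_eq_mul, hY]
    ring
  have hform : ∑ i ∈ E, ∑ i' ∈ E, ε i * ε i' * q i i' = psi e v (A (vec e u)) -
      lam * ∑ j ∈ Finset.range k, psi e (g j).2 (A (vec e u)) ^ 2 := by
    have h1 : ∑ j ∈ Finset.range k, psi e (g j).2 (A (vec e u)) ^ 2 =
        ∑ i ∈ E, ∑ i' ∈ E, ∑ j ∈ Finset.range k,
          ε i * ε i' * ((1 / M) ^ 2 * (Y j i * Y j i')) := by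
      rw [Finset.sum_congr rfl fun j _ => hform2 j, Finset.sum_comm]
      refine Finset.sum_congr rfl fun i _ => ?_
      rw [Finset.sum_comm]
    rw [h1, hform1, Finset.mul_sum, ← Finset.sum_sub_distrib]
    refine Finset.sum_congr rfl fun i _ => ?_
    rw [Finset.mul_sum, ← Finset.sum_sub_distrib]
    refine Finset.sum_congr rfl fun i' _ => ?_
    rw [hq]
    simp only
    rw [mul_sub, Finset.mul_sum, Finset.mul_sum, Finset.mul_sum]
    congr 1
    exact Finset.sum_congr rfl fun j _ => by ring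
  rw [hform] at hεq
  have hmain : 1 / 2 + lam * ∑ j ∈ Finset.range k, psi e (g j).2 (A (vec e u)) ^ 2 ≤
      psi e v (A (vec e u)) := by linarith
  have hnn : 0 ≤ ∑ j ∈ Finset.range k, psi e (g j).2 (A (vec e u)) ^ 2 :=
    Finset.sum_nonneg fun _ _ => sq_nonneg _
  have hnormAu : ‖A (vec e u)‖ ≤ b := by
    calc ‖A (vec e u)‖ ≤ ‖A‖ * ‖vec e u‖ := A.le_opNorm _
      _ ≤ ‖A‖ * 1 := mul_le_mul_of_nonneg_left
          ((norm_vec_le_sum he _).trans husum) hA0
      _ ≤ b := by rw [mul_one]; exact hA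
  have hdle : psi e v (A (vec e u)) ≤ 2 * b := by
    refine (le_abs_self _).trans ?_
    refine (abs_psi_le_sum (hvsupp.trans hED) hvle _).trans ?_
    refine (sum_abs_coord_le he (card_D_le c k) _).trans ?_
    linarith
  refine ⟨(u, v), ⟨husupp.trans hED, husum, hvsupp.trans hED, hvle, ?_⟩, ?_⟩
  · have := mul_nonneg hlam0.le hnn
    linarith
  · intro j hj
    refine ⟨?_, ?_⟩
    · rw [hquarter]
      have h1 : psi e (g j).2 (A (vec e u)) ^ 2 ≤
          ∑ j ∈ Finset.range k, psi e (g j).2 (A (vec e u)) ^ 2 :=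
        Finset.single_le_sum (f := fun j => psi e (g j).2 (A (vec e u)) ^ 2)
          (fun _ _ => sq_nonneg _) (Finset.mem_range.2 hj)
      have h2 : lam * psi e (g j).2 (A (vec e u)) ^ 2 ≤ 2 * b := by
        have := mul_le_mul_of_nonneg_left h1 hlam0.le
        linarith
      have h3 : psi e (g j).2 (A (vec e u)) ^ 2 ≤ (1 / (4 * a ^ 2)) ^ 2 := by
        have h4 : psi e (g j).2 (A (vec e u)) ^ 2 ≤ 2 * b / lam := by
          rw [le_div_iff₀ hlam0]
          linarith
        refine h4.trans (le_of_eq ?_)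
        rw [hlam]
        field_simp
        ring
      exact abs_le_of_sq_le_sq h3 (by positivity)
    · rw [hquarter]
      change |psi e v (A (vec e (g j).1))| ≤ 1 / (4 * a ^ 2)
      rw [hpsiv]
      calc |∑ i ∈ E, ε i * s i * coord e i (A (vec e (g j).1))|
          ≤ ∑ i ∈ E, |ε i * s i * coord e i (A (vec e (g j).1))| :=
            Finset.abs_sum_le_sum_abs _ _
        _ ≤ ∑ i ∈ E, w i := by
            refine Finset.sum_le_sum fun i _ => ?_
            rw [abs_mul, abs_mul, hε1, hs1', one_mul, one_mul]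
            exact Finset.single_le_sum (f := fun j => |coord e i (A (vec e (g j).1))|)
              (fun _ _ => abs_nonneg _) (Finset.mem_range.2 hj)
        _ ≤ 1 / (4 * a ^ 2) := hsumw

end Pool.Agent.H30.Tsirelson
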