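import Mathlib
import Pool.Agent.H30.TsirelsonFactor

/-!
# The factorization property of Tsirelson space: conclusion
-/

set_option autoImplicit false

namespace Pool.Agent.H30.Tsirelson

open Pool.Agent.Lib.Tsirelson

section

variable {X : Type*} [NormedAddCommGroup X] [NormedSpace ℝ X] {e : ℕ+ → X}

theorem coord_e (he : IsTsirelsonBasis e) (i j : ℕ+) :
    coord e i (e j) = if i = j then 1 else 0 := by
  rw [← vec_single (e := e) j, coord_vec he, Finsupp.single_apply]
  by_cases h : i = j
  · subst h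
    simp
  · rw [if_neg h, if_neg (Ne.symm h)]

theorem factor_one [CompleteSpace X] (he : IsTsirelsonBasis e) (A : X →L[ℝ] X) (p : ℕ)
    (hA : ‖A‖ ≤ 2 ^ p) (hdiag : ∀ k, 1 ≤ |coord e k (A (e k))|) :
    ∃ R S : X →L[ℝ] X, S ∘L A ∘L R = ContinuousLinearMap.id ℝ X := by
  classical
  obtain ⟨g, hgood, hrel⟩ := exists_seq_of_forall (Good e A (4 * p + 12)) (Rel e A)
    (fun k g hg => selection he A p hA hdiag k g hg)
  set c := 4 * p + 12 with hc
  set u : ℕ+ → ℕ+ →₀ ℝ := fun k => (g (k : ℕ)).1 with hu
  set v : ℕ+ → ℕ+ →₀ ℝ := fun k => (g (k : ℕ)).2 with hv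
  set d : ℕ+ → ℝ := fun k => psi e (v k) (A (vec e (u k))) with hd
  have hd2 : ∀ k, 1 / 2 ≤ d k := fun k => (hgood k).diag
  have hd0 : ∀ k, 0 < d k := fun k => lt_of_lt_of_le (by norm_num) (hd2 k)
  have hdense := denseRange_vec he
  -- the operator `R`
  set Rl : (ℕ+ →₀ ℝ) →ₗ[ℝ] X := (Finsupp.linearCombination ℝ e) ∘ₗ
    (Finsupp.linearCombination ℝ u) with hRl
  have hRb : ∀ y, ‖Rl y‖ ≤ (4 * 3 ^ (c + 5)) * ‖Finsupp.linearCombination ℝ e y‖ := by
    intro y
    have h1 := norm_vec_eq_N he (Finsupp.linearCombination ℝ u y)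
    have h2 := norm_vec_eq_N he y
    rw [vec] at h1 h2
    rw [hRl, LinearMap.comp_apply, h1, h2]
    exact N_lc_le c u (fun k => (hgood k).usupp) (fun k => (hgood k).usum) y
  set R : X →L[ℝ] X := Rl.extendOfNorm (Finsupp.linearCombination ℝ e) with hR
  have hRv : ∀ y, R (vec e y) = vec e (Finsupp.linearCombination ℝ u y) := fun y =>
    LinearMap.extendOfNorm_eq hdense ⟨_, hRb⟩ y
  -- the operator `S₀`
  set G : ℕ+ → ℕ+ →₀ ℝ := fun i => ∑ k ∈ Finset.Icc 1 i, Finsupp.single k (v k i / d k) with hG
  have hvi : ∀ k i, ¬ k ≤ i → v k i = 0 := by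
    intro k i hki
    by_contra hne
    exact hki (D_ge c k i ((hgood k).vsupp (Finsupp.mem_support_iff.2 hne)))
  have hGi : ∀ i k, G i k = v k i / d k := by
    intro i k
    rw [hG]
    simp only
    rw [Finsupp.finsetSum_apply]
    by_cases hki : k ≤ i
    · rw [Finset.sum_eq_single k]
      · simp
      · intro j _ hj
        simp [hj]
      · intro h
        exact absurd (Finset.mem_Icc.2 ⟨one_le, hki⟩) h
    · rw [hvi k i hki, zero_div]
      refine Finset.sum_eq_zero fun j hj => ?_
      have : j ≠ k := by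
        rintro rfl
        exact hki (Finset.mem_Icc.1 hj).2
      simp [this]
  have hS0k : ∀ y k, (Finsupp.linearCombination ℝ G y) k = pair (v k) y / d k := by
    intro y k
    rw [Finsupp.linearCombination_apply, Finsupp.sum, Finsupp.finsetSum_apply,
      pair_eq_sum_of_subset (v k) y ((v k).support ∪ y.support) Finset.subset_union_left,
      Finset.sum_div]
    have h1 : ∑ i ∈ y.support, (y i • G i) k =
        ∑ i ∈ (v k).support ∪ y.support, (y i • G i) k := by
      refine Finset.sum_subset Finset.subset_union_right fun i _ hi => ?_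
      rw [Finsupp.notMem_support_iff.1 hi]
      simp
    rw [h1]
    refine Finset.sum_congr rfl fun i _ => ?_
    rw [Finsupp.smul_apply, hGi, smul_eq_mul]
    ring
  set Sl : (ℕ+ →₀ ℝ) →ₗ[ℝ] X := (Finsupp.linearCombination ℝ e) ∘ₗ
    (Finsupp.linearCombination ℝ G) with hSl
  have hSb : ∀ y, ‖Sl y‖ ≤ 4 * ‖Finsupp.linearCombination ℝ e y‖ := by
    intro y
    have h1 := norm_vec_eq_N he (Finsupp.linearCombination ℝ G y)
    have h2 := norm_vec_eq_N he y
    rw [vec] at h1 h2
    rw [hSl, LinearMap.comp_apply, h1, h2]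
    refine N_le_of_blocks (E := fun k : ℕ+ => D c (k : ℕ)) (fun k i hi => D_ge c k i hi)
      (fun k l hkl => D_succ c k l hkl) (by norm_num) fun k => ?_
    rw [hS0k, abs_div, abs_of_pos (hd0 k), div_le_iff₀ (hd0 k)]
    have h3 : |pair (v k) y| ≤ ∑ i ∈ D c k, |y i| := by
      rw [pair_eq_sum_of_subset (v k) y _ (hgood k).vsupp]
      refine (Finset.abs_sum_le_sum_abs _ _).trans (Finset.sum_le_sum fun i _ => ?_)
      rw [abs_mul]
      calc |v k i| * |y i| ≤ 1 * |y i| :=
            mul_le_mul_of_nonneg_right ((hgood k).vle i) (abs_nonneg _)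
        _ = |y i| := one_mul _
    have h4 := sum_abs_le (card_D_le c k) y
    have h5 := N_nonneg (res (D c k) y)
    have h6 := hd2 k
    nlinarith
  set S0 : X →L[ℝ] X := Sl.extendOfNorm (Finsupp.linearCombination ℝ e) with hS0
  have hS0v : ∀ y, S0 (vec e y) = vec e (Finsupp.linearCombination ℝ G y) := fun y =>
    LinearMap.extendOfNorm_eq hdense ⟨_, hSb⟩ y
  have hS0c : ∀ (k : ℕ+) (z : X), coord e k (S0 z) = psi e (v k) z / d k := by
    intro k z
    refine hdense.induction_on (p := fun z => coord e k (S0 z) = psi e (v k) z / d k) z ?_ ?_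
    · exact isClosed_eq ((coord e k).continuous.comp S0.continuous)
        ((psi e (v k)).continuous.div_const _)
    · intro y
      change coord e k (S0 (vec e y)) = psi e (v k) (vec e y) / d k
      rw [hS0v, coord_vec he, hS0k, psi_vec he]
  -- the perturbation
  set T : X →L[ℝ] X := S0 ∘L A ∘L R with hT
  have hTn : ∀ z : X, ‖(1 - T) z‖ ≤ 1 / 2 * ‖z‖ := by
    intro z
    refine hdense.induction_on (p := fun z => ‖(1 - T) z‖ ≤ 1 / 2 * ‖z‖) z ?_ ?_
    · exact isClosed_le ((1 - T).continuous.norm) (continuous_const.mul continuous_norm)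
    · intro y
      change ‖(1 - T) (vec e y)‖ ≤ 1 / 2 * ‖vec e y‖
      rw [norm_vec_eq_N he]
      have hcoord : ∀ j, |coord e j ((1 - T) (vec e y))| ≤ 1 / 2 * N y * (1 / 2) ^ (j : ℕ) := by
        intro j
        have h1 : (1 - T) (vec e y) = vec e y - S0 (A (vec e (Finsupp.linearCombination ℝ u y))) := by
          rw [sub_apply, one_apply_eq_self, hT]
          simp only [ContinuousLinearMap.comp_apply]
          rw [hRv]
        have h2 : psi e (v j) (A (vec e (Finsupp.linearCombination ℝ u y))) =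
            ∑ k ∈ y.support, y k * psi e (v j) (A (vec e (u k))) := by
          rw [Finsupp.linearCombination_apply, Finsupp.sum, vec, map_sum, map_sum, map_sum]
          refine Finset.sum_congr rfl fun k _ => ?_
          rw [map_smul, map_smul, map_smul, smul_eq_mul]
          rfl
        rw [h1, map_sub, coord_vec he, hS0c, h2]
        have h3 : y j - (∑ k ∈ y.support, y k * psi e (v j) (A (vec e (u k)))) / d j =
            - ∑ k ∈ y.support.erase j, y k * psi e (v j) (A (vec e (u k))) / d j := by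
          by_cases hj : j ∈ y.support
          · rw [← Finset.add_sum_erase _ _ hj, add_div, Finset.sum_div]
            have : y j * psi e (v j) (A (vec e (u j))) / d j = y j := by
              change y j * d j / d j = y j
              rw [mul_div_assoc, div_self (hd0 j).ne', mul_one]
            rw [this]
            ring
          · rw [Finsupp.notMem_support_iff.1 hj, Finset.erase_eq_of_notMem hj, Finset.sum_div]
            ring
        rw [h3, abs_neg]
        calc |∑ k ∈ y.support.erase j, y k * psi e (v j) (A (vec e (u k))) / d j|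
            ≤ ∑ k ∈ y.support.erase j, |y k * psi e (v j) (A (vec e (u k))) / d j| :=
              Finset.abs_sum_le_sum_abs _ _
          _ ≤ ∑ k ∈ y.support.erase j, 1 / 2 * N y * (1 / 2) ^ (j : ℕ) * (1 / 2) ^ (k : ℕ) := by
              refine Finset.sum_le_sum fun k hk => ?_
              have hkj : k ≠ j := Finset.ne_of_mem_erase hk
              rw [abs_div, abs_mul, abs_of_pos (hd0 j), div_le_iff₀ (hd0 j)]
              have h4 : |psi e (v j) (A (vec e (u k)))| ≤
                  1 / 4 * ((1 / 2) ^ (j : ℕ) * (1 / 2) ^ (k : ℕ)) := by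
                have hpow : ∀ m n l : ℕ, m ≤ l → n ≤ l →
                    ((1:ℝ) / 4) ^ l / 4 ≤ 1 / 4 * ((1 / 2) ^ m * (1 / 2) ^ n) := by
                  intro m n l hml hnl
                  have h5 : ((1:ℝ) / 4) ^ l = (1 / 2) ^ l * (1 / 2) ^ l := by
                    rw [← mul_pow]
                    norm_num
                  have h6 : ((1:ℝ) / 2) ^ l ≤ (1 / 2) ^ m :=
                    pow_le_pow_of_le_one (by norm_num) (by norm_num) hml
                  have h7 : ((1:ℝ) / 2) ^ l ≤ (1 / 2) ^ n :=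
                    pow_le_pow_of_le_one (by norm_num) (by norm_num) hnl
                  have h8 : ((1:ℝ) / 2) ^ l * (1 / 2) ^ l ≤ (1 / 2) ^ m * (1 / 2) ^ n :=
                    mul_le_mul h6 h7 (by positivity) (by positivity)
                  rw [h5]
                  linarith
                rcases lt_or_gt_of_ne hkj with hlt | hlt
                · -- k < j
                  have h5 := (hrel j k hlt).2
                  exact h5.trans (hpow _ _ _ le_rfl (show (k : ℕ) ≤ j from hlt.le))
                · have h5 := (hrel k j hlt).1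
                  exact h5.trans (hpow _ _ _ (show (j : ℕ) ≤ k from hlt.le) le_rfl)
              have h5 : |y k| ≤ N y := abs_le_N y k
              have h6 := N_nonneg y
              have h7 : (0:ℝ) ≤ (1 / 2) ^ (j : ℕ) * (1 / 2) ^ (k : ℕ) := by positivity
              calc |y k| * |psi e (v j) (A (vec e (u k)))|
                  ≤ N y * (1 / 4 * ((1 / 2) ^ (j : ℕ) * (1 / 2) ^ (k : ℕ))) :=
                    mul_le_mul h5 h4 (abs_nonneg _) h6
                _ = 1 / 2 * N y * (1 / 2) ^ (j : ℕ) * (1 / 2) ^ (k : ℕ) * (1 / 2) := by ring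
                _ ≤ 1 / 2 * N y * (1 / 2) ^ (j : ℕ) * (1 / 2) ^ (k : ℕ) * d j :=
                    mul_le_mul_of_nonneg_left (hd2 j) (by positivity)
          _ = 1 / 2 * N y * (1 / 2) ^ (j : ℕ) * ∑ k ∈ y.support.erase j, (1 / 2) ^ (k : ℕ) := by
              rw [Finset.mul_sum]
          _ ≤ 1 / 2 * N y * (1 / 2) ^ (j : ℕ) * 1 := by
              refine mul_le_mul_of_nonneg_left (sum_half_pow_le _) ?_
              have := N_nonneg y
              positivity
          _ = 1 / 2 * N y * (1 / 2) ^ (j : ℕ) := mul_one _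
      refine norm_le_of_psi he fun f hf => ?_
      rw [psi_apply, pair_eq_sum]
      calc ∑ j ∈ f.support, f j * coord e j ((1 - T) (vec e y))
          ≤ ∑ j ∈ f.support, 1 / 2 * N y * (1 / 2) ^ (j : ℕ) := by
            refine Finset.sum_le_sum fun j _ => ?_
            calc f j * coord e j ((1 - T) (vec e y))
                ≤ |f j * coord e j ((1 - T) (vec e y))| := le_abs_self _
              _ = |f j| * |coord e j ((1 - T) (vec e y))| := abs_mul _ _
              _ ≤ 1 * |coord e j ((1 - T) (vec e y))| :=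
                  mul_le_mul_of_nonneg_right (W_abs_le hf j) (abs_nonneg _)
              _ ≤ 1 / 2 * N y * (1 / 2) ^ (j : ℕ) := by rw [one_mul]; exact hcoord j
        _ = 1 / 2 * N y * ∑ j ∈ f.support, (1 / 2) ^ (j : ℕ) := by rw [Finset.mul_sum]
        _ ≤ 1 / 2 * N y * 1 := by
            refine mul_le_mul_of_nonneg_left (sum_half_pow_le _) ?_
            have := N_nonneg y
            positivity
        _ = 1 / 2 * N y := mul_one _
  have hTnorm : ‖1 - T‖ < 1 := by
    have : ‖1 - T‖ ≤ 1 / 2 := (1 - T).opNorm_le_bound (by norm_num) hTn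
    linarith
  have hunit : IsUnit T := by
    have := isUnit_one_sub_of_norm_lt_one hTnorm
    rwa [sub_sub_cancel] at this
  obtain ⟨U, hU⟩ := hunit
  refine ⟨R, (↑U⁻¹ : X →L[ℝ] X) ∘L S0, ?_⟩
  have h1 : (↑U⁻¹ : X →L[ℝ] X) * T = 1 := by
    rw [← hU]
    exact U.inv_mul
  calc ((↑U⁻¹ : X →L[ℝ] X) ∘L S0) ∘L A ∘L R = (↑U⁻¹ : X →L[ℝ] X) * T := by
        rw [hT]
        rfl
    _ = 1 := h1
    _ = ContinuousLinearMap.id ℝ X := rfl

theorem factorization [CompleteSpace X] (he : IsTsirelsonBasis e) : FactorizationProperty e := by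
  refine ⟨coord e, coord_e he, ?_⟩
  rintro A ⟨δ, hδ, hA⟩
  obtain ⟨p, hp⟩ := pow_unbounded_of_one_lt (‖δ⁻¹ • A‖) (by norm_num : (1:ℝ) < 2)
  obtain ⟨R, S, hRS⟩ := factor_one he (δ⁻¹ • A) p hp.le fun k => by
    rw [smul_apply, map_smul, smul_eq_mul, abs_mul, abs_of_pos (by positivity),
      ← div_eq_inv_mul, le_div_iff₀ hδ, one_mul]
    exact hA k
  refine ⟨R, δ⁻¹ • S, ?_⟩
  rw [← hRS]
  ext x
  simp

end

/-! ### existence of the space -/

/-- `c₀₀` with Tsirelson's norm -/
def Pre : Type := ℕ+ →₀ ℝ

noncomputable instance : AddCommGroup Pre := inferInstanceAs (AddCommGroup (ℕ+ →₀ ℝ))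
noncomputable instance : Module ℝ Pre := inferInstanceAs (Module ℝ (ℕ+ →₀ ℝ))

noncomputable instance : Norm Pre := ⟨fun x => N (show ℕ+ →₀ ℝ from x)⟩

theorem core : NormedSpace.Core ℝ Pre where
  norm_nonneg x := N_nonneg _
  norm_smul c x := by
    change N (c • (show ℕ+ →₀ ℝ from x)) = ‖c‖ * N (show ℕ+ →₀ ℝ from x)
    rw [N_smul, Real.norm_eq_abs]
  norm_triangle x y := N_add _ _
  norm_eq_zero_iff x := by
    constructor
    · intro h
      change N (show ℕ+ →₀ ℝ from x) = 0 at h
      refine Finsupp.ext fun k => ?_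
      have := abs_le_N (show ℕ+ →₀ ℝ from x) k
      rw [h] at this
      exact abs_nonpos_iff.1 this
    · rintro rfl
      exact N_zero

noncomputable instance : NormedAddCommGroup Pre := NormedAddCommGroup.ofCore core
noncomputable instance : NormedSpace ℝ Pre := NormedSpace.ofCore core

/-- the identity map `c₀₀ → Pre` -/
noncomputable def mkPre : (ℕ+ →₀ ℝ) →ₗ[ℝ] Pre where
  toFun x := x
  map_add' _ _ := rfl
  map_smul' _ _ := rfl

theorem norm_mkPre (x : ℕ+ →₀ ℝ) : ‖mkPre x‖ = N x := rfl

/-- the canonical map of `c₀₀` into the completion -/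
noncomputable def toT : (ℕ+ →₀ ℝ) →ₗ[ℝ] UniformSpace.Completion Pre :=
  (UniformSpace.Completion.toComplL (𝕜 := ℝ) (E := Pre)).toLinearMap ∘ₗ mkPre

theorem norm_toT (x : ℕ+ →₀ ℝ) : ‖toT x‖ = N x := by
  change ‖((mkPre x : Pre) : UniformSpace.Completion Pre)‖ = N x
  rw [UniformSpace.Completion.norm_coe, norm_mkPre]

theorem exists_tsirelson : ∃ (X : Type) (_ : NormedAddCommGroup X) (_ : NormedSpace ℝ X)
    (_ : CompleteSpace X) (e : ℕ+ → X), IsTsirelsonBasis e := by
  refine ⟨UniformSpace.Completion Pre, inferInstance, inferInstance, inferInstance,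
    fun k => toT (Finsupp.single k 1), ?_⟩
  set e : ℕ+ → UniformSpace.Completion Pre := fun k => toT (Finsupp.single k 1) with he
  have hlc : Finsupp.linearCombination ℝ e = toT := by
    refine Finsupp.lhom_ext' fun k => LinearMap.ext_ring ?_
    rw [LinearMap.comp_apply, LinearMap.comp_apply, Finsupp.lsingle_apply,
      Finsupp.linearCombination_single, one_smul]
  constructor
  · rw [← Finsupp.range_linearCombination, hlc]
    exact UniformSpace.Completion.denseRange_coe (α := Pre)
  · intro x
    have h1 : (fun y : ℕ+ →₀ ℝ => ‖vec e y‖) = N := by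
      funext y
      rw [vec, hlc, norm_toT]
    have h2 : ‖vec e x‖ = N x := congrFun h1 x
    rw [h1, h2]
    exact isLUB_N x

end Pool.Agent.H30.Tsirelson
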